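import Pool.Agent.H97.KN.Defs

/-!
ROW D1 (MP_72793b_PR, deterministic).  In a good tile every point is a neighbour of all points at distance `< 3 s`.

Proof of `near_of_good`: every `z ∈ Q` with `dist p z < dist p q < 3 s` has `|z.re - p.re| < 3 s`, so
`|⌊z.re/s⌋ - ⌊p.re/s⌋| ≤ 3` (integers: `x < y + 3 → ⌊x⌋ ≤ ⌊y⌋ + 3`), the same for `im`; so `idx s z ∈ blk 3 t`.
So the filtered set is contained in `Q.filter (idx s z ∈ blk 3 t)`, whose cardinality is `∑ t' ∈ blk 3 t, cnt s Q t'`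
(`Finset.card_eq_sum_card_fiberwise` or `card_biUnion_le`), and this is `< k`.
`dist_lt`: if the indices of `p, q` differ by at most `1` in both coordinates then `|p.re - q.re| ≤ 2 s`,
`|p.im - q.im| ≤ 2 s`, `dist p q ≤ √8 s < 3 s`.
-/

namespace Pool.Agent.H97.KN

open Finset MeasureTheory Pool.Agent.H77.KN

theorem D1_floor {x y : ℝ} {m : ℤ} (h : x < y + m) : ⌊x⌋ ≤ ⌊y⌋ + m := by
  have h1 : ⌊x⌋ ≤ ⌊y + (m : ℝ)⌋ := Int.floor_le_floor h.le
  rwa [Int.floor_add_intCast] at h1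

theorem D1_abs {s : ℝ} (hs : 0 < s) {x y : ℝ} {m : ℤ} (h : |x - y| < m * s) : |⌊x / s⌋ - ⌊y / s⌋| ≤ m := by
  obtain ⟨h1, h2⟩ := abs_lt.1 h
  have h3 : x / s < y / s + m := by
    rw [div_add' _ _ _ hs.ne', div_lt_div_iff_of_pos_right hs]
    linarith
  have h4 : y / s < x / s + m := by
    rw [div_add' _ _ _ hs.ne', div_lt_div_iff_of_pos_right hs]
    linarith
  have h5 := D1_floor h3
  have h6 := D1_floor h4
  rw [abs_le]
  constructor <;> linarith

theorem D1_re (p z : ℂ) : |z.re - p.re| ≤ dist p z := by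
  rw [dist_comm, dist_eq_norm, ← Complex.sub_re]
  exact Complex.abs_re_le_norm _

theorem D1_im (p z : ℂ) : |z.im - p.im| ≤ dist p z := by
  rw [dist_comm, dist_eq_norm, ← Complex.sub_im]
  exact Complex.abs_im_le_norm _

theorem near_of_good {s : ℝ} (hs : 0 < s) {k : ℕ} {Q : Finset ℂ} {t : ℤ × ℤ} (ht : Good s k Q t) {p q : ℂ}
    (hp : idx s p = t) (hd : dist p q < 3 * s) : Near k Q p q := by
  classical
  unfold Near
  refine lt_of_le_of_lt ?_ ht.2
  have h1 : (Q.filter (fun z => idx s z ∈ blk 3 t)).card = ∑ t' ∈ blk 3 t, cnt s Q t' := by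
    rw [Finset.card_eq_sum_card_fiberwise (f := idx s) (t := blk 3 t)]
    · refine Finset.sum_congr rfl fun t' ht' => ?_
      unfold cnt
      congr 1
      ext z
      simp only [Finset.mem_filter]
      constructor
      · rintro ⟨⟨a, b⟩, c⟩
        exact ⟨a, c⟩
      · rintro ⟨a, c⟩
        exact ⟨⟨a, c ▸ ht'⟩, c⟩
    · intro z hz
      exact (Finset.mem_filter.1 hz).2
  rw [← h1]
  refine Finset.card_le_card fun z hz => ?_
  rw [Finset.mem_filter] at hz ⊢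
  refine ⟨hz.1, ?_⟩
  have h2 : dist p z < ((3 : ℤ) : ℝ) * s := by
    push_cast
    exact hz.2.2.trans hd
  have h3 := D1_abs hs ((D1_re p z).trans_lt h2)
  have h4 := D1_abs hs ((D1_im p z).trans_lt h2)
  have h5 : t = (⌊p.re / s⌋, ⌊p.im / s⌋) := hp.symm
  unfold blk idx
  rw [h5, Finset.mem_product, Finset.mem_Icc, Finset.mem_Icc]
  rw [abs_le] at h3 h4
  simp only
  refine ⟨⟨?_, ?_⟩, ⟨?_, ?_⟩⟩ <;> push_cast <;> omega

theorem D1_diff {s : ℝ} (hs : 0 < s) {x y : ℝ} (h : |⌊x / s⌋ - ⌊y / s⌋| ≤ 1) : |x - y| ≤ 2 * s := by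
  have h1 := Int.floor_le (x / s)
  have h2 := Int.lt_floor_add_one (x / s)
  have h3 := Int.floor_le (y / s)
  have h4 := Int.lt_floor_add_one (y / s)
  rw [abs_le] at h
  have h5 : ((⌊x / s⌋ : ℤ) : ℝ) - (⌊y / s⌋ : ℤ) ≤ 1 := by exact_mod_cast h.2
  have h6 : (-1 : ℝ) ≤ ((⌊x / s⌋ : ℤ) : ℝ) - (⌊y / s⌋ : ℤ) := by exact_mod_cast h.1
  have h7 : x / s - y / s ≤ 2 := by linarith
  have h8 : -2 ≤ x / s - y / s := by linarith
  have h9 : x / s - y / s = (x - y) / s := by ring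
  rw [h9] at h7 h8
  rw [div_le_iff₀ hs] at h7
  rw [le_div_iff₀ hs] at h8
  rw [abs_le]
  constructor <;> linarith

theorem dist_lt {s : ℝ} (hs : 0 < s) {p q : ℂ} (h1 : |(idx s p).1 - (idx s q).1| ≤ 1)
    (h2 : |(idx s p).2 - (idx s q).2| ≤ 1) : dist p q < 3 * s := by
  have h3 : |p.re - q.re| ≤ 2 * s := D1_diff hs h1
  have h4 : |p.im - q.im| ≤ 2 * s := D1_diff hs h2
  rw [abs_le] at h3 h4
  rw [Complex.dist_eq_re_im]
  rw [Real.sqrt_lt' (by positivity)]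
  nlinarith [h3.1, h3.2, h4.1, h4.2]

theorem adj_of_good {s : ℝ} (hs : 0 < s) {k : ℕ} {Q : Finset ℂ} {t : ℤ × ℤ} (ht : Good s k Q t) {p q : ℂ}
    (hp : p ∈ Q) (hq : q ∈ Q) (hpt : idx s p = t) (h1 : |(idx s q).1 - t.1| ≤ 1) (h2 : |(idx s q).2 - t.2| ≤ 1) :
    (knn k Q).Reachable p q := by
  by_cases hpq : p = q
  · subst hpq
    exact SimpleGraph.Reachable.refl _
  · have hd : dist p q < 3 * s := by
      refine dist_lt hs ?_ ?_
      · rw [hpt, abs_sub_comm]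
        exact h1
      · rw [hpt, abs_sub_comm]
        exact h2
    have h3 := near_of_good hs ht hpt hd
    have h4 : (knn k Q).Adj p q := ⟨hp, hq, hpq, Or.inl h3⟩
    exact h4.reachable

end Pool.Agent.H97.KN
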