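import Pool.Agent.H97.KN.D1

/-!
ROW D2 (MP_72793b_PR, deterministic).  An edge that crosses a good tile belongs to the component of the tile.

Proof: wlog `Near k Q c c'` (the statement is symmetric up to `Reachable p c ↔ Reachable p c'`, as `c ~ c'`).
`ρ = dist c c' = dist c x + dist x c'` (`x ∈ segment`).  `p` and `x` are both in the closed tile `t`:
`dist p x ≤ √2 s`.  If `dist c p < ρ`: the points `z ≠ c` with `dist c z < dist c p` are among those with
`dist c z < dist c c'`, so `Near k Q c p`, so `p = c` or `p ~ c`.  Otherwise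
`dist c x + dist x c' = ρ ≤ dist c p ≤ dist c x + dist x p`, so `dist x c' ≤ √2 s`, `dist p c' ≤ 2 √2 s < 3 s`, so
`Near k Q p c'` by `near_of_good`, so `p = c'` or `p ~ c'`; and `c' ~ c`.
(`tile_of_idx`: `idx s z = t → z ∈ tile s t`, from `Int.floor_le`, `Int.lt_floor_add_one` and `div_le_iff₀`.)
-/

namespace Pool.Agent.H97.KN

open Finset MeasureTheory Pool.Agent.H77.KN

theorem tile_of_idx {s : ℝ} (hs : 0 < s) {z : ℂ} {t : ℤ × ℤ} (h : idx s z = t) : z ∈ tile s t := by
  subst h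
  have h1 := Int.floor_le (z.re / s)
  have h2 := Int.lt_floor_add_one (z.re / s)
  have h3 := Int.floor_le (z.im / s)
  have h4 := Int.lt_floor_add_one (z.im / s)
  rw [le_div_iff₀ hs] at h1 h3
  rw [div_lt_iff₀ hs] at h2 h4
  exact ⟨h1, h2.le, h3, h4.le⟩

theorem dist_tile {s : ℝ} (hs : 0 < s) {z w : ℂ} {t : ℤ × ℤ} (hz : z ∈ tile s t) (hw : w ∈ tile s t) :
    dist z w ≤ Real.sqrt 2 * s := by
  obtain ⟨a1, a2, a3, a4⟩ := hz
  obtain ⟨b1, b2, b3, b4⟩ := hw
  rw [Complex.dist_eq_re_im]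
  have h1 : (z.re - w.re) ^ 2 ≤ s ^ 2 := by
    refine sq_le_sq' ?_ ?_ <;> nlinarith
  have h2 : (z.im - w.im) ^ 2 ≤ s ^ 2 := by
    refine sq_le_sq' ?_ ?_ <;> nlinarith
  refine Real.sqrt_le_iff.2 ⟨by positivity, ?_⟩
  rw [mul_pow, Real.sq_sqrt (by norm_num)]
  linarith

theorem crossing_aux {s : ℝ} (hs : 0 < s) {k : ℕ} {Q : Finset ℂ} {t : ℤ × ℤ} (ht : Good s k Q t) {c c' x : ℂ}
    (hadj : (knn k Q).Adj c c') (hN : Near k Q c c') (hx : x ∈ segment ℝ c c') (hxt : x ∈ tile s t) {p : ℂ}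
    (hp : p ∈ Q) (hpt : idx s p = t) : (knn k Q).Reachable p c := by
  have hseg := dist_add_dist_of_mem_segment hx
  have hpx : dist x p ≤ Real.sqrt 2 * s := dist_tile hs hxt (tile_of_idx hs hpt)
  have hsq : Real.sqrt 2 < 3 / 2 := by
    rw [Real.sqrt_lt' (by norm_num)]
    norm_num
  by_cases hpc : p = c
  · rw [hpc]
  by_cases hlt : dist c p < dist c c'
  · have hNp : Near k Q c p := by
      unfold Near at hN ⊢
      refine lt_of_le_of_lt (Finset.card_le_card ?_) hN
      intro z hz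
      rw [Finset.mem_filter] at hz ⊢
      exact ⟨hz.1, hz.2.1, hz.2.2.trans hlt⟩
    have hA : (knn k Q).Adj c p := ⟨hadj.1, hp, fun h => hpc h.symm, Or.inl hNp⟩
    exact hA.symm.reachable
  · have h1 : dist c c' ≤ dist c p := not_lt.1 hlt
    have h2 : dist c p ≤ dist c x + dist x p := dist_triangle _ _ _
    have h3 : dist x c' ≤ Real.sqrt 2 * s := by linarith
    have h4 : dist p c' ≤ dist p x + dist x c' := dist_triangle _ _ _
    have h5 : dist p c' < 3 * s := by
      rw [dist_comm p x] at h4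
      nlinarith
    have hNp : Near k Q p c' := near_of_good hs ht hpt h5
    by_cases hpc' : p = c'
    · rw [hpc']
      exact hadj.symm.reachable
    · have hA : (knn k Q).Adj p c' := ⟨hp, hadj.2.1, hpc', Or.inl hNp⟩
      exact hA.reachable.trans hadj.symm.reachable

theorem crossing {s : ℝ} (hs : 0 < s) {k : ℕ} {Q : Finset ℂ} {t : ℤ × ℤ} (ht : Good s k Q t) {c c' x : ℂ}
    (hadj : (knn k Q).Adj c c') (hx : x ∈ segment ℝ c c') (hxt : x ∈ tile s t) {p : ℂ} (hp : p ∈ Q)
    (hpt : idx s p = t) : (knn k Q).Reachable p c := by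
  rcases hadj.2.2.2 with hN | hN
  · exact crossing_aux hs ht hadj hN hx hxt hp hpt
  · rw [segment_symm] at hx
    exact (crossing_aux hs ht hadj.symm hN hx hxt hp hpt).trans hadj.symm.reachable

end Pool.Agent.H97.KN
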