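import Pool.Agent.H97.KN.D1

/-!
D3a (deterministic).  Points in a chain of good tiles are connected; good rows and columns exist.

`reach_line`: induction on `m` (a good tile is nonempty: take a point `q'` of `u m`, use `adj_of_good`).
`exists_goodCol`: the columns `i ∈ [i0, i0+m0)` that are not good on `[b,b+K)` each contain a bad tile `(i,j)` of the
window; distinct columns give distinct tiles; if all `m0` columns were not good there would be `≥ m0` bad tiles in the
window, contradicting `Win` (`Finset.card_le_card_of_injOn` from `Finset.Ico i0 (i0+m0)` by `i ↦ (i, j i)`).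
`goodCol_reach`, `goodRow_reach`: from `reach_line` with `u i = (c, j0 + i)` (wlog the first index is the smaller).
-/

namespace Pool.Agent.H97.KN

open Finset MeasureTheory Pool.Agent.H77.KN

theorem D3a_point {s : ℝ} {k : ℕ} {Q : Finset ℂ} {t : ℤ × ℤ} (h : Good s k Q t) :
    ∃ q ∈ Q, idx s q = t := by
  have h1 := h.1
  unfold cnt at h1
  obtain ⟨q, hq⟩ := Finset.card_pos.1 (by omega : 0 < (Q.filter (fun z => idx s z = t)).card)
  rw [Finset.mem_filter] at hq
  exact ⟨q, hq.1, hq.2⟩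

theorem reach_line {s : ℝ} (hs : 0 < s) {k : ℕ} {Q : Finset ℂ} (u : ℕ → ℤ × ℤ) (m : ℕ)
    (hgood : ∀ i ≤ m, Good s k Q (u i))
    (hstep : ∀ i < m, |(u (i + 1)).1 - (u i).1| ≤ 1 ∧ |(u (i + 1)).2 - (u i).2| ≤ 1) {p q : ℂ} (hp : p ∈ Q)
    (hpt : idx s p = u 0) (hq : q ∈ Q) (hqt : idx s q = u m) : (knn k Q).Reachable p q := by
  induction m generalizing q with
  | zero =>
    refine adj_of_good hs (hgood 0 le_rfl) hp hq hpt ?_ ?_
    · rw [hqt, sub_self, abs_zero]
      exact zero_le_one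
    · rw [hqt, sub_self, abs_zero]
      exact zero_le_one
  | succ m ih =>
    obtain ⟨q', hq', hqt'⟩ := D3a_point (hgood m (Nat.le_succ m))
    have h1 := ih (fun i hi => hgood i (by omega)) (fun i hi => hstep i (by omega)) hq' hqt'
    have h2 := hstep m (Nat.lt_succ_self m)
    refine h1.trans (adj_of_good hs (hgood m (Nat.le_succ m)) hq' hq hqt' ?_ ?_)
    · rw [hqt]
      exact h2.1
    · rw [hqt]
      exact h2.2

theorem D3a_col {s : ℝ} (hs : 0 < s) {k : ℕ} {Q : Finset ℂ} {K : ℕ} {b i : ℤ} (h : GoodCol s k Q K b i)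
    {p q : ℂ} (hp : p ∈ Q) (hq : q ∈ Q) (hpi : (idx s p).1 = i) (hqi : (idx s q).1 = i)
    (hp1 : b ≤ (idx s p).2) (hq2 : (idx s q).2 < b + K) (hle : (idx s p).2 ≤ (idx s q).2) :
    (knn k Q).Reachable p q := by
  obtain ⟨m, hm⟩ := Int.le.dest hle
  refine reach_line hs (fun n : ℕ => (i, (idx s p).2 + n)) m ?_ ?_ hp ?_ hq ?_
  · intro n hn
    exact h _ (by omega) (by omega)
  · intro n _
    constructor
    · simp
    · have : (idx s p).2 + ((n + 1 : ℕ) : ℤ) - ((idx s p).2 + (n : ℤ)) = 1 := by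
        push_cast
        ring
      show |(idx s p).2 + ((n + 1 : ℕ) : ℤ) - ((idx s p).2 + (n : ℤ))| ≤ 1
      rw [this, abs_one]
  · apply Prod.ext
    · exact hpi
    · simp
  · apply Prod.ext
    · exact hqi
    · exact hm.symm

theorem goodCol_reach {s : ℝ} (hs : 0 < s) {k : ℕ} {Q : Finset ℂ} {K : ℕ} {b i : ℤ} (h : GoodCol s k Q K b i)
    {p q : ℂ} (hp : p ∈ Q) (hq : q ∈ Q) (hpi : (idx s p).1 = i) (hqi : (idx s q).1 = i)
    (hp1 : b ≤ (idx s p).2) (hp2 : (idx s p).2 < b + K) (hq1 : b ≤ (idx s q).2) (hq2 : (idx s q).2 < b + K) :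
    (knn k Q).Reachable p q := by
  rcases le_total (idx s p).2 (idx s q).2 with hle | hle
  · exact D3a_col hs h hp hq hpi hqi hp1 hq2 hle
  · exact (D3a_col hs h hq hp hqi hpi hq1 hp2 hle).symm

theorem D3a_row {s : ℝ} (hs : 0 < s) {k : ℕ} {Q : Finset ℂ} {K : ℕ} {a j : ℤ} (h : GoodRow s k Q K a j)
    {p q : ℂ} (hp : p ∈ Q) (hq : q ∈ Q) (hpj : (idx s p).2 = j) (hqj : (idx s q).2 = j)
    (hp1 : a ≤ (idx s p).1) (hq2 : (idx s q).1 < a + K) (hle : (idx s p).1 ≤ (idx s q).1) :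
    (knn k Q).Reachable p q := by
  obtain ⟨m, hm⟩ := Int.le.dest hle
  refine reach_line hs (fun n : ℕ => ((idx s p).1 + n, j)) m ?_ ?_ hp ?_ hq ?_
  · intro n hn
    exact h _ (by omega) (by omega)
  · intro n _
    constructor
    · have : (idx s p).1 + ((n + 1 : ℕ) : ℤ) - ((idx s p).1 + (n : ℤ)) = 1 := by
        push_cast
        ring
      show |(idx s p).1 + ((n + 1 : ℕ) : ℤ) - ((idx s p).1 + (n : ℤ))| ≤ 1
      rw [this, abs_one]
    · simp
  · apply Prod.ext
    · simp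
    · exact hpj
  · apply Prod.ext
    · exact hm.symm
    · exact hqj

theorem goodRow_reach {s : ℝ} (hs : 0 < s) {k : ℕ} {Q : Finset ℂ} {K : ℕ} {a j : ℤ} (h : GoodRow s k Q K a j)
    {p q : ℂ} (hp : p ∈ Q) (hq : q ∈ Q) (hpj : (idx s p).2 = j) (hqj : (idx s q).2 = j)
    (hp1 : a ≤ (idx s p).1) (hp2 : (idx s p).1 < a + K) (hq1 : a ≤ (idx s q).1) (hq2 : (idx s q).1 < a + K) :
    (knn k Q).Reachable p q := by
  rcases le_total (idx s p).1 (idx s q).1 with hle | hle
  · exact D3a_row hs h hp hq hpj hqj hp1 hq2 hle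
  · exact (D3a_row hs h hq hp hqj hpj hq1 hp2 hle).symm

theorem exists_goodCol {s : ℝ} {k : ℕ} {Q : Finset ℂ} {L K m0 : ℕ} (hW : Win s k Q L K m0) {a b i0 : ℤ}
    (ha : 0 ≤ a) (hb : 0 ≤ b) (haL : a + K ≤ L) (hbL : b + K ≤ L) (h1 : a ≤ i0) (h2 : i0 + m0 ≤ a + K) :
    ∃ i, i0 ≤ i ∧ i < i0 + m0 ∧ GoodCol s k Q K b i := by
  classical
  by_contra hno
  push Not at hno
  have hex : ∀ i, i0 ≤ i → i < i0 + m0 → ∃ j, b ≤ j ∧ j < b + K ∧ ¬ Good s k Q (i, j) := by
    intro i hi1 hi2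
    have h3 := hno i hi1 hi2
    unfold GoodCol at h3
    push Not at h3
    exact h3
  choose! φ hφ using hex
  have hwin := hW a b ha hb haL hbL
  have hcard : (Finset.Ico i0 (i0 + m0)).card = m0 := by
    rw [Int.card_Ico]
    omega
  have hle : (Finset.Ico i0 (i0 + m0)).card ≤
      ((window K a b).filter (fun t => ¬ Good s k Q t)).card := by
    refine Finset.card_le_card_of_injOn (fun i => (i, φ i)) ?_ ?_
    · intro i hi
      rw [Finset.mem_coe, Finset.mem_Ico] at hi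
      obtain ⟨e1, e2, e3⟩ := hφ i hi.1 hi.2
      rw [Finset.mem_coe, Finset.mem_filter]
      refine ⟨?_, e3⟩
      unfold window
      rw [Finset.mem_product, Finset.mem_Ico, Finset.mem_Ico]
      exact ⟨⟨(show a ≤ i by omega), (show i < a + K by omega)⟩, ⟨e1, e2⟩⟩
    · intro i _ i' _ hii
      exact congrArg Prod.fst hii
  rw [hcard] at hle
  omega

theorem exists_goodRow {s : ℝ} {k : ℕ} {Q : Finset ℂ} {L K m0 : ℕ} (hW : Win s k Q L K m0) {a b j0 : ℤ}
    (ha : 0 ≤ a) (hb : 0 ≤ b) (haL : a + K ≤ L) (hbL : b + K ≤ L) (h1 : b ≤ j0) (h2 : j0 + m0 ≤ b + K) :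
    ∃ j, j0 ≤ j ∧ j < j0 + m0 ∧ GoodRow s k Q K a j := by
  classical
  by_contra hno
  push Not at hno
  have hex : ∀ j, j0 ≤ j → j < j0 + m0 → ∃ i, a ≤ i ∧ i < a + K ∧ ¬ Good s k Q (i, j) := by
    intro j hj1 hj2
    have h3 := hno j hj1 hj2
    unfold GoodRow at h3
    push Not at h3
    exact h3
  choose! φ hφ using hex
  have hwin := hW a b ha hb haL hbL
  have hcard : (Finset.Ico j0 (j0 + m0)).card = m0 := by
    rw [Int.card_Ico]
    omega
  have hle : (Finset.Ico j0 (j0 + m0)).card ≤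
      ((window K a b).filter (fun t => ¬ Good s k Q t)).card := by
    refine Finset.card_le_card_of_injOn (fun j => (φ j, j)) ?_ ?_
    · intro j hj
      rw [Finset.mem_coe, Finset.mem_Ico] at hj
      obtain ⟨e1, e2, e3⟩ := hφ j hj.1 hj.2
      rw [Finset.mem_coe, Finset.mem_filter]
      refine ⟨?_, e3⟩
      unfold window
      rw [Finset.mem_product, Finset.mem_Ico, Finset.mem_Ico]
      exact ⟨⟨e1, e2⟩, ⟨(show b ≤ j by omega), (show j < b + K by omega)⟩⟩
    · intro j _ j' _ hjj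
      exact congrArg Prod.snd hjj
  rw [hcard] at hle
  omega

end Pool.Agent.H97.KN
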