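import Pool.Agent.H97.KN.D3a

/-!
ROW D3b (MP_72793b_PR, deterministic).  All points in good rows / columns of windows are in one component.

For a valid window `(a,b)` let `Reach1 (a,b) p` say: `p ∈ Q` and `idx s p` is in the window and in a good column or row
of it.  Step 1: two such points of the same window are connected: take a good column `i` and a good row `j` of the window
(`exists_goodCol/Row` with `i0 = a`, `j0 = b`, `m0 ≤ K`), `r` a point of the good tile `(i,j)` (nonempty);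
a point in a good row meets column `i`: the tile `(i, j')` (row `j'` of the point) is good, take a point `q'` in it: it is
connected to the point (goodRow_reach) and to `r` (goodCol_reach).  Same for a point in a good column.
So every point of `Reach1 (a,b)` is connected to `r(a,b)`.
Step 2: windows `(a,b)` and `(a+1,b)`: a good column `i` of `(a,b)` with `i ≥ a+1` (`exists_goodCol` with `i0 = a+1`,
`m0 + 1 ≤ K`) is also a good column of `(a+1,b)` (the rows are the same): a point of the tile `(i,b)` is in `Reach1` of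
both windows.  So they have the same component.  Same with rows for `(a,b)`, `(a,b+1)`.
Step 3: induction (`Int.le_induction` or on `Int.toNat`): all valid windows are connected with the window `(0,0)`.
Note `(0 ≤ a, a + K ≤ L)` is preserved when going down to `0`.
-/

namespace Pool.Agent.H97.KN

open Finset MeasureTheory Pool.Agent.H77.KN

/-- the points in good rows and columns of the window `(a,b)` -/
def D3b_R (s : ℝ) (k : ℕ) (Q : Finset ℂ) (K : ℕ) (a b : ℤ) (p : ℂ) : Prop :=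
  p ∈ Q ∧ a ≤ (idx s p).1 ∧ (idx s p).1 < a + K ∧ b ≤ (idx s p).2 ∧ (idx s p).2 < b + K ∧
    (GoodCol s k Q K b (idx s p).1 ∨ GoodRow s k Q K a (idx s p).2)

theorem D3b_hub {s : ℝ} (hs : 0 < s) {k : ℕ} {Q : Finset ℂ} {K : ℕ} {a b i j : ℤ}
    (hi1 : a ≤ i) (hi2 : i < a + K) (hj1 : b ≤ j) (hj2 : j < b + K)
    (hci : GoodCol s k Q K b i) (hrj : GoodRow s k Q K a j) {r : ℂ} (hr : r ∈ Q) (hri : idx s r = (i, j))
    {p : ℂ} (hp : D3b_R s k Q K a b p) : (knn k Q).Reachable p r := by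
  obtain ⟨hpQ, h1, h2, h3, h4, h5⟩ := hp
  have hr1 : (idx s r).1 = i := by rw [hri]
  have hr2 : (idx s r).2 = j := by rw [hri]
  rcases h5 with h5 | h5
  · obtain ⟨q', hq', hqi⟩ := D3a_point (hrj _ h1 h2)
    have hq1 : (idx s q').1 = (idx s p).1 := by rw [hqi]
    have hq2 : (idx s q').2 = j := by rw [hqi]
    have e1 := goodCol_reach hs h5 hpQ hq' rfl hq1 h3 h4 (by omega) (by omega)
    have e2 := goodRow_reach hs hrj hq' hr hq2 hr2 (by omega) (by omega) (by omega) (by omega)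
    exact e1.trans e2
  · obtain ⟨q', hq', hqi⟩ := D3a_point (hci _ h3 h4)
    have hq1 : (idx s q').1 = i := by rw [hqi]
    have hq2 : (idx s q').2 = (idx s p).2 := by rw [hqi]
    have e1 := goodRow_reach hs h5 hpQ hq' rfl hq2 h1 h2 (by omega) (by omega)
    have e2 := goodCol_reach hs hci hq' hr hq1 hr1 (by omega) (by omega) (by omega) (by omega)
    exact e1.trans e2

theorem D3b_win {s : ℝ} (hs : 0 < s) {k : ℕ} {Q : Finset ℂ} {L K m0 : ℕ} (hW : Win s k Q L K m0)
    (hK : m0 + 1 ≤ K) {a b : ℤ} (ha : 0 ≤ a) (hb : 0 ≤ b) (haL : a + K ≤ L) (hbL : b + K ≤ L) {p q : ℂ}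
    (hp : D3b_R s k Q K a b p) (hq : D3b_R s k Q K a b q) : (knn k Q).Reachable p q := by
  obtain ⟨i, hi1, hi2, hci⟩ := exists_goodCol hW ha hb haL hbL (le_refl a) (by omega)
  obtain ⟨j, hj1, hj2, hrj⟩ := exists_goodRow hW ha hb haL hbL (le_refl b) (by omega)
  obtain ⟨r, hr, hri⟩ := D3a_point (hci j hj1 (by omega))
  have e1 := D3b_hub hs hi1 (by omega) hj1 (by omega) hci hrj hr hri hp
  have e2 := D3b_hub hs hi1 (by omega) hj1 (by omega) hci hrj hr hri hq
  exact e1.trans e2.symm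

theorem D3b_stepA {s : ℝ} {k : ℕ} {Q : Finset ℂ} {L K m0 : ℕ} (hW : Win s k Q L K m0)
    (hK : m0 + 1 ≤ K) {a b : ℤ} (ha : 0 ≤ a) (hb : 0 ≤ b) (haL : a + K ≤ L) (hbL : b + K ≤ L) :
    ∃ p, D3b_R s k Q K a b p ∧ D3b_R s k Q K (a + 1) b p := by
  obtain ⟨i, hi1, hi2, hci⟩ := exists_goodCol (i0 := a + 1) hW ha hb haL hbL (by omega) (by omega)
  obtain ⟨p, hp, hpi⟩ := D3a_point (hci b le_rfl (by omega))
  have h1 : (idx s p).1 = i := by rw [hpi]
  have h2 : (idx s p).2 = b := by rw [hpi]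
  have hc : GoodCol s k Q K b (idx s p).1 := by rw [h1]; exact hci
  exact ⟨p, ⟨hp, by omega, by omega, by omega, by omega, Or.inl hc⟩,
    ⟨hp, by omega, by omega, by omega, by omega, Or.inl hc⟩⟩

theorem D3b_stepB {s : ℝ} {k : ℕ} {Q : Finset ℂ} {L K m0 : ℕ} (hW : Win s k Q L K m0)
    (hK : m0 + 1 ≤ K) {a b : ℤ} (ha : 0 ≤ a) (hb : 0 ≤ b) (haL : a + K ≤ L) (hbL : b + K ≤ L) :
    ∃ p, D3b_R s k Q K a b p ∧ D3b_R s k Q K a (b + 1) p := by
  obtain ⟨j, hj1, hj2, hrj⟩ := exists_goodRow (j0 := b + 1) hW ha hb haL hbL (by omega) (by omega)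
  obtain ⟨p, hp, hpi⟩ := D3a_point (hrj a le_rfl (by omega))
  have h1 : (idx s p).1 = a := by rw [hpi]
  have h2 : (idx s p).2 = j := by rw [hpi]
  have hc : GoodRow s k Q K a (idx s p).2 := by rw [h2]; exact hrj
  exact ⟨p, ⟨hp, by omega, by omega, by omega, by omega, Or.inr hc⟩,
    ⟨hp, by omega, by omega, by omega, by omega, Or.inr hc⟩⟩

theorem D3b_ind {s : ℝ} (hs : 0 < s) {k : ℕ} {Q : Finset ℂ} {L K m0 : ℕ} (hW : Win s k Q L K m0)
    (hK : m0 + 1 ≤ K) {w : ℂ} (hw : D3b_R s k Q K 0 0 w) (n : ℕ) :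
    ∀ a b : ℤ, 0 ≤ a → 0 ≤ b → a + K ≤ L → b + K ≤ L → a + b = n → ∀ p, D3b_R s k Q K a b p →
      (knn k Q).Reachable p w := by
  induction n with
  | zero =>
    intro a b ha hb haL hbL hab p hp
    have e1 : a = 0 := by push_cast at hab; omega
    have e2 : b = 0 := by push_cast at hab; omega
    subst e1
    subst e2
    exact D3b_win hs hW hK ha hb haL hbL hp hw
  | succ n ih =>
    intro a b ha hb haL hbL hab p hp
    push_cast at hab
    by_cases h0 : a = 0
    · obtain ⟨p', h1, h2⟩ := D3b_stepB hW hK (a := a) (b := b - 1) ha (by omega) haL (by omega)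
      rw [sub_add_cancel] at h2
      exact (D3b_win hs hW hK ha hb haL hbL hp h2).trans
        (ih a (b - 1) ha (by omega) haL (by omega) (by omega) p' h1)
    · obtain ⟨p', h1, h2⟩ := D3b_stepA hW hK (a := a - 1) (b := b) (by omega) hb (by omega) hbL
      rw [sub_add_cancel] at h2
      exact (D3b_win hs hW hK ha hb haL hbL hp h2).trans
        (ih (a - 1) b (by omega) hb (by omega) hbL (by omega) p' h1)

theorem inG_reach {s : ℝ} (hs : 0 < s) {k : ℕ} {Q : Finset ℂ} {L K m0 : ℕ} (hW : Win s k Q L K m0)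
    (hK : m0 + 1 ≤ K) {p q : ℂ} (hp : p ∈ Q) (hq : q ∈ Q) (hpG : InG s k Q L K (idx s p))
    (hqG : InG s k Q L K (idx s q)) : (knn k Q).Reachable p q := by
  obtain ⟨a, b, ha, hb, haL, hbL, h1, h2, h3, h4, h5⟩ := hpG
  obtain ⟨a', b', ha', hb', haL', hbL', h1', h2', h3', h4', h5'⟩ := hqG
  have hKL : (0 : ℤ) + K ≤ L := by omega
  obtain ⟨w, hw, _⟩ := D3b_stepA hW hK (le_refl (0 : ℤ)) (le_refl (0 : ℤ)) hKL hKL
  have e1 := D3b_ind hs hW hK hw (a + b).toNat a b ha hb haL hbL (by omega) p ⟨hp, h1, h2, h3, h4, h5⟩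
  have e2 := D3b_ind hs hW hK hw (a' + b').toNat a' b' ha' hb' haL' hbL' (by omega) q
    ⟨hq, h1', h2', h3', h4', h5'⟩
  exact e1.trans e2.symm

end Pool.Agent.H97.KN
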