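import Pool.Agent.H97.KN.D3a

/-!
ROW D3c (MP_72793b_PR, deterministic).  There is a point in a good row or column: there is a window (`K ≤ L`), a good
column of it (`exists_goodCol`, `i0 = 0`, `m0 ≤ K`), its tile `(i,0)` is good, so nonempty.
-/

namespace Pool.Agent.H97.KN

open Finset MeasureTheory Pool.Agent.H77.KN

theorem exists_inG {s : ℝ} {k : ℕ} {Q : Finset ℂ} {L K m0 : ℕ} (hW : Win s k Q L K m0)
    (hK : m0 + 1 ≤ K) (hKL : K ≤ L) : ∃ g ∈ Q, InG s k Q L K (idx s g) := by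
  have hKL' : (K : ℤ) ≤ L := by exact_mod_cast hKL
  have hK' : (m0 : ℤ) + 1 ≤ K := by exact_mod_cast hK
  obtain ⟨i, hi1, hi2, hgood⟩ := exists_goodCol (a := 0) (b := 0) (i0 := 0) hW le_rfl le_rfl (by linarith)
    (by linarith) le_rfl (by linarith)
  have hg := hgood 0 le_rfl (by linarith)
  have h1 : 0 < cnt s Q (i, 0) := hg.1
  obtain ⟨g, hgm⟩ := Finset.card_pos.1 h1
  rw [Finset.mem_filter] at hgm
  refine ⟨g, hgm.1, ?_⟩
  rw [hgm.2]
  exact ⟨0, 0, le_rfl, le_rfl, by linarith, by linarith, hi1, by linarith, le_rfl, by linarith, Or.inl hgood⟩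

end Pool.Agent.H97.KN
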