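import Pool.Agent.H97.KN.Defs

/-!
ROW D4a (MP_72793b_PR, pure geometry).  A segment that leaves a rectangle does so through one of the sides.

Proof: `f t = z + t (z' - z)`.  For each of the four violated/possible constraints define the exit time; or:
let `T = {t ∈ [0,1] : f t ∈ closed rectangle}`, compact, contains `0`; `t* = max T`.  `t* < 1` as `f 1 = z'` is outside.
If at `t*` all four inequalities were strict, or the tight ones were not violated later, then `t* + δ ∈ T`.
Simplest: the four functions `re f - x1, x2 - re f, im f - y1, y2 - im f` are affine in `t` and `> 0` at `t = 0`.  Those which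
are `< 0` at `t = 1` (there is one) have a zero `t_i = g_i(0)/(g_i(0) - g_i(1)) ∈ (0,1)`; take the smallest zero `t*`
(finite minimum): at `t*` every affine function `g_i` is `≥ 0` (if `g_i(1) ≥ 0` by convexity; if `g_i(1) < 0` because
`t* ≤ t_i` and `g_i` is decreasing), and the one attaining the minimum is `0` and is negative at `1`.
-/

namespace Pool.Agent.H97.KN

open Finset MeasureTheory Pool.Agent.H77.KN

theorem D4a_min {ι : Type*} [Fintype ι] (a b : ι → ℝ) (ha : ∀ i, 0 < a i) (hb : ∃ i, b i < 0) :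
    ∃ t : ℝ, 0 ≤ t ∧ t ≤ 1 ∧ (∀ i, 0 ≤ a i + t * (b i - a i)) ∧ ∃ i, b i < 0 ∧ a i + t * (b i - a i) = 0 := by
  classical
  obtain ⟨j, hj⟩ := hb
  have hne : (univ.filter (fun i => b i < 0)).Nonempty := ⟨j, by simp [hj]⟩
  obtain ⟨k, hk, hmin⟩ := Finset.exists_min_image _ (fun i => a i / (a i - b i)) hne
  have hkb : b k < 0 := by simpa using hk
  have hd : 0 < a k - b k := by linarith [ha k]
  have ht0 : 0 ≤ a k / (a k - b k) := div_nonneg (ha k).le hd.le
  have ht1 : a k / (a k - b k) ≤ 1 := by rw [div_le_one hd]; linarith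
  refine ⟨a k / (a k - b k), ht0, ht1, ?_, k, hkb, ?_⟩
  · intro i
    by_cases hi : b i < 0
    · have h := hmin i (by simp [hi])
      have hdi : 0 < a i - b i := by linarith [ha i]
      have h' : a k / (a k - b k) * (a i - b i) ≤ a i := by
        have := mul_le_mul_of_nonneg_right h hdi.le
        simpa [div_mul_cancel₀ _ hdi.ne'] using this
      linarith
    · have hbi : 0 ≤ b i := not_lt.mp hi
      have h1 : 0 ≤ (1 - a k / (a k - b k)) * a i := mul_nonneg (by linarith) (ha i).le
      have h2 : 0 ≤ a k / (a k - b k) * b i := mul_nonneg ht0 hbi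
      linarith
  · have h' : a k / (a k - b k) * (a k - b k) = a k := div_mul_cancel₀ _ hd.ne'
    linarith

theorem exit_rect {x1 x2 y1 y2 : ℝ} {z z' : ℂ} (hz : x1 < z.re ∧ z.re < x2 ∧ y1 < z.im ∧ z.im < y2)
    (hz' : ¬ (x1 ≤ z'.re ∧ z'.re ≤ x2 ∧ y1 ≤ z'.im ∧ z'.im ≤ y2)) :
    ∃ x ∈ segment ℝ z z', x1 ≤ x.re ∧ x.re ≤ x2 ∧ y1 ≤ x.im ∧ x.im ≤ y2 ∧
      ((x.re = x1 ∧ z'.re < x1) ∨ (x.re = x2 ∧ x2 < z'.re) ∨ (x.im = y1 ∧ z'.im < y1) ∨ (x.im = y2 ∧ y2 < z'.im)) := by
  obtain ⟨h1, h2, h3, h4⟩ := hz
  have key := D4a_min (ι := Fin 4) ![z.re - x1, x2 - z.re, z.im - y1, y2 - z.im]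
    ![z'.re - x1, x2 - z'.re, z'.im - y1, y2 - z'.im]
    (by
      intro i
      fin_cases i
      · simpa using h1
      · simpa using h2
      · simpa using h3
      · simpa using h4)
    (by
      by_contra hcon
      push Not at hcon
      apply hz'
      have e0 := hcon 0
      have e1 := hcon 1
      have e2 := hcon 2
      have e3 := hcon 3
      simp at e0 e1 e2 e3
      exact ⟨e0, e1, e2, e3⟩)
  obtain ⟨t, ht0, ht1, hall, i, hib, hi⟩ := key
  have e0 := hall 0
  have e1 := hall 1
  have e2 := hall 2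
  have e3 := hall 3
  simp at e0 e1 e2 e3
  have hre : (z + (t : ℂ) * (z' - z)).re = z.re + t * (z'.re - z.re) := by simp
  have him : (z + (t : ℂ) * (z' - z)).im = z.im + t * (z'.im - z.im) := by simp
  refine ⟨z + (t : ℂ) * (z' - z), ?_, ?_, ?_, ?_, ?_, ?_⟩
  · rw [segment_eq_image']
    exact ⟨t, ⟨ht0, ht1⟩, by simp⟩
  · rw [hre]; nlinarith
  · rw [hre]; nlinarith
  · rw [him]; nlinarith
  · rw [him]; nlinarith
  · rw [hre, him]
    fin_cases i
    · left
      simp at hib hi
      exact ⟨by linarith, by linarith⟩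
    · right; left
      simp at hib hi
      exact ⟨by linarith, by linarith⟩
    · right; right; left
      simp at hib hi
      exact ⟨by linarith, by linarith⟩
    · right; right; right
      simp at hib hi
      exact ⟨by linarith, by linarith⟩

end Pool.Agent.H97.KN
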