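import Pool.Agent.H97.KN.D2
import Pool.Agent.H97.KN.D3b
import Pool.Agent.H97.KN.D4a

/-!
ROW D4 (MP_72793b_PR, deterministic).  A component different from the giant one stays in a block of radius `m0`.

Write `(i0,j0) = idx s c`; `0 ≤ i0 < L` etc. from `Inside`.  Choose a window containing it: `a = max 0 (min (i0 - m0) (L - K))`,
i.e. any `a` with `0 ≤ a`, `a + K ≤ L` and (`a = 0` or `a ≤ i0 - m0`), (`a + K = L` or `i0 + m0 + 1 ≤ a + K`), and such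
that `i0 - m0 ≥ 0 → a ≤ i0 - m0`, `i0 + m0 + 1 ≤ L → i0 + m0 + 1 ≤ a + K` (possible as `2 m0 + 1 ≤ K ≤ L`).  Same for `b`.
Frame: `x1` = a good column in `[i0 - m0, i0)` if `m0 ≤ i0`, and `x1 = -1` otherwise; `x2` = a good column in
`[i0+1, i0+1+m0)` if `i0 + m0 + 1 ≤ L`, and `x2 = L` otherwise; `y1, y2` the same with rows.  So
`i0 - m0 - 1 < x1 + 1 ≤ i0`, `i0 < x2 ≤ i0 + m0`... in every case `x1 ≥ i0 - m0` (`x1 = -1` and `i0 < m0`) and
`x2 ≤ i0 + m0`.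
Claim: every `z` reachable from `c` has `x1 < (idx z).1 < x2`, `y1 < (idx z).2 < y2`.  Induction along the walk
(`SimpleGraph.Reachable`/`Walk` or `Relation.ReflTransGen`); step `z ~ z'`, `z` inside, suppose `z'` is not.  Apply `exit_rect` with the
rectangle `[(x1+1) s, x2 s] x [(y1+1) s, y2 s]` (`z` is strictly inside because it is on no grid line; `z'` is outside:
`idx z'` is outside and `z'` is on no grid line).  The exit point `x` is on a side, e.g. `x.re = (x1+1) s`, `z'.re < (x1+1) s`.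
Then `x1 ≠ -1` (`0 < z'.re`), so column `x1` is good on `[b,b+K)`; choose `j` with `x.im ∈ [j s, (j+1) s]`,
`y1 + 1 ≤ j ≤ y2 - 1` (so `b ≤ j < b + K`, because `y1 + 1 ≥ b`, `y2 ≤ b + K`), then `x ∈ tile s (x1, j)`, this tile is good;
`p` = a point of `Q` in it (nonempty); `crossing` gives `Reachable p z`; `p` is in `InG`, so by `inG_reach`
`Reachable g p`, so `Reachable g c`, contradiction.
-/

namespace Pool.Agent.H97.KN

open Finset MeasureTheory Pool.Agent.H77.KN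

theorem D4_win (L K m0 : ℕ) (hK : 2 * m0 + 2 ≤ K) (hKL : K ≤ L) (i0 : ℤ) (h0 : 0 ≤ i0)
    (hL : i0 < L) : ∃ a : ℤ, 0 ≤ a ∧ a + K ≤ L ∧ ((m0 : ℤ) ≤ i0 → a ≤ i0 - m0) ∧
      (i0 < m0 → a = 0) ∧ (i0 + m0 + 1 ≤ L → i0 + m0 + 1 ≤ a + K) ∧
      ((L : ℤ) < i0 + m0 + 1 → a + K = L) := by
  refine ⟨max 0 (min (i0 - m0) (L - K)), by omega, by omega, by omega, by omega, by omega,
    by omega⟩

theorem D4_frame (L K m0 : ℕ) (i0 a : ℤ) (h0 : 0 ≤ i0) (hL : i0 < L)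
    (ha : 0 ≤ a) (haL : a + K ≤ L) (h1 : (m0 : ℤ) ≤ i0 → a ≤ i0 - m0)
    (h2 : i0 < m0 → a = 0) (h3 : i0 + m0 + 1 ≤ L → i0 + m0 + 1 ≤ a + K)
    (h4 : (L : ℤ) < i0 + m0 + 1 → a + K = L) (GC : ℤ → Prop)
    (hex : ∀ i' : ℤ, a ≤ i' → i' + m0 ≤ a + K → ∃ i, i' ≤ i ∧ i < i' + m0 ∧ GC i) :
    ∃ x1 x2 : ℤ, i0 - m0 ≤ x1 ∧ x1 < i0 ∧ i0 < x2 ∧ x2 ≤ i0 + m0 ∧ a ≤ x1 + 1 ∧ x2 ≤ a + K ∧
      (x1 = -1 ∨ (a ≤ x1 ∧ x1 < a + K ∧ GC x1)) ∧ (x2 = L ∨ (a ≤ x2 ∧ x2 < a + K ∧ GC x2)) := by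
  have hx1 : ∃ x1 : ℤ, i0 - m0 ≤ x1 ∧ x1 < i0 ∧ a ≤ x1 + 1 ∧
      (x1 = -1 ∨ (a ≤ x1 ∧ x1 < a + K ∧ GC x1)) := by
    by_cases h : (m0 : ℤ) ≤ i0
    · obtain ⟨i, hi1, hi2, hi3⟩ := hex (i0 - m0) (h1 h) (by omega)
      have := h1 h
      exact ⟨i, hi1, by omega, by omega, Or.inr ⟨by omega, by omega, hi3⟩⟩
    · have := h2 (by omega)
      exact ⟨-1, by omega, by omega, by omega, Or.inl rfl⟩
  have hx2 : ∃ x2 : ℤ, i0 < x2 ∧ x2 ≤ i0 + m0 ∧ x2 ≤ a + K ∧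
      (x2 = L ∨ (a ≤ x2 ∧ x2 < a + K ∧ GC x2)) := by
    by_cases h : i0 + m0 + 1 ≤ L
    · have h5 := h3 h
      have h6 : a ≤ i0 + 1 := by
        by_cases h' : (m0 : ℤ) ≤ i0
        · have := h1 h'
          omega
        · have := h2 (by omega)
          omega
      obtain ⟨i, hi1, hi2, hi3⟩ := hex (i0 + 1) h6 (by omega)
      exact ⟨i, by omega, by omega, by omega, Or.inr ⟨by omega, by omega, hi3⟩⟩
    · have := h4 (by omega)
      exact ⟨L, by omega, by omega, by omega, Or.inl rfl⟩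
  obtain ⟨x1, a1, a2, a3, a4⟩ := hx1
  obtain ⟨x2, b1, b2, b3, b4⟩ := hx2
  exact ⟨x1, x2, a1, a2, b1, b2, a3, b3, a4, b4⟩

theorem D4_pick {s : ℝ} (hs : 0 < s) (lo hi : ℤ) (hlt : lo < hi) (v : ℝ) (h1 : lo * s ≤ v)
    (h2 : v ≤ hi * s) : ∃ j : ℤ, lo ≤ j ∧ j < hi ∧ j * s ≤ v ∧ v ≤ (j + 1) * s := by
  by_cases h : ⌊v / s⌋ < hi
  · refine ⟨⌊v / s⌋, ?_, h, ?_, ?_⟩
    · rw [Int.le_floor, le_div_iff₀ hs]
      exact h1
    · rw [← le_div_iff₀ hs]
      exact Int.floor_le _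
    · rw [← div_le_iff₀ hs]
      exact (Int.lt_floor_add_one _).le
  · push Not at h
    rw [Int.le_floor, le_div_iff₀ hs] at h
    refine ⟨hi - 1, by omega, by omega, ?_, ?_⟩
    · push_cast
      nlinarith
    · push_cast
      linarith

theorem D4_hit {s : ℝ} (hs : 0 < s) {k : ℕ} {Q : Finset ℂ} {L K m0 : ℕ} (hW : Win s k Q L K m0)
    (hK : 2 * m0 + 2 ≤ K) {g : ℂ} (hg : g ∈ Q) (hgG : InG s k Q L K (idx s g))
    {t : ℤ × ℤ} (ht : Good s k Q t) (htG : InG s k Q L K t) {z z' x : ℂ}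
    (hadj : (knn k Q).Adj z z') (hx : x ∈ segment ℝ z z') (hxt : x ∈ tile s t) :
    (knn k Q).Reachable g z := by
  have h1 : 0 < (Q.filter (fun z => idx s z = t)).card := ht.1
  obtain ⟨p, hp⟩ := Finset.card_pos.1 h1
  rw [Finset.mem_filter] at hp
  have h2 := crossing hs ht hadj hx hxt hp.1 hp.2
  have h3 := inG_reach hs hW (by omega) hg hp.1 hgG (by rw [hp.2]; exact htG)
  exact h3.trans h2

/-- inside a rectangle in terms of the index -/
theorem D4_in {s : ℝ} (hs : 0 < s) (x1 x2 : ℤ) (v : ℝ) (hv : ∀ m : ℤ, v ≠ m * s) :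
    (x1 < ⌊v / s⌋ ∧ ⌊v / s⌋ < x2) ↔ (((x1 + 1 : ℤ) : ℝ) * s < v ∧ v < (x2 : ℝ) * s) := by
  constructor
  · rintro ⟨h1, h2⟩
    constructor
    · have h3 : x1 + 1 ≤ ⌊v / s⌋ := by omega
      rw [Int.le_floor, le_div_iff₀ hs] at h3
      exact lt_of_le_of_ne h3 (Ne.symm (hv _))
    · rw [Int.floor_lt, div_lt_iff₀ hs] at h2
      exact h2
  · rintro ⟨h1, h2⟩
    constructor
    · have h3 : x1 + 1 ≤ ⌊v / s⌋ := by
        rw [Int.le_floor, le_div_iff₀ hs]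
        exact h1.le
      omega
    · rw [Int.floor_lt, div_lt_iff₀ hs]
      exact h2

theorem comp_in_block {s : ℝ} (hs : 0 < s) {k : ℕ} {Q : Finset ℂ} {L K m0 : ℕ} (hW : Win s k Q L K m0)
    (hin : Inside s L Q) (hK : 2 * m0 + 2 ≤ K) (hKL : K ≤ L) {g c : ℂ} (hg : g ∈ Q)
    (hgG : InG s k Q L K (idx s g)) (hc : c ∈ Q) (hcg : ¬ (knn k Q).Reachable g c) {z : ℂ}
    (hcz : (knn k Q).Reachable c z) :
    |(idx s z).1 - (idx s c).1| ≤ m0 ∧ |(idx s z).2 - (idx s c).2| ≤ m0 := by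
  have hbox : ∀ z ∈ Q, 0 ≤ (idx s z).1 ∧ (idx s z).1 < L ∧ 0 ≤ (idx s z).2 ∧ (idx s z).2 < L := by
    intro z hz
    obtain ⟨-, h1, h2, h3, h4⟩ := hin z hz
    refine ⟨Int.floor_nonneg.2 (div_nonneg h1.le hs.le), ?_,
      Int.floor_nonneg.2 (div_nonneg h3.le hs.le), ?_⟩
    · change ⌊z.re / s⌋ < (L : ℤ)
      rw [Int.floor_lt, div_lt_iff₀ hs]
      exact_mod_cast h2
    · change ⌊z.im / s⌋ < (L : ℤ)
      rw [Int.floor_lt, div_lt_iff₀ hs]
      exact_mod_cast h4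
  obtain ⟨ci0, ciL, cj0, cjL⟩ := hbox c hc
  obtain ⟨a, ha, haL, ha1, ha2, ha3, ha4⟩ := D4_win L K m0 hK hKL _ ci0 ciL
  obtain ⟨b, hb, hbL, hb1, hb2, hb3, hb4⟩ := D4_win L K m0 hK hKL _ cj0 cjL
  obtain ⟨x1, x2, p1, p2, p3, p4, p5, p6, p7, p8⟩ := D4_frame L K m0 _ a ci0 ciL ha haL ha1 ha2
    ha3 ha4 (GoodCol s k Q K b) (fun i' h1 h2 => exists_goodCol hW ha hb haL hbL h1 h2)
  obtain ⟨y1, y2, q1, q2, q3, q4, q5, q6, q7, q8⟩ := D4_frame L K m0 _ b cj0 cjL hb hbL hb1 hb2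
    hb3 hb4 (GoodRow s k Q K a) (fun i' h1 h2 => exists_goodRow hW ha hb haL hbL h1 h2)
  have key : x1 < (idx s z).1 ∧ (idx s z).1 < x2 ∧ y1 < (idx s z).2 ∧ (idx s z).2 < y2 := by
    rw [SimpleGraph.reachable_iff_reflTransGen] at hcz
    induction hcz with
    | refl => exact ⟨p2, p3, q2, q3⟩
    | @tail z z' hab hadj ih =>
      rw [← SimpleGraph.reachable_iff_reflTransGen] at hab
      have hzQ : z ∈ Q := hadj.1
      have hz'Q : z' ∈ Q := hadj.2.1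
      obtain ⟨nz, -⟩ := hin z hzQ
      obtain ⟨nz', r1, r2, r3, r4⟩ := hin z' hz'Q
      by_contra hcon
      have hno : ¬ (knn k Q).Reachable g z := fun h => hcg (h.trans hab.symm)
      have hz1 := (D4_in hs x1 x2 z.re (fun m => (nz m).1)).1 ⟨ih.1, ih.2.1⟩
      have hz2 := (D4_in hs y1 y2 z.im (fun m => (nz m).2)).1 ⟨ih.2.2.1, ih.2.2.2⟩
      have hz' : ¬ ((((x1 + 1 : ℤ) : ℝ) * s ≤ z'.re ∧ z'.re ≤ (x2 : ℝ) * s ∧
          ((y1 + 1 : ℤ) : ℝ) * s ≤ z'.im ∧ z'.im ≤ (y2 : ℝ) * s)) := by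
        rintro ⟨h1, h2, h3, h4⟩
        apply hcon
        have h5 := (D4_in hs x1 x2 z'.re (fun m => (nz' m).1)).2
          ⟨lt_of_le_of_ne h1 (Ne.symm (nz' _).1), lt_of_le_of_ne h2 (nz' _).1⟩
        have h6 := (D4_in hs y1 y2 z'.im (fun m => (nz' m).2)).2
          ⟨lt_of_le_of_ne h3 (Ne.symm (nz' _).2), lt_of_le_of_ne h4 (nz' _).2⟩
        exact ⟨h5.1, h5.2, h6.1, h6.2⟩
      obtain ⟨x, hx, c1, c2, c3, c4, hside⟩ := exit_rect ⟨hz1.1, hz1.2, hz2.1, hz2.2⟩ hz'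
      obtain ⟨j, j1, j2, j3, j4⟩ := D4_pick hs (y1 + 1) y2 (by omega) x.im c3 c4
      obtain ⟨i, i1, i2, i3, i4⟩ := D4_pick hs (x1 + 1) x2 (by omega) x.re c1 c2
      rcases hside with ⟨e1, e2⟩ | ⟨e1, e2⟩ | ⟨e1, e2⟩ | ⟨e1, e2⟩
      · rcases p7 with h | ⟨h1, h2, h3⟩
        · rw [h] at e2
          push_cast at e2
          linarith
        · refine hno (D4_hit hs hW hK hg hgG (t := (x1, j)) (h3 j (by omega) (by omega))
            ⟨a, b, ha, hb, haL, hbL, h1, h2, by change b ≤ j; omega, by change j < b + K; omega,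
              Or.inl h3⟩ hadj hx ?_)
          push_cast at e1
          refine ⟨?_, ?_, j3, j4⟩
          · change (x1 : ℝ) * s ≤ x.re
            rw [e1]
            linarith
          · change x.re ≤ ((x1 : ℝ) + 1) * s
            rw [e1]
      · rcases p8 with h | ⟨h1, h2, h3⟩
        · rw [h] at e2
          push_cast at e2
          linarith
        · refine hno (D4_hit hs hW hK hg hgG (t := (x2, j)) (h3 j (by omega) (by omega))
            ⟨a, b, ha, hb, haL, hbL, h1, h2, by change b ≤ j; omega, by change j < b + K; omega,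
              Or.inl h3⟩ hadj hx ?_)
          refine ⟨?_, ?_, j3, j4⟩
          · change (x2 : ℝ) * s ≤ x.re
            rw [e1]
          · change x.re ≤ ((x2 : ℝ) + 1) * s
            rw [e1]
            linarith
      · rcases q7 with h | ⟨h1, h2, h3⟩
        · rw [h] at e2
          push_cast at e2
          linarith
        · refine hno (D4_hit hs hW hK hg hgG (t := (i, y1)) (h3 i (by omega) (by omega))
            ⟨a, b, ha, hb, haL, hbL, by change a ≤ i; omega, by change i < a + K; omega, h1, h2,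
              Or.inr h3⟩ hadj hx ?_)
          push_cast at e1
          refine ⟨i3, i4, ?_, ?_⟩
          · change (y1 : ℝ) * s ≤ x.im
            rw [e1]
            linarith
          · change x.im ≤ ((y1 : ℝ) + 1) * s
            rw [e1]
      · rcases q8 with h | ⟨h1, h2, h3⟩
        · rw [h] at e2
          push_cast at e2
          linarith
        · refine hno (D4_hit hs hW hK hg hgG (t := (i, y2)) (h3 i (by omega) (by omega))
            ⟨a, b, ha, hb, haL, hbL, by change a ≤ i; omega, by change i < a + K; omega, h1, h2,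
              Or.inr h3⟩ hadj hx ?_)
          refine ⟨i3, i4, ?_, ?_⟩
          · change (y2 : ℝ) * s ≤ x.im
            rw [e1]
          · change x.im ≤ ((y2 : ℝ) + 1) * s
            rw [e1]
            linarith
  obtain ⟨k1, k2, k3, k4⟩ := key
  constructor <;> rw [abs_le] <;> constructor <;> omega

end Pool.Agent.H97.KN
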