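import Pool.Agent.H97.KN.Defs

/-!
ROW D5 (MP_72793b_PR, deterministic counting).  Few points lie outside the good rows / columns.

Let `q = L / K ≥ 1` (natural division), windows `a ∈ {0, K, ..., (q-1) K} ∪ {L - K}`: `q + 1` positions, every
`x ∈ [0,L)` is in one of them (`x < q K`: `a = (x / K) K`; otherwise `x ≥ q K > L - K`: `a = L - K`).
`(q + 1) K ≤ 2 L`.  In a window the non good columns are `< m0` in number (at most `m0`; each contains a bad tile,
distinct), the same for the rows; a tile of the window that is not `InG` is in a non good column and in a non good row: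
at most `m0 ^ 2` tiles, each with at most `k` points.  Total
`≤ (q+1)^2 m0^2 k` and multiply by `K^2`.
(The number of points `z ∈ Q` with `¬ InG (idx z)` is at most `∑_{windows} ∑_{t not InG in window} cnt t`.)
-/

namespace Pool.Agent.H97.KN

open Finset MeasureTheory Pool.Agent.H77.KN

open Classical in
theorem d5_win {s : ℝ} {k : ℕ} {Q : Finset ℂ} {L K m0 : ℕ} (hW : Win s k Q L K m0)
    {a b : ℤ} (ha : 0 ≤ a) (hb : 0 ≤ b) (haL : a + K ≤ L) (hbL : b + K ≤ L) :
    ((window K a b).filter (fun t => ¬ InG s k Q L K t)).card ≤ m0 * m0 := by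
  have hbad := hW a b ha hb haL hbL
  have hsub : (window K a b).filter (fun t => ¬ InG s k Q L K t) ⊆
      (((window K a b).filter (fun t => ¬ Good s k Q t)).image Prod.fst) ×ˢ
        (((window K a b).filter (fun t => ¬ Good s k Q t)).image Prod.snd) := by
    intro t ht
    rw [Finset.mem_filter] at ht
    obtain ⟨htw, htG⟩ := ht
    have hw := htw
    unfold window at hw
    rw [Finset.mem_product, Finset.mem_Ico, Finset.mem_Ico] at hw
    obtain ⟨⟨h1, h2⟩, h3, h4⟩ := hw
    rw [Finset.mem_product]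
    constructor
    · have hc : ¬ GoodCol s k Q K b t.1 := fun hc =>
        htG ⟨a, b, ha, hb, haL, hbL, h1, h2, h3, h4, Or.inl hc⟩
      unfold GoodCol at hc
      push Not at hc
      obtain ⟨j, hj1, hj2, hj3⟩ := hc
      rw [Finset.mem_image]
      refine ⟨(t.1, j), ?_, rfl⟩
      rw [Finset.mem_filter]
      refine ⟨?_, hj3⟩
      unfold window
      rw [Finset.mem_product, Finset.mem_Ico, Finset.mem_Ico]
      exact ⟨⟨h1, h2⟩, hj1, hj2⟩
    · have hc : ¬ GoodRow s k Q K a t.2 := fun hc =>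
        htG ⟨a, b, ha, hb, haL, hbL, h1, h2, h3, h4, Or.inr hc⟩
      unfold GoodRow at hc
      push Not at hc
      obtain ⟨j, hj1, hj2, hj3⟩ := hc
      rw [Finset.mem_image]
      refine ⟨(j, t.2), ?_, rfl⟩
      rw [Finset.mem_filter]
      refine ⟨?_, hj3⟩
      unfold window
      rw [Finset.mem_product, Finset.mem_Ico, Finset.mem_Ico]
      exact ⟨⟨hj1, hj2⟩, h3, h4⟩
  refine (Finset.card_le_card hsub).trans ?_
  rw [Finset.card_product]
  exact Nat.mul_le_mul (Finset.card_image_le.trans hbad.le) (Finset.card_image_le.trans hbad.le)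

theorem d5_pos {L K : ℕ} (hK : 0 < K) (hKL : K ≤ L) :
    ∃ Pos : Finset ℤ, Pos.card * K ≤ 2 * L ∧ (∀ a ∈ Pos, 0 ≤ a ∧ a + K ≤ L) ∧
      ∀ x : ℤ, 0 ≤ x → x < L → ∃ a ∈ Pos, a ≤ x ∧ x < a + K := by
  refine ⟨insert ((L : ℤ) - K) ((Finset.range (L / K)).image fun i : ℕ => ((i * K : ℕ) : ℤ)),
    ?_, ?_, ?_⟩
  · have h1 : (insert ((L : ℤ) - K)
        ((Finset.range (L / K)).image fun i : ℕ => ((i * K : ℕ) : ℤ))).card ≤ L / K + 1 := by
      refine (Finset.card_insert_le _ _).trans ?_
      have := Finset.card_image_le (s := Finset.range (L / K))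
        (f := fun i : ℕ => ((i * K : ℕ) : ℤ))
      rw [Finset.card_range] at this
      omega
    calc _ ≤ (L / K + 1) * K := Nat.mul_le_mul_right _ h1
      _ = L / K * K + K := by ring
      _ ≤ L + K := Nat.add_le_add_right (Nat.div_mul_le_self L K) _
      _ ≤ 2 * L := by omega
  · intro a ha
    rw [Finset.mem_insert, Finset.mem_image] at ha
    rcases ha with rfl | ⟨i, hi, rfl⟩
    · constructor <;> omega
    · rw [Finset.mem_range] at hi
      have h1 : (i + 1) * K ≤ L / K * K := Nat.mul_le_mul_right _ hi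
      have h2 := Nat.div_mul_le_self L K
      have h3 : (i + 1) * K = i * K + K := by ring
      constructor <;> omega
  · intro x hx0 hxL
    obtain ⟨n, rfl⟩ := Int.eq_ofNat_of_zero_le hx0
    have hn : n < L := by omega
    by_cases h : n < L / K * K
    · refine ⟨((n / K * K : ℕ) : ℤ), ?_, ?_, ?_⟩
      · rw [Finset.mem_insert, Finset.mem_image]
        refine Or.inr ⟨n / K, ?_, rfl⟩
        rw [Finset.mem_range]
        exact (Nat.div_lt_iff_lt_mul hK).2 h
      · have := Nat.div_mul_le_self n K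
        exact_mod_cast this
      · have := Nat.lt_div_mul_add (a := n) hK
        have h3 : n < n / K * K + K := this
        exact_mod_cast h3
    · refine ⟨(L : ℤ) - K, Finset.mem_insert_self _ _, ?_, ?_⟩
      · have := Nat.lt_div_mul_add (a := L) hK
        omega
      · omega

open Classical in
theorem card_not_inG {s : ℝ} (hs : 0 < s) {k : ℕ} {Q : Finset ℂ} {L K m0 : ℕ} (hW : Win s k Q L K m0)
    (hin : Inside s L Q) (hK : 0 < K) (hKL : K ≤ L) (hcnt : ∀ t, cnt s Q t ≤ k) :
    (Q.filter (fun z => ¬ InG s k Q L K (idx s z))).card * K ^ 2 ≤ 4 * L ^ 2 * m0 ^ 2 * k := by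
  obtain ⟨Pos, hP1, hP2, hP3⟩ := d5_pos hK hKL
  have hsub : Q.filter (fun z => ¬ InG s k Q L K (idx s z)) ⊆
      (Pos ×ˢ Pos).biUnion fun ab => ((window K ab.1 ab.2).filter
        (fun t => ¬ InG s k Q L K t)).biUnion fun t => Q.filter (fun z => idx s z = t) := by
    intro z hz
    rw [Finset.mem_filter] at hz
    obtain ⟨hzQ, hzG⟩ := hz
    obtain ⟨_, hr0, hrL, hi0, hiL⟩ := hin z hzQ
    have e1 : 0 ≤ (idx s z).1 := Int.floor_nonneg.2 (div_nonneg hr0.le hs.le)
    have e2 : (idx s z).1 < L := by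
      refine Int.floor_lt.2 ?_
      rw [div_lt_iff₀ hs]
      exact_mod_cast hrL
    have e3 : 0 ≤ (idx s z).2 := Int.floor_nonneg.2 (div_nonneg hi0.le hs.le)
    have e4 : (idx s z).2 < L := by
      refine Int.floor_lt.2 ?_
      rw [div_lt_iff₀ hs]
      exact_mod_cast hiL
    obtain ⟨a, ha, ha1, ha2⟩ := hP3 _ e1 e2
    obtain ⟨b, hb, hb1, hb2⟩ := hP3 _ e3 e4
    rw [Finset.mem_biUnion]
    refine ⟨(a, b), Finset.mem_product.2 ⟨ha, hb⟩, ?_⟩
    rw [Finset.mem_biUnion]
    refine ⟨idx s z, ?_, Finset.mem_filter.2 ⟨hzQ, rfl⟩⟩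
    rw [Finset.mem_filter]
    refine ⟨?_, hzG⟩
    unfold window
    rw [Finset.mem_product, Finset.mem_Ico, Finset.mem_Ico]
    exact ⟨⟨ha1, ha2⟩, hb1, hb2⟩
  have hcard : (Q.filter (fun z => ¬ InG s k Q L K (idx s z))).card ≤
      (Pos ×ˢ Pos).card * (m0 * m0 * k) := by
    refine (Finset.card_le_card hsub).trans ?_
    refine Finset.card_biUnion_le_card_mul _ _ _ fun ab hab => ?_
    rw [Finset.mem_product] at hab
    have h1 := d5_win hW (hP2 _ hab.1).1 (hP2 _ hab.2).1 (hP2 _ hab.1).2 (hP2 _ hab.2).2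
    refine (Finset.card_biUnion_le_card_mul _ _ k fun t _ => hcnt t).trans ?_
    exact Nat.mul_le_mul_right _ h1
  rw [Finset.card_product] at hcard
  calc _ ≤ (Pos.card * Pos.card * (m0 * m0 * k)) * K ^ 2 := Nat.mul_le_mul_right _ hcard
    _ = (Pos.card * K) * (Pos.card * K) * (m0 * m0 * k) := by ring
    _ ≤ (2 * L) * (2 * L) * (m0 * m0 * k) := Nat.mul_le_mul_right _ (Nat.mul_le_mul hP1 hP1)
    _ = 4 * L ^ 2 * m0 ^ 2 * k := by ring

end Pool.Agent.H97.KN
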