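import Pool.Agent.H97.KN.Defs

/-!
ROW D6 (MP_72793b_PR, deterministic).  A component and its complement are separated in the sense of `Sep`.

For `c ∈ comp k Q x` let `f0` be the point of `F = Q \ comp k Q x` closest to `c` (`Finset.exists_min_image`).
`c` and `f0` are not adjacent (otherwise `f0` is in the component), `c ≠ f0`, so `¬ Near k Q c f0`:
`k ≤ #{z ∈ Q, z ≠ c, dist c z < dist c f0}`.  These `z` are in `C` (by minimality of `f0` they are not in `F`) and satisfy
`dist c z < dist c f` for all `f ∈ F`; together with `c` itself (`dist c c = 0 < dist c f`) they are `k + 1`.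
For `f ∈ F`: the closest point `c0` of `C` (nonempty), `f` and `c0` not adjacent, the same argument.
`card_comp`: apply this to `c = x`.
-/

namespace Pool.Agent.H97.KN

open Finset MeasureTheory Pool.Agent.H77.KN

theorem mem_comp_self {k : ℕ} {Q : Finset ℂ} {x : ℂ} (hx : x ∈ Q) : x ∈ comp k Q x := by
  classical
  unfold comp
  rw [Finset.mem_filter]
  exact ⟨hx, SimpleGraph.Reachable.refl x⟩

theorem comp_eq_of_mem {k : ℕ} {Q : Finset ℂ} {x y : ℂ} (hy : y ∈ comp k Q x) : comp k Q y = comp k Q x := by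
  classical
  unfold comp at hy ⊢
  rw [Finset.mem_filter] at hy
  ext z
  rw [Finset.mem_filter, Finset.mem_filter]
  constructor
  · rintro ⟨h1, h2⟩
    exact ⟨h1, hy.2.trans h2⟩
  · rintro ⟨h1, h2⟩
    exact ⟨h1, hy.2.symm.trans h2⟩

/-- general separation count: `A` the side of `c`, `B` the other side -/
theorem D6_count {k : ℕ} {Q A B : Finset ℂ} {c : ℂ} (hcA : c ∈ A) (hAQ : A ⊆ Q) (hBQ : B ⊆ Q)
    (hQ : ∀ z ∈ Q, z ∈ A ∨ z ∈ B) (hcB : c ∉ B) (hB : B.Nonempty)
    (hadj : ∀ f ∈ B, ¬ (knn k Q).Adj c f) :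
    ∃ S : Finset ℂ, S ⊆ A ∧ k + 1 ≤ S.card ∧ c ∈ S ∧ ∀ z ∈ S, ∀ f ∈ B, dist c z < dist c f := by
  classical
  obtain ⟨f0, hf0, hmin⟩ := Finset.exists_min_image B (fun f => dist c f) hB
  have hne : c ≠ f0 := fun h => hcB (h ▸ hf0)
  have hnear : ¬ Near k Q c f0 := by
    intro h
    exact hadj f0 hf0 ⟨hAQ hcA, hBQ hf0, hne, Or.inl h⟩
  unfold Near at hnear
  rw [not_lt] at hnear
  refine ⟨insert c (Q.filter (fun z => z ≠ c ∧ dist c z < dist c f0)), ?_, ?_, Finset.mem_insert_self _ _, ?_⟩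
  · intro z hz
    rw [Finset.mem_insert] at hz
    rcases hz with rfl | hz
    · exact hcA
    · rw [Finset.mem_filter] at hz
      rcases hQ z hz.1 with h | h
      · exact h
      · exact absurd (hmin z h) (not_le.mpr hz.2.2)
  · rw [Finset.card_insert_of_notMem]
    · convert Nat.succ_le_succ hnear using 2
    · intro h
      rw [Finset.mem_filter] at h
      exact h.2.1 rfl
  · intro z hz f hf
    rw [Finset.mem_insert] at hz
    rcases hz with rfl | hz
    · rw [dist_self]
      exact dist_pos.mpr (fun h => hcB (h ▸ hf))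
    · rw [Finset.mem_filter] at hz
      exact lt_of_lt_of_le hz.2.2 (hmin f hf)

theorem D6_adj {k : ℕ} {Q : Finset ℂ} {x c f : ℂ} (hc : c ∈ comp k Q x) (hf : f ∈ Q \ comp k Q x) :
    ¬ (knn k Q).Adj c f := by
  classical
  intro h
  rw [Finset.mem_sdiff] at hf
  apply hf.2
  unfold comp at hc ⊢
  rw [Finset.mem_filter] at hc ⊢
  exact ⟨hf.1, hc.2.trans h.reachable⟩

theorem sep_comp {k : ℕ} {Q : Finset ℂ} {x : ℂ} (hx : x ∈ Q) (hne : (Q \ comp k Q x).Nonempty) :
    Sep k (comp k Q x) (Q \ comp k Q x) := by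
  classical
  have hCQ : comp k Q x ⊆ Q := by
    unfold comp
    exact Finset.filter_subset _ _
  constructor
  · intro c hc
    obtain ⟨S, hS1, hS2, _, hS3⟩ := D6_count (k := k) hc hCQ Finset.sdiff_subset
      (fun z hz => by
        by_cases h : z ∈ comp k Q x
        · exact Or.inl h
        · exact Or.inr (Finset.mem_sdiff.mpr ⟨hz, h⟩))
      (fun h => (Finset.mem_sdiff.mp h).2 hc) hne (fun f hf => D6_adj hc hf)
    refine le_trans hS2 (Finset.card_le_card ?_)
    intro z hz
    rw [Finset.mem_filter]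
    exact ⟨hS1 hz, hS3 z hz⟩
  · intro f hf
    obtain ⟨S, hS1, hS2, _, hS3⟩ := D6_count (k := k) (A := Q \ comp k Q x) (B := comp k Q x) hf
      Finset.sdiff_subset hCQ
      (fun z hz => by
        by_cases h : z ∈ comp k Q x
        · exact Or.inr h
        · exact Or.inl (Finset.mem_sdiff.mpr ⟨hz, h⟩))
      (Finset.mem_sdiff.mp hf).2 ⟨x, mem_comp_self hx⟩
      (fun c hc h => D6_adj hc hf h.symm)
    refine le_trans hS2 (Finset.card_le_card ?_)
    intro z hz
    rw [Finset.mem_filter]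
    exact ⟨hS1 hz, hS3 z hz⟩

theorem card_comp {k : ℕ} {Q : Finset ℂ} {x : ℂ} (hx : x ∈ Q) (hne : (Q \ comp k Q x).Nonempty) :
    k + 1 ≤ (comp k Q x).card := by
  classical
  exact le_trans ((sep_comp hx hne).1 x (mem_comp_self hx)) (Finset.card_le_card (Finset.filter_subset _ _))

end Pool.Agent.H97.KN
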