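import Pool.Agent.H97.KN.Defs

/-!
ROW D7a (MP_72793b_PR, deterministic).  Reflection of a configuration.

`U` = tiles of a half plane (or quadrant), `τ` = reflection of the plane, `τ'` = reflection of the indices.
New assignment: `ι' z = if z ∈ C ∪ F then ι z else τ' (ι (τ z))`.  New index set of tiles: `{t | t ∈ U ∨ τ' t ∈ U}`.
Fact A: for `z ∈ C ∪ F`, `τ z ∉ C ∪ F`: `z ∈ tile (ι z)` gives `τ z ∈ tile (τ' (ι z))` (htile); if `τ z ∈ C ∪ F` then by
`uniq` `τ' (ι z) = ι (τ z) ∈ U`, but `ι z ∈ U → τ' (ι z) ∉ U` (hdisj).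
* ne: clear.  disj: `C ∩ F = ∅`, `τ C ∩ τ F = ∅` (τ injective), `C ∩ τ F = ∅`, `τ C ∩ F = ∅` by A.
* sep: for `c ∈ C`: the `k+1` points `p ∈ C` with `dist c p < dist c f` for all `f ∈ F` also satisfy
  `dist c p < dist c f ≤ dist c (τ f)` (hfar with the tiles `ι c`, `ι f`).  For `τ c`: apply `τ` (isometry, involution): the
  points `τ p`; `dist (τ c) (τ p) = dist c p < dist c f ≤ dist c (τ f) = dist (τ c) f` and `dist (τ c) (τ f) = dist c f`.
  The same with `C`, `F` exchanged.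
* mem_tile, mem, uniq: by cases (`uniq` for `τ z`: `τ z ∈ tile t` gives `z ∈ tile (τ' t)`, so `τ' t = ι z`, `t = τ' (ι z)`).
* cov: `t ∈ U`, `c' ∈ C ∪ τ C`, `z ∈ tile t`, `dist c' z ≤ 5`: if `c' ∈ C` use `cov`.  If `c' = τ c`: `dist z c ≤ dist z (τ c) ≤ 5`
  by `hfar` (tiles `t`, `ι c`).  If `τ' t ∈ U`: `τ z ∈ tile (τ' t)`, `dist (τ c') (τ z) ≤ 5`, `τ c' ∈ C ∪ τ C`, previous case,
  so `τ' t ∈ J`, `t = τ' (τ' t) ∈ τ' J`.
* card: `C` and `τ C` are disjoint (A) and `τ` is injective.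
* cost: `J` and `τ' J` are disjoint (sub, hdisj).  For `t ∈ J`: the points `z` of the big set with `ι' z = t` are those of
  `C ∪ F` with `ι z = t` (for `τ z`, `ι' (τ z) = τ' (ι z) ∉ U`... and `t ∈ U`).  For `τ' t`, `t ∈ J`: they are the `τ z` with
  `ι z = t` (as `ι z ∈ U`, `τ' t ∉ U`); the same number.  So cost = sum over `J` + sum over `τ' J` = 2 cost.
-/

namespace Pool.Agent.H97.KN

open Finset MeasureTheory Pool.Agent.H77.KN

theorem d7a_sep {k : ℕ} {A B A' B' : Finset ℂ} {τ : ℂ → ℂ} (hττ : ∀ z, τ (τ z) = z)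
    (hdist : ∀ z w, dist (τ z) (τ w) = dist z w)
    (hA : ∀ z, z ∈ A' ↔ z ∈ A ∨ τ z ∈ A) (hB : ∀ z, z ∈ B' ↔ z ∈ B ∨ τ z ∈ B)
    (hfar : ∀ x ∈ A, ∀ y ∈ B, dist x y ≤ dist x (τ y))
    (h : ∀ c ∈ A, k + 1 ≤ (A.filter (fun p => ∀ f ∈ B, dist c p < dist c f)).card) :
    ∀ c ∈ A', k + 1 ≤ (A'.filter (fun p => ∀ f ∈ B', dist c p < dist c f)).card := by
  have hinj : Function.Injective τ := fun x y hxy => by rw [← hττ x, ← hττ y, hxy]
  intro c hc
  rcases (hA c).1 hc with hc | hc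
  · refine (h c hc).trans (card_le_card fun p hp => ?_)
    rw [mem_filter] at hp ⊢
    refine ⟨(hA p).2 (Or.inl hp.1), fun f hf => ?_⟩
    rcases (hB f).1 hf with hf | hf
    · exact hp.2 f hf
    · have h1 := hp.2 _ hf
      have h2 := hfar c hc _ hf
      rw [hττ] at h2
      exact h1.trans_le h2
  · refine (h _ hc).trans ?_
    rw [← card_image_of_injective _ hinj]
    refine card_le_card fun p hp => ?_
    obtain ⟨q, hq, rfl⟩ := mem_image.1 hp
    rw [mem_filter] at hq ⊢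
    refine ⟨(hA _).2 (Or.inr (by rw [hττ]; exact hq.1)), fun f hf => ?_⟩
    have e1 : dist c (τ q) = dist (τ c) q := by
      rw [← hdist c (τ q), hττ]
    rw [e1, ← hdist c f]
    rcases (hB f).1 hf with hf | hf
    · exact (hq.2 f hf).trans_le (hfar _ hc f hf)
    · exact hq.2 _ hf

theorem Conf.reflect {s : ℝ} {k : ℕ} {U : Set (ℤ × ℤ)} {C F : Finset ℂ} {ι : ℂ → ℤ × ℤ} {J : Finset (ℤ × ℤ)}
    (h : Conf s k U C F ι J) (τ : ℂ → ℂ) (τ' : ℤ × ℤ → ℤ × ℤ) (hττ : ∀ z, τ (τ z) = z)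
    (hdist : ∀ z w, dist (τ z) (τ w) = dist z w) (hτ' : ∀ t, τ' (τ' t) = t)
    (htile : ∀ t z, z ∈ tile s t → τ z ∈ tile s (τ' t))
    (hfar : ∀ t ∈ U, ∀ t' ∈ U, ∀ x ∈ tile s t, ∀ y ∈ tile s t', dist x y ≤ dist x (τ y))
    (hdisj : ∀ t ∈ U, τ' t ∉ U) :
    ∃ (C' F' : Finset ℂ) (ι' : ℂ → ℤ × ℤ) (J' : Finset (ℤ × ℤ)),
      Conf s k {t | t ∈ U ∨ τ' t ∈ U} C' F' ι' J' ∧ C'.card = 2 * C.card ∧
        cost s k (C' ∪ F') ι' J' = 2 * cost s k (C ∪ F) ι J := by
  classical
  have hinj : Function.Injective τ := fun x y hxy => by rw [← hττ x, ← hττ y, hxy]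
  have hinj' : Function.Injective τ' := fun x y hxy => by rw [← hτ' x, ← hτ' y, hxy]
  have hA : ∀ z ∈ C ∪ F, τ z ∉ C ∪ F := by
    intro z hz hz'
    have h1 := h.uniq _ hz' _ (htile _ _ (h.mem_tile z hz))
    have h2 := hdisj _ (h.mem z hz)
    rw [h1] at h2
    exact h2 (h.mem _ hz')
  have hmemI : ∀ (A : Finset ℂ) (z : ℂ), z ∈ A ∪ A.image τ ↔ z ∈ A ∨ τ z ∈ A := by
    intro A z
    rw [mem_union, mem_image]
    refine or_congr Iff.rfl ⟨?_, fun hz => ⟨τ z, hz, hττ z⟩⟩
    rintro ⟨w, hw, rfl⟩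
    rwa [hττ]
  set C' : Finset ℂ := C ∪ C.image τ with hC'
  set F' : Finset ℂ := F ∪ F.image τ with hF'
  set J' : Finset (ℤ × ℤ) := J ∪ J.image τ' with hJ'
  set ι' : ℂ → ℤ × ℤ := fun z => if z ∈ C ∪ F then ι z else τ' (ι (τ z)) with hι'
  have hP : ∀ z, z ∈ C' ∪ F' ↔ z ∈ C ∪ F ∨ τ z ∈ C ∪ F := by
    intro z
    rw [mem_union, hC', hF', hmemI, hmemI, mem_union, mem_union]
    tauto
  have i1 : ∀ z ∈ C ∪ F, ι' z = ι z := fun z hz => by rw [hι']; exact if_pos hz
  have i2 : ∀ z, τ z ∈ C ∪ F → ι' z = τ' (ι (τ z)) := fun z hz => by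
    have : z ∉ C ∪ F := by
      have := hA _ hz
      rwa [hττ] at this
    rw [hι']
    exact if_neg this
  have hfarP : ∀ x ∈ C ∪ F, ∀ y ∈ C ∪ F, dist x y ≤ dist x (τ y) := fun x hx y hy =>
    hfar _ (h.mem x hx) _ (h.mem y hy) x (h.mem_tile x hx) y (h.mem_tile y hy)
  have covU : ∀ t ∈ U, ∀ c ∈ C', ∀ z ∈ tile s t, dist c z ≤ 5 → t ∈ J := by
    intro t ht c hc z hz hcz
    rcases (hmemI C c).1 hc with hc | hc
    · exact h.cov t ht ⟨c, hc, z, hz, hcz⟩
    · refine h.cov t ht ⟨τ c, hc, z, hz, ?_⟩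
      have h1 := hfar t ht _ (h.mem _ (mem_union_left F hc)) z hz _
        (h.mem_tile _ (mem_union_left F hc))
      rw [hττ, dist_comm z (τ c), dist_comm z c] at h1
      exact h1.trans hcz
  refine ⟨C', F', ι', J', ?_, ?_, ?_⟩
  · constructor
    · exact h.ne.mono subset_union_left
    · rw [disjoint_left]
      intro z hz hz'
      have hd := disjoint_left.1 h.disj
      rcases (hmemI C z).1 hz with h1 | h1 <;> rcases (hmemI F z).1 hz' with h2 | h2
      · exact hd h1 h2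
      · exact hA z (mem_union_left F h1) (mem_union_right C h2)
      · exact hA z (mem_union_right C h2) (mem_union_left F h1)
      · exact hd h1 h2
    · refine ⟨?_, ?_⟩
      · exact d7a_sep hττ hdist (hmemI C) (hmemI F)
          (fun x hx y hy => hfarP x (mem_union_left F hx) y (mem_union_right C hy)) h.sep.1
      · exact d7a_sep hττ hdist (hmemI F) (hmemI C)
          (fun x hx y hy => hfarP x (mem_union_right C hx) y (mem_union_left F hy)) h.sep.2
    · intro z hz
      rcases (hP z).1 hz with h1 | h1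
      · rw [i1 z h1]
        exact h.mem_tile z h1
      · rw [i2 z h1]
        have := htile _ _ (h.mem_tile _ h1)
        rwa [hττ] at this
    · intro z hz
      rcases (hP z).1 hz with h1 | h1
      · rw [i1 z h1]
        exact Or.inl (h.mem z h1)
      · rw [i2 z h1]
        refine Or.inr ?_
        rw [hτ']
        exact h.mem _ h1
    · intro z hz t ht
      rcases (hP z).1 hz with h1 | h1
      · rw [i1 z h1]
        exact h.uniq z h1 t ht
      · rw [i2 z h1, ← h.uniq _ h1 _ (htile _ _ ht), hτ']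
    · rintro t ht ⟨c, hc, z, hz, hcz⟩
      rcases ht with ht | ht
      · exact mem_union_left _ (covU t ht c hc z hz hcz)
      · refine mem_union_right _ (mem_image.2 ⟨τ' t, ?_, hτ' t⟩)
        refine covU _ ht (τ c) ?_ (τ z) (htile _ _ hz) (by rwa [hdist])
        rw [hC', hmemI, hττ]
        exact ((hmemI C c).1 hc).symm
    · intro t ht
      rcases mem_union.1 ht with h1 | h1
      · exact Or.inl (h.sub t h1)
      · obtain ⟨u, hu, rfl⟩ := mem_image.1 h1
        refine Or.inr ?_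
        rw [hτ']
        exact h.sub u hu
  · have hd : Disjoint C (C.image τ) := by
      rw [disjoint_left]
      intro z hz hz'
      obtain ⟨w, hw, rfl⟩ := mem_image.1 hz'
      exact hA w (mem_union_left F hw) (mem_union_left F hz)
    rw [hC', card_union_of_disjoint hd, card_image_of_injective _ hinj]
    ring
  · have hd : Disjoint J (J.image τ') := by
      rw [disjoint_left]
      intro t ht ht'
      obtain ⟨u, hu, rfl⟩ := mem_image.1 ht'
      exact hdisj u (h.sub u hu) (h.sub _ ht)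
    have e1 : ∀ t ∈ J, ((C' ∪ F').filter (fun z => ι' z = t)).card =
        ((C ∪ F).filter (fun z => ι z = t)).card := by
      intro t ht
      congr 1
      ext z
      rw [mem_filter, mem_filter]
      constructor
      · rintro ⟨h1, h2⟩
        rcases (hP z).1 h1 with h3 | h3
        · rw [i1 z h3] at h2
          exact ⟨h3, h2⟩
        · exfalso
          rw [i2 z h3] at h2
          have h4 := hdisj _ (h.mem _ h3)
          rw [h2] at h4
          exact h4 (h.sub t ht)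
      · rintro ⟨h1, h2⟩
        exact ⟨(hP z).2 (Or.inl h1), by rw [i1 z h1]; exact h2⟩
    have e2 : ∀ t ∈ J, ((C' ∪ F').filter (fun z => ι' z = τ' t)).card =
        ((C ∪ F).filter (fun z => ι z = t)).card := by
      intro t ht
      rw [← card_image_of_injective ((C ∪ F).filter (fun z => ι z = t)) hinj]
      congr 1
      ext z
      rw [mem_filter, mem_image]
      constructor
      · rintro ⟨h1, h2⟩
        rcases (hP z).1 h1 with h3 | h3
        · exfalso
          rw [i1 z h3] at h2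
          have h4 := hdisj _ (h.sub t ht)
          rw [← h2] at h4
          exact h4 (h.mem z h3)
        · rw [i2 z h3] at h2
          exact ⟨τ z, mem_filter.2 ⟨h3, hinj' h2⟩, hττ z⟩
      · rintro ⟨w, hw, rfl⟩
        obtain ⟨h1, h2⟩ := mem_filter.1 hw
        have h3 : τ (τ w) ∈ C ∪ F := by rwa [hττ]
        refine ⟨(hP _).2 (Or.inr h3), ?_⟩
        rw [i2 _ h3, hττ, h2]
    unfold cost
    rw [hJ', sum_union hd, sum_image fun x _ y _ hxy => hinj' hxy, two_mul]
    congr 1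
    · refine sum_congr rfl fun t ht => ?_
      rw [e1 t ht]
    · refine sum_congr rfl fun t ht => ?_
      rw [e2 t ht]

end Pool.Agent.H97.KN
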