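import Pool.Agent.H97.KN.D7a

/-!
ROW D7b (MP_72793b_PR, deterministic).  The two kinds of axis reflections.

`reflX`: `τ z = ⟨2 m s - z.re, z.im⟩`, `τ' t = (2 m - 1 - t.1, t.2)`.  `htile`: `t.1 s ≤ re ≤ (t.1+1) s` becomes
`(2m - 1 - t.1) s ≤ 2 m s - re ≤ (2 m - t.1) s`.  `hfar`: if all first indices of `U` are `≥ m` then `x.re ≥ m s`,
`y.re ≥ m s`, so `|x.re - y.re| ≤ |x.re - (2 m s - y.re)|` (`x.re - m s ≥ 0`, `y.re - m s ≥ 0`: `|u - v| ≤ u + v`); the other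
case `t.1 < m`: `re ≤ m s`.  `dist` in `ℂ`: `Complex.dist_eq_re_im` (sqrt of the sum of the squares).
The new index set `{t | t ∈ U ∨ τ' t ∈ U}` is `{t | t.2 ∈ Uy}` in both cases (`Ux = {i | m ≤ i}`: `2m-1-i ≥ m ↔ i < m`).
`reflY` the same with the coordinates exchanged.
-/

namespace Pool.Agent.H97.KN

open Finset MeasureTheory Pool.Agent.H77.KN

theorem D7b_dist_le {x y x' y' : ℂ} (h1 : |x.re - y.re| ≤ |x'.re - y'.re|)
    (h2 : |x.im - y.im| ≤ |x'.im - y'.im|) : dist x y ≤ dist x' y' := by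
  rw [Complex.dist_eq_re_im, Complex.dist_eq_re_im]
  apply Real.sqrt_le_sqrt
  exact add_le_add (sq_le_sq.2 h1) (sq_le_sq.2 h2)

theorem D7b_abs {a b c : ℝ} (h : (c ≤ a ∧ c ≤ b) ∨ (a ≤ c ∧ b ≤ c)) :
    |a - b| ≤ |a - (2 * c - b)| := by
  rcases h with ⟨h1, h2⟩ | ⟨h1, h2⟩
  · rw [abs_of_nonneg (show 0 ≤ a - (2 * c - b) by linarith), abs_le]
    constructor <;> linarith
  · rw [abs_of_nonpos (show a - (2 * c - b) ≤ 0 by linarith), abs_le]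
    constructor <;> linarith

theorem D7b_side {s : ℝ} (hs : 0 < s) {m i : ℤ} {u : ℝ} (h1 : (i : ℝ) * s ≤ u)
    (h2 : u ≤ ((i : ℝ) + 1) * s) : (m ≤ i → (m : ℝ) * s ≤ u) ∧ (i < m → u ≤ (m : ℝ) * s) := by
  constructor
  · intro h
    have h3 : (m : ℝ) ≤ i := by exact_mod_cast h
    exact (mul_le_mul_of_nonneg_right h3 hs.le).trans h1
  · intro h
    have h3 : (i : ℝ) + 1 ≤ m := by exact_mod_cast h
    exact h2.trans (mul_le_mul_of_nonneg_right h3 hs.le)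

theorem D7b_two {s : ℝ} (hs : 0 < s) {m : ℤ} {V : Set ℤ} (hU : V = {i | m ≤ i} ∨ V = {i | i < m})
    {i j : ℤ} (hi : i ∈ V) (hj : j ∈ V) {u v : ℝ} (h1 : (i : ℝ) * s ≤ u)
    (h2 : u ≤ ((i : ℝ) + 1) * s) (h3 : (j : ℝ) * s ≤ v) (h4 : v ≤ ((j : ℝ) + 1) * s) :
    |u - v| ≤ |u - (2 * m * s - v)| := by
  have e : 2 * (m : ℝ) * s - v = 2 * ((m : ℝ) * s) - v := by ring
  rw [e]
  apply D7b_abs
  rcases hU with h | h
  · rw [h] at hi hj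
    exact Or.inl ⟨(D7b_side hs h1 h2).1 hi, (D7b_side hs h3 h4).1 hj⟩
  · rw [h] at hi hj
    exact Or.inr ⟨(D7b_side hs h1 h2).2 hi, (D7b_side hs h3 h4).2 hj⟩

theorem D7b_notMem {m : ℤ} {V : Set ℤ} (hU : V = {i | m ≤ i} ∨ V = {i | i < m}) (i : ℤ) :
    (i ∈ V → 2 * m - 1 - i ∉ V) ∧ (i ∈ V ∨ 2 * m - 1 - i ∈ V) := by
  rcases hU with h | h <;> rw [h] <;> simp only [Set.mem_ofPred_eq] <;> constructor <;> omega

theorem Conf.reflX {s : ℝ} (hs : 0 < s) {k : ℕ} {m : ℤ} {Ux Uy : Set ℤ} (hU : Ux = {i | m ≤ i} ∨ Ux = {i | i < m})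
    {C F : Finset ℂ} {ι : ℂ → ℤ × ℤ} {J : Finset (ℤ × ℤ)}
    (h : Conf s k {t | t.1 ∈ Ux ∧ t.2 ∈ Uy} C F ι J) :
    ∃ (C' F' : Finset ℂ) (ι' : ℂ → ℤ × ℤ) (J' : Finset (ℤ × ℤ)),
      Conf s k {t | t.1 ∈ (Set.univ : Set ℤ) ∧ t.2 ∈ Uy} C' F' ι' J' ∧ C'.card = 2 * C.card ∧
        cost s k (C' ∪ F') ι' J' = 2 * cost s k (C ∪ F) ι J := by
  obtain ⟨C', F', ι', J', h1, h2, h3⟩ := h.reflect (fun z => ⟨2 * m * s - z.re, z.im⟩)
    (fun t => (2 * m - 1 - t.1, t.2)) (by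
      intro z
      apply Complex.ext
      · show 2 * m * s - (2 * m * s - z.re) = z.re
        ring
      · rfl) (by
      intro z w
      rw [Complex.dist_eq_re_im, Complex.dist_eq_re_im]
      congr 1
      show (2 * m * s - z.re - (2 * m * s - w.re)) ^ 2 + (z.im - w.im) ^ 2 = _
      ring) (by
      intro t
      refine Prod.ext ?_ rfl
      show 2 * m - 1 - (2 * m - 1 - t.1) = t.1
      ring) (by
      rintro t z ⟨a1, a2, a3, a4⟩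
      refine ⟨?_, ?_, a3, a4⟩
      · show ((2 * m - 1 - t.1 : ℤ) : ℝ) * s ≤ 2 * m * s - z.re
        push_cast
        linarith
      · show 2 * m * s - z.re ≤ (((2 * m - 1 - t.1 : ℤ) : ℝ) + 1) * s
        push_cast
        linarith) (by
      rintro t ht t' ht' x ⟨a1, a2, a3, a4⟩ y ⟨b1, b2, b3, b4⟩
      exact D7b_dist_le (D7b_two hs hU ht.1 ht'.1 a1 a2 b1 b2) le_rfl) (by
      rintro t ht ht'
      exact (D7b_notMem hU t.1).1 ht.1 ht'.1)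
  refine ⟨C', F', ι', J', ?_, h2, h3⟩
  have e : {t : ℤ × ℤ | t ∈ {t : ℤ × ℤ | t.1 ∈ Ux ∧ t.2 ∈ Uy} ∨
      (2 * m - 1 - t.1, t.2) ∈ {t : ℤ × ℤ | t.1 ∈ Ux ∧ t.2 ∈ Uy}} =
      {t : ℤ × ℤ | t.1 ∈ (Set.univ : Set ℤ) ∧ t.2 ∈ Uy} := by
    ext t
    constructor
    · rintro (ht | ht)
      · exact ⟨trivial, ht.2⟩
      · exact ⟨trivial, ht.2⟩
    · rintro ⟨_, ht⟩
      rcases (D7b_notMem hU t.1).2 with h4 | h4
      · exact Or.inl ⟨h4, ht⟩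
      · exact Or.inr ⟨h4, ht⟩
  rw [← e]
  exact h1

theorem Conf.reflY {s : ℝ} (hs : 0 < s) {k : ℕ} {m : ℤ} {Ux Uy : Set ℤ} (hU : Uy = {i | m ≤ i} ∨ Uy = {i | i < m})
    {C F : Finset ℂ} {ι : ℂ → ℤ × ℤ} {J : Finset (ℤ × ℤ)}
    (h : Conf s k {t | t.1 ∈ Ux ∧ t.2 ∈ Uy} C F ι J) :
    ∃ (C' F' : Finset ℂ) (ι' : ℂ → ℤ × ℤ) (J' : Finset (ℤ × ℤ)),
      Conf s k {t | t.1 ∈ Ux ∧ t.2 ∈ (Set.univ : Set ℤ)} C' F' ι' J' ∧ C'.card = 2 * C.card ∧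
        cost s k (C' ∪ F') ι' J' = 2 * cost s k (C ∪ F) ι J := by
  obtain ⟨C', F', ι', J', h1, h2, h3⟩ := h.reflect (fun z => ⟨z.re, 2 * m * s - z.im⟩)
    (fun t => (t.1, 2 * m - 1 - t.2)) (by
      intro z
      apply Complex.ext
      · rfl
      · show 2 * m * s - (2 * m * s - z.im) = z.im
        ring) (by
      intro z w
      rw [Complex.dist_eq_re_im, Complex.dist_eq_re_im]
      congr 1
      show (z.re - w.re) ^ 2 + (2 * m * s - z.im - (2 * m * s - w.im)) ^ 2 = _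
      ring) (by
      intro t
      refine Prod.ext rfl ?_
      show 2 * m - 1 - (2 * m - 1 - t.2) = t.2
      ring) (by
      rintro t z ⟨a1, a2, a3, a4⟩
      refine ⟨a1, a2, ?_, ?_⟩
      · show ((2 * m - 1 - t.2 : ℤ) : ℝ) * s ≤ 2 * m * s - z.im
        push_cast
        linarith
      · show 2 * m * s - z.im ≤ (((2 * m - 1 - t.2 : ℤ) : ℝ) + 1) * s
        push_cast
        linarith) (by
      rintro t ht t' ht' x ⟨a1, a2, a3, a4⟩ y ⟨b1, b2, b3, b4⟩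
      exact D7b_dist_le le_rfl (D7b_two hs hU ht.2 ht'.2 a3 a4 b3 b4)) (by
      rintro t ht ht'
      exact (D7b_notMem hU t.2).1 ht.2 ht'.2)
  refine ⟨C', F', ι', J', ?_, h2, h3⟩
  have e : {t : ℤ × ℤ | t ∈ {t : ℤ × ℤ | t.1 ∈ Ux ∧ t.2 ∈ Uy} ∨
      (t.1, 2 * m - 1 - t.2) ∈ {t : ℤ × ℤ | t.1 ∈ Ux ∧ t.2 ∈ Uy}} =
      {t : ℤ × ℤ | t.1 ∈ Ux ∧ t.2 ∈ (Set.univ : Set ℤ)} := by
    ext t
    constructor
    · rintro (ht | ht)
      · exact ⟨ht.1, trivial⟩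
      · exact ⟨ht.1, trivial⟩
    · rintro ⟨ht, _⟩
      rcases (D7b_notMem hU t.2).2 with h4 | h4
      · exact Or.inl ⟨ht, h4⟩
      · exact Or.inr ⟨ht, h4⟩
  rw [← e]
  exact h1

end Pool.Agent.H97.KN
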