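import Pool.Agent.H97.KN.D7b
import Pool.Agent.H97.KN.D2

/-!
ROW D7c (MP_72793b_PR, deterministic).  The cost inequality for a component in the grid, with reflections near the sides.

1. `Conf s k {t | t.1 ∈ Ux ∧ t.2 ∈ Uy} C F (idx s) J` with `J = blk R t ∩ grid L`,
   `Ux = {i | 0 ≤ i}` if `t.1 < R`, `Ux = {i | i < L}` if `L ≤ t.1 + R`, `Ux = univ` otherwise (the first two exclude each other
   because `2 R < L`); the same for `Uy`.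
   mem_tile: `tile_of_idx`; mem: from `Inside` (`0 < z.re < L s`); uniq: `z` is on no grid line, so `z ∈ tile s t'` gives
   `t'.1 s < z.re < (t'.1 + 1) s` and `⌊z.re/s⌋ = t'.1`.
   cov: `t' ∈ U`, `c ∈ C`, `z ∈ tile s t'`, `dist c z ≤ 5`: `|t'.1 - (idx s c).1| s ≤ 5 + s`, so
   `|t'.1 - t.1| ≤ m0 + 5/s + 1 ≤ R` (the same for `.2`), so `t' ∈ blk R t`; and `t' ∈ grid L`: e.g. if `t.1 < R`:
   `0 ≤ t'.1` and `t'.1 ≤ t.1 + R < 2R < L`; if `L ≤ t.1 + R`: `t'.1 < L`, `t'.1 ≥ t.1 - R ≥ L - 2R > 0`; otherwise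
   `R ≤ t.1`, `t.1 + R < L`.
   `cost s k (C ∪ F) (idx s) J = ∑ t' ∈ J, tcost s k Q t'` by definition (`C ∪ F = Q`).
2. four cases (`t.1` near or not, `t.2` near or not): apply `Conf.reflX` (with `m = 0` or `m = L`) and / or `Conf.reflY`; the final
   configuration has `U = {t | t.1 ∈ univ ∧ t.2 ∈ univ}`, `C'.card = 2^nearc * C.card ≥ 2 (k+1)` and the cost `2^nearc * cost`.
   `hcost` applied to it gives the claim.
-/

namespace Pool.Agent.H97.KN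

open Finset MeasureTheory Pool.Agent.H77.KN

/-- the admissible index set along one axis -/
theorem D7c_axis {L R : ℕ} {i0 : ℤ} (hRL : 2 * R < L) (h0 : 0 ≤ i0) (h1 : i0 < L) :
    ∃ Ux : Set ℤ, (∀ i : ℤ, 0 ≤ i → i < L → i ∈ Ux) ∧ (∀ i ∈ Ux, |i - i0| ≤ R → 0 ≤ i ∧ i < L) ∧
      ((¬ (i0 < R ∨ (L : ℤ) ≤ i0 + R) ∧ Ux = Set.univ) ∨
        ((i0 < R ∨ (L : ℤ) ≤ i0 + R) ∧ ∃ m : ℤ, Ux = {i | m ≤ i} ∨ Ux = {i | i < m})) := by
  by_cases hA : i0 < R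
  · refine ⟨{i | 0 ≤ i}, fun i h _ => h, ?_, Or.inr ⟨Or.inl hA, 0, Or.inl rfl⟩⟩
    intro i hi hab
    have h2 := abs_le.mp hab
    refine ⟨hi, ?_⟩
    omega
  · by_cases hB : (L : ℤ) ≤ i0 + R
    · refine ⟨{i | i < (L : ℤ)}, fun i _ h => h, ?_, Or.inr ⟨Or.inr hB, L, Or.inr rfl⟩⟩
      intro i hi hab
      have h2 := abs_le.mp hab
      refine ⟨?_, hi⟩
      omega
    · refine ⟨Set.univ, fun i _ _ => Set.mem_univ i, ?_, Or.inl ⟨by push Not; omega, rfl⟩⟩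
      intro i _ hab
      have h2 := abs_le.mp hab
      constructor <;> omega

/-- the bound for one coordinate -/
theorem D7c_coord {s : ℝ} (hs : 0 < s) {R m0 : ℕ} (hR : (m0 : ℝ) + 5 / s + 2 ≤ R) {a b : ℝ} {i j : ℤ}
    (ha : |⌊a / s⌋ - j| ≤ (m0 : ℤ)) (hi1 : i * s ≤ b) (hi2 : b ≤ (i + 1) * s) (hab : |a - b| ≤ 5) :
    |i - j| ≤ (R : ℤ) := by
  have h1 : (⌊a / s⌋ : ℝ) * s ≤ a := by
    rw [← le_div_iff₀ hs]; exact Int.floor_le _
  have h2 : a < ((⌊a / s⌋ : ℝ) + 1) * s := by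
    rw [← div_lt_iff₀ hs]; exact Int.lt_floor_add_one _
  have hab' := abs_le.mp hab
  have ha' : |((⌊a / s⌋ : ℝ)) - j| ≤ m0 := by exact_mod_cast ha
  have ha'' := abs_le.mp ha'
  have h5 : 5 / s * s = 5 := by field_simp
  have e1 : ((i : ℝ) - ⌊a / s⌋) ≤ 5 / s + 1 := by
    have : ((i : ℝ) - ⌊a / s⌋) * s ≤ (5 / s + 1) * s := by nlinarith
    exact le_of_mul_le_mul_right this hs
  have e2 : ((⌊a / s⌋ : ℝ) - i) ≤ 5 / s + 1 := by
    have : ((⌊a / s⌋ : ℝ) - i) * s ≤ (5 / s + 1) * s := by nlinarith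
    exact le_of_mul_le_mul_right this hs
  have : |(i : ℝ) - j| ≤ R := by
    rw [abs_le]
    constructor <;> linarith [ha''.1, ha''.2]
  exact_mod_cast this

theorem D7c_floor {s : ℝ} (hs : 0 < s) {L : ℕ} {a : ℝ} (h0 : 0 < a) (h1 : a < L * s) :
    0 ≤ ⌊a / s⌋ ∧ ⌊a / s⌋ < (L : ℤ) := by
  constructor
  · apply Int.floor_nonneg.mpr; positivity
  · rw [Int.floor_lt, div_lt_iff₀ hs]
    exact_mod_cast h1

theorem D7c_uniq {s : ℝ} (hs : 0 < s) {a : ℝ} {i : ℤ} (hg : ∀ m : ℤ, a ≠ m * s) (h1 : i * s ≤ a)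
    (h2 : a ≤ (i + 1) * s) : i = ⌊a / s⌋ := by
  symm
  rw [Int.floor_eq_iff]
  refine ⟨(le_div_iff₀ hs).mpr h1, (div_lt_iff₀ hs).mpr (lt_of_le_of_ne h2 ?_)⟩
  have := hg (i + 1)
  push_cast at this
  exact this

theorem D7c_final (hcost : CostStatement) {s : ℝ} (hs : 0 < s) (hs1 : s ≤ s0) {k : ℕ} (hk : 0 < k)
    {C F : Finset ℂ} {ι : ℂ → ℤ × ℤ} {J : Finset (ℤ × ℤ)}
    (h : Conf s k {t | t.1 ∈ (Set.univ : Set ℤ) ∧ t.2 ∈ (Set.univ : Set ℤ)} C F ι J)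
    (hC : 2 * (k + 1) ≤ C.card) : Real.log 28.1 ≤ cost s k (C ∪ F) ι J :=
  hcost s k C F ι J hs hs1 hk h.ne h.disj h.sep hC h.mem_tile
    (fun t ht => h.cov t ⟨Set.mem_univ _, Set.mem_univ _⟩ ht)

theorem D7c_re {x y : ℂ} : |x.re - y.re| ≤ dist x y := by
  rw [← Complex.sub_re, Complex.dist_eq]; exact Complex.abs_re_le_norm _

theorem D7c_im {x y : ℂ} : |x.im - y.im| ≤ dist x y := by
  rw [← Complex.sub_im, Complex.dist_eq]; exact Complex.abs_im_le_norm _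

theorem cost_ge (hcost : CostStatement) {s : ℝ} (hs : 0 < s) (hs1 : s ≤ s0) {L k R m0 : ℕ} (hk : 0 < k)
    {Q C F : Finset ℂ} (hin : Inside s L Q) (hR : (m0 : ℝ) + 5 / s + 2 ≤ R) (hRL : 2 * R < L) (hQ : C ∪ F = Q)
    (hF : F.Nonempty) (hd : Disjoint C F) (hsep : Sep k C F) {t : ℤ × ℤ} (ht : t ∈ grid L)
    (hCt : ∀ c ∈ C, |(idx s c).1 - t.1| ≤ m0 ∧ |(idx s c).2 - t.2| ≤ m0) (h1 : k + 1 ≤ C.card)
    (h2 : nearc L R t = 0 → 2 * (k + 1) ≤ C.card) :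
    Real.log 28.1 / 2 ^ nearc L R t ≤ ∑ t' ∈ blk R t ∩ grid L, tcost s k Q t' := by
  have ht' : (0 ≤ t.1 ∧ t.1 < L) ∧ (0 ≤ t.2 ∧ t.2 < L) := by
    simpa [grid, Finset.mem_product] using ht
  obtain ⟨Ux, hx1, hx2, hx3⟩ := D7c_axis hRL ht'.1.1 ht'.1.2
  obtain ⟨Uy, hy1, hy2, hy3⟩ := D7c_axis hRL ht'.2.1 ht'.2.2
  have hgrid : ∀ t' : ℤ × ℤ, t' ∈ grid L ↔ ((0 ≤ t'.1 ∧ t'.1 < L) ∧ (0 ≤ t'.2 ∧ t'.2 < L)) := by
    intro t'
    simp [grid, Finset.mem_product]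
  have hconf : Conf s k {t | t.1 ∈ Ux ∧ t.2 ∈ Uy} C F (idx s) (blk R t ∩ grid L) := by
    refine ⟨hF, hd, hsep, fun z _ => tile_of_idx hs rfl, ?_, ?_, ?_, ?_⟩
    · intro z hz
      obtain ⟨-, hz1, hz2, hz3, hz4⟩ := hin z (hQ ▸ hz)
      have a1 := D7c_floor hs hz1 hz2
      have a2 := D7c_floor hs hz3 hz4
      exact ⟨hx1 _ a1.1 a1.2, hy1 _ a2.1 a2.2⟩
    · intro z hz t' hzt
      obtain ⟨hg, -⟩ := hin z (hQ ▸ hz)
      obtain ⟨b1, b2, b3, b4⟩ := hzt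
      exact Prod.ext (D7c_uniq hs (fun m => (hg m).1) b1 b2) (D7c_uniq hs (fun m => (hg m).2) b3 b4)
    · rintro t' ⟨htx, hty⟩ ⟨c, hc, z, ⟨b1, b2, b3, b4⟩, hcz⟩
      have c1 : |t'.1 - t.1| ≤ (R : ℤ) :=
        D7c_coord hs hR (hCt c hc).1 b1 b2 (D7c_re.trans hcz)
      have c2 : |t'.2 - t.2| ≤ (R : ℤ) :=
        D7c_coord hs hR (hCt c hc).2 b3 b4 (D7c_im.trans hcz)
      have d1 := hx2 _ htx c1
      have d2 := hy2 _ hty c2
      rw [Finset.mem_inter, hgrid]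
      refine ⟨?_, d1, d2⟩
      have e1 := abs_le.mp c1
      have e2 := abs_le.mp c2
      simp only [blk, Finset.mem_product, Finset.mem_Icc]
      refine ⟨⟨?_, ?_⟩, ?_, ?_⟩ <;> omega
    · intro t' ht'
      rw [Finset.mem_inter, hgrid] at ht'
      exact ⟨hx1 _ ht'.2.1.1 ht'.2.1.2, hy1 _ ht'.2.2.1 ht'.2.2.2⟩
  have hsum : ∑ t' ∈ blk R t ∩ grid L, tcost s k Q t' = cost s k (C ∪ F) (idx s) (blk R t ∩ grid L) := by
    rw [hQ]; rfl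
  rw [hsum]
  rcases hx3 with ⟨hnx, hUx⟩ | ⟨hnx, mx, hUx⟩ <;> rcases hy3 with ⟨hny, hUy⟩ | ⟨hny, my, hUy⟩
  · have hn : nearc L R t = 0 := by
      unfold nearc; rw [if_neg hnx, if_neg hny]
    subst hUx hUy
    have := D7c_final hcost hs hs1 hk hconf (h2 hn)
    rw [hn]; simpa using this
  · have hn : nearc L R t = 1 := by
      unfold nearc; rw [if_neg hnx, if_pos hny]
    subst hUx
    obtain ⟨C', F', ι', J', hc, hcard, hco⟩ := Conf.reflY hs hUy hconf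
    have := D7c_final hcost hs hs1 hk hc (by omega)
    rw [hn, div_le_iff₀ (by positivity)]
    rw [hco] at this
    linarith
  · have hn : nearc L R t = 1 := by
      unfold nearc; rw [if_pos hnx, if_neg hny]
    subst hUy
    obtain ⟨C', F', ι', J', hc, hcard, hco⟩ := Conf.reflX hs hUx hconf
    have := D7c_final hcost hs hs1 hk hc (by omega)
    rw [hn, div_le_iff₀ (by positivity)]
    rw [hco] at this
    linarith
  · have hn : nearc L R t = 2 := by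
      unfold nearc; rw [if_pos hnx, if_pos hny]
    obtain ⟨C', F', ι', J', hc, hcard, hco⟩ := Conf.reflX hs hUx hconf
    obtain ⟨C'', F'', ι'', J'', hc2, hcard2, hco2⟩ := Conf.reflY hs hUy hc
    have := D7c_final hcost hs hs1 hk hc2 (by omega)
    rw [hn, div_le_iff₀ (by positivity)]
    rw [hco2, hco] at this
    linarith

end Pool.Agent.H97.KN
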