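import Pool.Agent.H97.KN.W1

/-!
ROW W2 (MP_72793b_PR, deterministic).  Cheap windows have few bad tiles.

`#bad * s² ≤ ∑_{t ∈ window, bad} ∑_{t' ∈ blk 3 t ∩ grid} tcost t' ≤ ∑_{t ∈ window} ∑_{t' ∈ blk 3 t ∩ grid} tcost t'`; exchange the
sums: every `t'` is in `blk 3 t` for at most `49` tiles `t` (`t ∈ blk 3 t'`), and `t'` is in `window (K+6) (a-3) (b-3) ∩ grid`:
`≤ 49 * (the window sum) < 49 * 4 = 196 ≤ m0 s²`.  So `#bad < m0`.  (`window` tiles are in `grid L` because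
`0 ≤ a`, `a + K ≤ L`.)
-/

namespace Pool.Agent.H97.KN

open Finset MeasureTheory Pool.Agent.H77.KN

theorem win_of_cost {s : ℝ} (hs : 0 < s) (hs1 : s ≤ s0) {L k K m0 : ℕ} (hk : 0 < k) {Q : Finset ℂ}
    (hin : Inside s L Q) (hm0 : 196 ≤ m0 * s ^ 2)
    (h : ∀ a b : ℤ, 0 ≤ a → 0 ≤ b → a + K ≤ L → b + K ≤ L →
      ∑ t ∈ window (K + 6) (a - 3) (b - 3) ∩ grid L, tcost s k Q t < 4) :
    Win s k Q L K m0 := by
  classical
  intro a b ha hb haK hbK
  have hW := h a b ha hb haK hbK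
  set B := (window K a b).filter (fun t => ¬ Good s k Q t) with hB
  set V := window (K + 6) (a - 3) (b - 3) ∩ grid L with hV
  have hgrid : ∀ t ∈ window K a b, t ∈ grid L := by
    intro t ht
    simp only [window, Finset.mem_product, Finset.mem_Ico] at ht
    simp only [grid, Finset.mem_product, Finset.mem_Ico]
    obtain ⟨⟨h1, h2⟩, h3, h4⟩ := ht
    exact ⟨⟨by omega, by omega⟩, by omega, by omega⟩
  have h1 : (B.card : ℝ) * s ^ 2 ≤ ∑ t ∈ B, ∑ t' ∈ blk 3 t ∩ grid L, tcost s k Q t' := by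
    have h2 : ∀ t ∈ B, s ^ 2 ≤ ∑ t' ∈ blk 3 t ∩ grid L, tcost s k Q t' := by
      intro t ht
      rw [hB, Finset.mem_filter] at ht
      exact bad_cost hs hs1 hk hin (hgrid t ht.1) ht.2
    have h3 := Finset.card_nsmul_le_sum B _ _ h2
    rw [nsmul_eq_mul] at h3
    exact h3
  have h4 : ∑ t ∈ B, ∑ t' ∈ blk 3 t ∩ grid L, tcost s k Q t' ≤ ∑ t ∈ B, ∑ t' ∈ V, (if t' ∈ blk 3 t then tcost s k Q t' else 0) := by
    apply Finset.sum_le_sum
    intro t ht
    rw [hB, Finset.mem_filter] at ht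
    rw [← Finset.sum_filter]
    apply Finset.sum_le_sum_of_subset_of_nonneg
    · intro t' ht'
      rw [Finset.mem_inter] at ht'
      rw [Finset.mem_filter, hV, Finset.mem_inter]
      refine ⟨⟨?_, ht'.2⟩, ht'.1⟩
      have h5 := ht'.1
      have h6 := ht.1
      simp only [window, blk, Finset.mem_product, Finset.mem_Ico, Finset.mem_Icc] at h5 h6 ⊢
      push_cast at h5 h6 ⊢
      obtain ⟨⟨a1, a2⟩, a3, a4⟩ := h5
      obtain ⟨⟨b1, b2⟩, b3, b4⟩ := h6
      exact ⟨⟨by omega, by omega⟩, by omega, by omega⟩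
    · intro t' _ _
      exact tcost_nonneg
  have h7 : ∑ t ∈ B, ∑ t' ∈ V, (if t' ∈ blk 3 t then tcost s k Q t' else 0) ≤ ∑ t' ∈ V, 49 * tcost s k Q t' := by
    rw [Finset.sum_comm]
    apply Finset.sum_le_sum
    intro t' _
    rw [← Finset.sum_filter, Finset.sum_const, nsmul_eq_mul]
    apply mul_le_mul_of_nonneg_right _ tcost_nonneg
    have h8 : (B.filter (fun t => t' ∈ blk 3 t)) ⊆ blk 3 t' := by
      intro t ht
      rw [Finset.mem_filter] at ht
      have h5 := ht.2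
      simp only [blk, Finset.mem_product, Finset.mem_Icc] at h5 ⊢
      push_cast at h5 ⊢
      obtain ⟨⟨a1, a2⟩, a3, a4⟩ := h5
      exact ⟨⟨by omega, by omega⟩, by omega, by omega⟩
    have h9 : (blk 3 t').card = 49 := by
      rw [blk, Finset.card_product, Int.card_Icc, Int.card_Icc]
      have e1 : (t'.1 + ((3 : ℕ) : ℤ) + 1 - (t'.1 - ((3 : ℕ) : ℤ))).toNat = 7 := by
        push_cast
        have : t'.1 + 3 + 1 - (t'.1 - 3) = 7 := by ring
        rw [this]; rfl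
      have e2 : (t'.2 + ((3 : ℕ) : ℤ) + 1 - (t'.2 - ((3 : ℕ) : ℤ))).toNat = 7 := by
        push_cast
        have : t'.2 + 3 + 1 - (t'.2 - 3) = 7 := by ring
        rw [this]; rfl
      rw [e1, e2]
    have h10 := Finset.card_le_card h8
    rw [h9] at h10
    exact_mod_cast h10
  rw [← Finset.mul_sum] at h7
  have h11 : (B.card : ℝ) * s ^ 2 < m0 * s ^ 2 := by linarith
  have h12 : (B.card : ℝ) < m0 := lt_of_mul_lt_mul_right h11 (by positivity)
  exact_mod_cast h12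

end Pool.Agent.H97.KN
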