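import Pool.Agent.H97.KN.D3c
import Pool.Agent.H97.KN.D4
import Pool.Agent.H97.KN.D5
import Pool.Agent.H97.KN.D6
import Pool.Agent.H97.KN.D7c
import Pool.Agent.H97.KN.W2

/-!
D8 (assembly, PI): the deterministic theorem.
-/

namespace Pool.Agent.H97.KN

open Finset MeasureTheory Pool.Agent.H77.KN

theorem mem_grid_idx {s : ℝ} (hs : 0 < s) {L : ℕ} {Q : Finset ℂ} (hin : Inside s L Q) {z : ℂ} (hz : z ∈ Q) :
    idx s z ∈ grid L := by
  obtain ⟨_, h1, h2, h3, h4⟩ := hin z hz
  simp only [grid, idx, Finset.mem_product, Finset.mem_Ico]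
  refine ⟨⟨?_, ?_⟩, ?_, ?_⟩
  · exact Int.floor_nonneg.2 (div_nonneg h1.le hs.le)
  · rw [Int.floor_lt, div_lt_iff₀ hs]; exact_mod_cast h2
  · exact Int.floor_nonneg.2 (div_nonneg h3.le hs.le)
  · rw [Int.floor_lt, div_lt_iff₀ hs]; exact_mod_cast h4

theorem cnt_le_all {s : ℝ} (hs : 0 < s) (hs1 : s ≤ s0) {L k K R : ℕ} (hk : 0 < k) (hK : 0 < K) (hKL : K ≤ L)
    {Q : Finset ℂ} (hN : Nice s L k K R Q) (t : ℤ × ℤ) : cnt s Q t ≤ k := by
  by_cases ht : t ∈ grid L
  · apply cnt_le_of_tcost hs hs1 hk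
    simp only [grid, Finset.mem_product, Finset.mem_Ico] at ht
    obtain ⟨⟨h1, h2⟩, h3, h4⟩ := ht
    have hKL' : (K : ℤ) ≤ L := by exact_mod_cast hKL
    have hK' : (0 : ℤ) < K := by exact_mod_cast hK
    have := hN.win (min t.1 (L - K)) (min t.2 (L - K)) (by omega) (by omega) (by omega) (by omega)
    refine lt_of_le_of_lt ?_ this
    refine Finset.single_le_sum (f := fun t => tcost s k Q t) (fun i _ => tcost_nonneg) ?_
    simp only [window, grid, Finset.mem_inter, Finset.mem_product, Finset.mem_Ico]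
    push_cast
    omega
  · rw [cnt_eq_zero hs hN.inside ht]; exact Nat.zero_le _

theorem det (hcost : CostStatement) (hhull : HullStatement) {s : ℝ} (hs : 0 < s) (hs1 : s ≤ s0) {L k m0 K R : ℕ}
    (hk : 0 < k) (hm0 : 196 ≤ m0 * s ^ 2) (hK : 2 * m0 + 2 ≤ K) (hKL : K ≤ L) (hR : (m0 : ℝ) + 5 / s + 2 ≤ R)
    (hRL : 2 * R < L) {ε : ℝ} (hε : 8 * (m0 : ℝ) ^ 2 ≤ ε * s ^ 2 * K ^ 2) {Q : Finset ℂ}
    (hN : Nice s L k K R Q) : Concl ε k Q := by
  classical
  have hin := hN.inside
  have hW : Win s k Q L K m0 := win_of_cost hs hs1 hk hin hm0 hN.win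
  have hcnt := cnt_le_all hs hs1 hk (by omega) hKL hN
  obtain ⟨g, hg, hgG⟩ := exists_inG (s := s) hW (by omega) hKL
  have hKpos : (0 : ℝ) < K := by
    have : 0 < K := by omega
    exact_mod_cast this
  refine ⟨g, hg, ?_, ?_⟩
  · have h1 := card_not_inG hs hW hin (by omega) hKL hcnt
    have h2 : (Q \ comp k Q g).card ≤ (Q.filter (fun z => ¬ InG s k Q L K (idx s z))).card := by
      apply Finset.card_le_card
      intro z hz
      rw [Finset.mem_sdiff] at hz
      rw [Finset.mem_filter]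
      refine ⟨hz.1, fun hG => hz.2 ?_⟩
      unfold comp
      rw [Finset.mem_filter]
      exact ⟨hz.1, inG_reach hs hW (by omega) hg hz.1 hgG hG⟩
    have hsub : comp k Q g ⊆ Q := by unfold comp; exact Finset.filter_subset _ _
    have h3 : (Q \ comp k Q g).card + (comp k Q g).card = Q.card := Finset.card_sdiff_add_card_eq_card hsub
    have h3' : ((Q \ comp k Q g).card : ℝ) + (comp k Q g).card = Q.card := by exact_mod_cast h3
    have h4 : ((Q \ comp k Q g).card : ℝ) * K ^ 2 ≤ 4 * L ^ 2 * m0 ^ 2 * k := by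
      have : (Q \ comp k Q g).card * K ^ 2 ≤ 4 * L ^ 2 * m0 ^ 2 * k :=
        le_trans (Nat.mul_le_mul_right _ h2) h1
      exact_mod_cast this
    have h5 := hN.big
    have h6 : ((Q \ comp k Q g).card : ℝ) * K ^ 2 ≤ ε * Q.card * K ^ 2 := by
      refine le_trans h4 ?_
      have hεQ : (0:ℝ) ≤ ε * s^2 * K^2 := le_trans (by positivity) hε
      have hε0 : 0 ≤ ε := by
        by_contra hneg
        push Not at hneg
        have : ε * s^2 * K^2 < 0 := by
          have : 0 < s^2 * (K:ℝ)^2 := by positivity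
          nlinarith
        linarith
      have e1 : (4 * (L:ℝ) ^ 2 * m0 ^ 2 * k) = (8 * (m0:ℝ)^2) * (L^2 * k / 2) := by ring
      have e2 : ε * (Q.card:ℝ) * K^2 ≥ (ε * s^2 * K^2) * (L^2 * k / 2) := by
        have : ε * K^2 * (s ^ 2 * k * L ^ 2) ≤ ε * K^2 * (2 * Q.card) :=
          mul_le_mul_of_nonneg_left h5 (by positivity)
        nlinarith
      have e3 : (8 * (m0:ℝ)^2) * (L^2 * k / 2) ≤ (ε * s^2 * K^2) * (L^2 * k / 2) :=
        mul_le_mul_of_nonneg_right hε (by positivity)
      linarith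
    have h7 : ((Q \ comp k Q g).card : ℝ) ≤ ε * Q.card := by
      have : 0 < (K:ℝ)^2 := by positivity
      exact le_of_mul_le_mul_right h6 this
    linarith
  · intro x hx hxg
    have hcg : ¬ (knn k Q).Reachable g x := by
      intro h
      apply hxg
      unfold comp
      rw [Finset.mem_filter]
      exact ⟨hx, h⟩
    have hgx : g ∉ comp k Q x := by
      intro h
      unfold comp at h
      rw [Finset.mem_filter] at h
      exact hcg h.2.symm
    have hne : (Q \ comp k Q x).Nonempty := ⟨g, by rw [Finset.mem_sdiff]; exact ⟨hg, hgx⟩⟩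
    have hsep := sep_comp hx hne
    have hdisj : Disjoint (comp k Q x) (Q \ comp k Q x) := Finset.disjoint_sdiff
    have hsub : comp k Q x ⊆ Q := by unfold comp; exact Finset.filter_subset _ _
    have hlt : (comp k Q x).card < 2 * (k + 1) := by
      by_contra hbig
      push Not at hbig
      have h := cost_ge hcost hs hs1 (L := L) (R := R) (m0 := m0) hk hin hR hRL (Finset.union_sdiff_of_subset hsub)
        hne hdisj hsep (mem_grid_idx hs hin hx)
        (fun c hc => by
          have hc' : (knn k Q).Reachable x c := by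
            unfold comp at hc
            exact (Finset.mem_filter.1 hc).2
          exact comp_in_block hs hW hin hK hKL hg hgG hx hcg hc')
        (card_comp hx hne) (fun _ => hbig)
      exact absurd (hN.pos _ (mem_grid_idx hs hin hx)) (not_lt.2 h)
    refine ⟨hlt, fun y hy hyc => ?_⟩
    by_contra hyn
    exact absurd (hhull k (comp k Q x) (Q \ comp k Q x) y hdisj hsep (Finset.mem_sdiff.2 ⟨hy, hyn⟩) hyc)
      (not_le.2 hlt)

end Pool.Agent.H97.KN
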