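import Pool.Agent.H97.KN.D3a

/-!
ROW D9 (MP_72793b_PR, deterministic).  If all tiles are good the graph is connected; monotonicity in `k`; scaling.

`reach_of_allGood`: `idx s p, idx s q ∈ grid L` (`Inside`).  Go first horizontally (row of `p`) from `(i,j)` to `(i',j)`, then
vertically to `(i',j')`: `goodRow_reach` with `K = L`, `a = 0` and `goodCol_reach` with `K = L`, `b = 0`, through a point of the good
tile `(i',j)`.
`knn_mono`: `Near` is monotone in `k`.
`concl_of_allGood`: `Q` is nonempty (the tile `(0,0)` is good), `g` any point, `comp k Q g = Q` by `reach_of_allGood` and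
`SimpleGraph.Reachable.mono`; `(1-ε) |Q| ≤ |Q|`; the other part is vacuous.
`concl_scale`: `z ↦ r z` (`r = (√k')⁻¹ > 0`) is injective and multiplies distances by `r`, so `Near`, `Adj`, `Reachable`
(map the walks, `SimpleGraph.Iso` or `Reachable.map` in both directions), `comp` (= image of comp), the cardinalities and convex hulls
(`convexHull` of the image under a linear map, `LinearMap.image_convexHull` / `Set.image`) are transported.
-/

namespace Pool.Agent.H97.KN

open Finset MeasureTheory Pool.Agent.H77.KN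

theorem D9_idx {s : ℝ} (hs : 0 < s) {L : ℕ} {Q : Finset ℂ} (hin : Inside s L Q) {p : ℂ}
    (hp : p ∈ Q) : 0 ≤ (idx s p).1 ∧ (idx s p).1 < L ∧ 0 ≤ (idx s p).2 ∧ (idx s p).2 < L := by
  obtain ⟨_, h1, h2, h3, h4⟩ := hin p hp
  refine ⟨Int.floor_nonneg.2 (div_nonneg h1.le hs.le), ?_,
    Int.floor_nonneg.2 (div_nonneg h3.le hs.le), ?_⟩
  · show ⌊p.re / s⌋ < (L : ℤ)
    rw [Int.floor_lt, div_lt_iff₀ hs]
    exact_mod_cast h2
  · show ⌊p.im / s⌋ < (L : ℤ)
    rw [Int.floor_lt, div_lt_iff₀ hs]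
    exact_mod_cast h4

theorem D9_grid {L : ℕ} {i j : ℤ} (h1 : 0 ≤ i) (h2 : i < L) (h3 : 0 ≤ j) (h4 : j < L) :
    (i, j) ∈ grid L := by
  unfold grid
  rw [Finset.mem_product, Finset.mem_Ico, Finset.mem_Ico]
  exact ⟨⟨h1, h2⟩, ⟨h3, h4⟩⟩

theorem D9_point {s : ℝ} {k : ℕ} {Q : Finset ℂ} {t : ℤ × ℤ} (h : Good s k Q t) :
    ∃ r ∈ Q, idx s r = t := by
  classical
  have h1 : 0 < (Q.filter (fun z => idx s z = t)).card := h.1
  obtain ⟨r, hr⟩ := Finset.card_pos.1 h1
  rw [Finset.mem_filter] at hr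
  exact ⟨r, hr.1, hr.2⟩

theorem reach_of_allGood {s : ℝ} (hs : 0 < s) {L k : ℕ} {Q : Finset ℂ} (hin : Inside s L Q)
    (h : ∀ t ∈ grid L, Good s k Q t) {p q : ℂ} (hp : p ∈ Q) (hq : q ∈ Q) : (knn k Q).Reachable p q := by
  obtain ⟨p1, p2, p3, p4⟩ := D9_idx hs hin hp
  obtain ⟨q1, q2, q3, q4⟩ := D9_idx hs hin hq
  obtain ⟨r, hr, hri⟩ := D9_point (h _ (D9_grid q1 q2 p3 p4))
  have r1 : (idx s r).1 = (idx s q).1 := by rw [hri]
  have r2 : (idx s r).2 = (idx s p).2 := by rw [hri]
  have hrow : GoodRow s k Q L 0 (idx s p).2 := by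
    intro i hi1 hi2
    exact h _ (D9_grid hi1 (by linarith) p3 p4)
  have hcol : GoodCol s k Q L 0 (idx s q).1 := by
    intro j hj1 hj2
    exact h _ (D9_grid q1 q2 hj1 (by linarith))
  have h1 := goodRow_reach hs hrow hp hr rfl r2 p1 (by linarith) (by rw [r1]; exact q1)
    (by rw [r1]; linarith)
  have h2 := goodCol_reach hs hcol hr hq r1 rfl (by rw [r2]; exact p3) (by rw [r2]; linarith) q3
    (by linarith)
  exact h1.trans h2

theorem knn_mono {k k' : ℕ} (h : k' ≤ k) (Q : Finset ℂ) : knn k' Q ≤ knn k Q := by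
  intro x y hxy
  obtain ⟨h1, h2, h3, h4⟩ := hxy
  refine ⟨h1, h2, h3, ?_⟩
  rcases h4 with h4 | h4
  · exact Or.inl (lt_of_lt_of_le h4 h)
  · exact Or.inr (lt_of_lt_of_le h4 h)

theorem concl_of_allGood {s : ℝ} (hs : 0 < s) {L k k' : ℕ} (hL : 0 < L) (hkk : k' ≤ k) {Q : Finset ℂ}
    (hin : Inside s L Q) (h : ∀ t ∈ grid L, Good s k' Q t) {ε : ℝ} (hε : 0 ≤ ε) : Concl ε k Q := by
  classical
  have hL' : (0 : ℤ) < L := by exact_mod_cast hL
  obtain ⟨g, hg, _⟩ := D9_point (h (0, 0) (D9_grid le_rfl hL' le_rfl hL'))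
  have hreach : ∀ x ∈ Q, x ∈ comp k Q g := by
    intro x hx
    unfold comp
    rw [Finset.mem_filter]
    exact ⟨hx, (reach_of_allGood hs hin h hg hx).mono (knn_mono hkk Q)⟩
  have hcomp : comp k Q g = Q := by
    apply Finset.Subset.antisymm
    · unfold comp
      exact Finset.filter_subset _ _
    · exact hreach
  refine ⟨g, hg, ?_, fun x hx hx2 => absurd (hreach x hx) hx2⟩
  rw [hcomp]
  have h0 : (0 : ℝ) ≤ Q.card := Nat.cast_nonneg _
  nlinarith

/-- `Near` is transported by scaling -/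
theorem D9_near {r : ℝ} (hr : 0 < r) {k : ℕ} {P : Finset ℂ} {x y : ℂ} (h : Near k P x y) :
    Near k (P.image (fun z => r • z)) (r • x) (r • y) := by
  classical
  have hinj : Function.Injective (fun z : ℂ => r • z) := smul_right_injective ℂ hr.ne'
  have hd : ∀ a b : ℂ, dist (r • a) (r • b) = r * dist a b := by
    intro a b
    rw [dist_smul₀, Real.norm_of_nonneg hr.le]
  unfold Near at h ⊢
  have e : (P.image (fun z => r • z)).filter
      (fun z => z ≠ r • x ∧ dist (r • x) z < dist (r • x) (r • y)) =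
      (P.filter (fun z => z ≠ x ∧ dist x z < dist x y)).image (fun z => r • z) := by
    ext z
    simp only [Finset.mem_filter, Finset.mem_image]
    constructor
    · rintro ⟨⟨w, hw, rfl⟩, h1, h2⟩
      refine ⟨w, ⟨hw, fun h0 => h1 (by rw [h0]), ?_⟩, rfl⟩
      rw [hd, hd] at h2
      exact lt_of_mul_lt_mul_left h2 hr.le
    · rintro ⟨w, ⟨hw, h1, h2⟩, rfl⟩
      refine ⟨⟨w, hw, rfl⟩, fun h0 => h1 (hinj h0), ?_⟩
      rw [hd, hd]
      exact mul_lt_mul_of_pos_left h2 hr
  have e2 : ((P.image (fun z => r • z)).filter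
      (fun z => z ≠ r • x ∧ dist (r • x) z < dist (r • x) (r • y))).card =
      (P.filter (fun z => z ≠ x ∧ dist x z < dist x y)).card := by
    rw [e, Finset.card_image_of_injective _ hinj]
  refine lt_of_eq_of_lt ?_ h
  convert e2

theorem D9_reach {r : ℝ} (hr : 0 < r) {k : ℕ} {P : Finset ℂ} {x y : ℂ}
    (h : (knn k P).Reachable x y) :
    (knn k (P.image (fun z => r • z))).Reachable (r • x) (r • y) := by
  classical
  have hinj : Function.Injective (fun z : ℂ => r • z) := smul_right_injective ℂ hr.ne'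
  let φ : knn k P →g knn k (P.image (fun z => r • z)) :=
    { toFun := fun z => r • z
      map_rel' := by
        rintro a b ⟨h1, h2, h3, h4⟩
        refine ⟨Finset.mem_image_of_mem _ h1, Finset.mem_image_of_mem _ h2,
          fun h0 => h3 (hinj h0), ?_⟩
        rcases h4 with h4 | h4
        · exact Or.inl (D9_near hr h4)
        · exact Or.inr (D9_near hr h4) }
  exact h.map φ

theorem D9_image {r : ℝ} (hr : 0 < r) (P : Finset ℂ) :
    (P.image (fun z : ℂ => r • z)).image (fun z : ℂ => r⁻¹ • z) = P := by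
  classical
  rw [Finset.image_image]
  have : ((fun z : ℂ => r⁻¹ • z) ∘ fun z : ℂ => r • z) = id := by
    funext z
    show r⁻¹ • r • z = z
    rw [smul_smul, inv_mul_cancel₀ hr.ne', one_smul]
  rw [this, Finset.image_id]

theorem D9_reach_iff {r : ℝ} (hr : 0 < r) {k : ℕ} {P : Finset ℂ} {x y : ℂ} :
    (knn k (P.image (fun z => r • z))).Reachable (r • x) (r • y) ↔ (knn k P).Reachable x y := by
  constructor
  · intro h
    have h1 := D9_reach (inv_pos.2 hr) h
    rw [smul_smul, smul_smul, inv_mul_cancel₀ hr.ne', one_smul, one_smul] at h1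
    have h2 := D9_image hr P
    rw [← h2]
    convert h1
  · exact D9_reach hr

theorem D9_comp {r : ℝ} (hr : 0 < r) (k : ℕ) (P : Finset ℂ) (x : ℂ) :
    comp k (P.image (fun z => r • z)) (r • x) = (comp k P x).image (fun z => r • z) := by
  classical
  ext z
  unfold comp
  simp only [Finset.mem_filter, Finset.mem_image]
  constructor
  · rintro ⟨⟨w, hw, rfl⟩, h⟩
    exact ⟨w, ⟨hw, (D9_reach_iff hr).1 (by convert h)⟩, rfl⟩
  · rintro ⟨w, ⟨hw, h⟩, rfl⟩
    refine ⟨⟨w, hw, rfl⟩, ?_⟩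
    have := (D9_reach_iff hr).2 h
    convert this

open scoped Pointwise in
theorem concl_scale {ε : ℝ} {k k' : ℕ} (hk' : 0 < k') {P : Finset ℂ} (h : Concl ε k (scale k' P)) :
    Concl ε k P := by
  classical
  have hk2 : (0 : ℝ) < k' := by exact_mod_cast hk'
  have hr : 0 < (Real.sqrt k')⁻¹ := inv_pos.2 (Real.sqrt_pos.2 hk2)
  set r : ℝ := (Real.sqrt k')⁻¹ with hrdef
  have hinj : Function.Injective (fun z : ℂ => r • z) := smul_right_injective ℂ hr.ne'
  have hsc : scale k' P = P.image (fun z => r • z) := by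
    unfold scale
    rw [← hrdef]
  rw [hsc] at h
  obtain ⟨g', hg', h1, h2⟩ := h
  obtain ⟨g, hg, rfl⟩ := Finset.mem_image.1 hg'
  refine ⟨g, hg, ?_, ?_⟩
  · rw [D9_comp hr, Finset.card_image_of_injective _ hinj,
      Finset.card_image_of_injective _ hinj] at h1
    exact h1
  · intro x hx hxg
    have hx2 : r • x ∉ comp k (P.image (fun z => r • z)) (r • g) := by
      rw [D9_comp hr]
      intro h0
      obtain ⟨w, hw, hwx⟩ := Finset.mem_image.1 h0
      have : w = x := hinj hwx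
      rw [this] at hw
      exact hxg hw
    obtain ⟨h3, h4⟩ := h2 (r • x) (Finset.mem_image_of_mem _ hx) hx2
    rw [D9_comp hr, Finset.card_image_of_injective _ hinj] at h3
    refine ⟨h3, fun y hy hyc => ?_⟩
    have h5 : r • y ∈ convexHull ℝ (comp k (P.image (fun z => r • z)) (r • x) : Set ℂ) := by
      rw [D9_comp hr, Finset.coe_image]
      have h6 : (fun z : ℂ => r • z) '' (comp k P x : Set ℂ) = r • (comp k P x : Set ℂ) := rfl
      rw [h6, convexHull_smul]
      exact Set.smul_mem_smul_set hyc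
    have h7 := h4 (r • y) (Finset.mem_image_of_mem _ hy) h5
    rw [D9_comp hr] at h7
    obtain ⟨w, hw, hwy⟩ := Finset.mem_image.1 h7
    have : w = y := hinj hwy
    rw [← this]
    exact hw

end Pool.Agent.H97.KN
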