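import Mathlib

/-!
# MP_72793b: the definitions of the final statement (Poisson process, k nearest neighbour graph, components)
-/

namespace Pool.Agent.H97.KN

open MeasureTheory

/-- the square `[0,a] x [0,a]` -/
def square (a : ℝ) : Set ℂ := {z | 0 ≤ z.re ∧ z.re ≤ a ∧ 0 ≤ z.im ∧ z.im ≤ a}

open Classical in
/-- number of points of `P` in `A` -/
noncomputable def num (P : Finset ℂ) (A : Set ℂ) : ℕ := (P.filter (fun z => z ∈ A)).card

/-- `P` is a Poisson point process of intensity `1` in `S`: the numbers of points in disjoint measurable subsets of `S`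
are independent Poisson variables whose means are the areas. -/
structure IsPoissonProcess {Ω : Type*} [MeasurableSpace Ω] (μ : Measure Ω) (P : Ω → Finset ℂ) (S : Set ℂ) : Prop where
  prob : IsProbabilityMeasure μ
  sub : ∀ ω, ∀ z ∈ P ω, z ∈ S
  meas : ∀ A, MeasurableSet A → Measurable (fun ω => num (P ω) A)
  law : ∀ A, MeasurableSet A → A ⊆ S → ∀ m : ℕ,
    μ {ω | num (P ω) A = m} =
      ENNReal.ofReal (Real.exp (-(volume A).toReal) * (volume A).toReal ^ m / m.factorial)
  indep : ∀ (r : ℕ) (A : Fin r → Set ℂ), (∀ i, MeasurableSet (A i)) → (∀ i, A i ⊆ S) →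
    Pairwise (fun i j => Disjoint (A i) (A j)) →
    ProbabilityTheory.iIndepFun (fun i ω => num (P ω) (A i)) μ

open Classical in
/-- `y` is one of the `k` nearest points of `x`: fewer than `k` points of `P`, other than `x`, are strictly closer to `x`.
(If there are ties at the `k`-th distance, all tied points are counted; almost surely there are no ties.) -/
def Near (k : ℕ) (P : Finset ℂ) (x y : ℂ) : Prop :=
  (P.filter (fun z => z ≠ x ∧ dist x z < dist x y)).card < k

/-- the `k` nearest neighbour graph on `P` -/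
def knn (k : ℕ) (P : Finset ℂ) : SimpleGraph ℂ where
  Adj x y := x ∈ P ∧ y ∈ P ∧ x ≠ y ∧ (Near k P x y ∨ Near k P y x)
  symm := ⟨fun _ _ h => ⟨h.2.1, h.1, h.2.2.1.symm, h.2.2.2.symm⟩⟩
  loopless := ⟨fun _ h => h.2.2.1 rfl⟩

open Classical in
/-- the vertex set of the component of `x` -/
noncomputable def comp (k : ℕ) (P : Finset ℂ) (x : ℂ) : Finset ℂ := P.filter (fun y => (knn k P).Reachable x y)

/-- one component contains at least `(1 - ε) |P|` points, and every other component is convex and has fewer than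
`2 (k + 1)` vertices -/
def Concl (ε : ℝ) (k : ℕ) (P : Finset ℂ) : Prop :=
  ∃ g ∈ P, (1 - ε) * P.card ≤ (comp k P g).card ∧
    ∀ x ∈ P, x ∉ comp k P g →
      (comp k P x).card < 2 * (k + 1) ∧ ∀ y ∈ P, y ∈ convexHull ℝ (comp k P x : Set ℂ) → y ∈ comp k P x

end Pool.Agent.H97.KN
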