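import Mathlib
import Pool.Agent.H97.KN.Stmt
import Pool.Agent.H77.KN.CostDefs

/-!
# MP_72793b: the tile bookkeeping (used in the proof only; the definitions of the statement are in `Stmt`)
-/

namespace Pool.Agent.H97.KN

open Finset MeasureTheory Pool.Agent.H77.KN

/-! ### tiles (all lengths in units of `√k`) -/

/-- the points in units of `√k` -/
noncomputable def scale (k : ℕ) (P : Finset ℂ) : Finset ℂ := P.image (fun z => ((Real.sqrt k)⁻¹ : ℝ) • z)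

/-- index of the tile of side `s` containing `z` -/
noncomputable def idx (s : ℝ) (z : ℂ) : ℤ × ℤ := (⌊z.re / s⌋, ⌊z.im / s⌋)

/-- number of points in the tile `t` -/
noncomputable def cnt (s : ℝ) (Q : Finset ℂ) (t : ℤ × ℤ) : ℕ := (Q.filter (fun z => idx s z = t)).card

/-- cost of the tile `t` -/
noncomputable def tcost (s : ℝ) (k : ℕ) (Q : Finset ℂ) (t : ℤ × ℤ) : ℝ := s ^ 2 * hh (cnt s Q t / (s ^ 2 * k))

/-- the tiles of the square `[0, L s]²` -/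
noncomputable def grid (L : ℕ) : Finset (ℤ × ℤ) := Finset.Ico 0 (L : ℤ) ×ˢ Finset.Ico 0 (L : ℤ)

/-- the block of radius `r` around `t` -/
noncomputable def blk (r : ℕ) (t : ℤ × ℤ) : Finset (ℤ × ℤ) :=
  Finset.Icc (t.1 - r) (t.1 + r) ×ˢ Finset.Icc (t.2 - r) (t.2 + r)

/-- the window `[a,a+K) x [b,b+K)` -/
noncomputable def window (K : ℕ) (a b : ℤ) : Finset (ℤ × ℤ) := Finset.Ico a (a + K) ×ˢ Finset.Ico b (b + K)

/-- good tile -/
def Good (s : ℝ) (k : ℕ) (Q : Finset ℂ) (t : ℤ × ℤ) : Prop :=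
  1 ≤ cnt s Q t ∧ ∑ t' ∈ blk 3 t, cnt s Q t' < k

/-- all points are in the open square and on no grid line -/
def Inside (s : ℝ) (L : ℕ) (Q : Finset ℂ) : Prop :=
  ∀ z ∈ Q, (∀ m : ℤ, z.re ≠ m * s ∧ z.im ≠ m * s) ∧ 0 < z.re ∧ z.re < L * s ∧ 0 < z.im ∧ z.im < L * s

open Classical in
/-- every window has fewer than `m0` bad tiles -/
def Win (s : ℝ) (k : ℕ) (Q : Finset ℂ) (L K m0 : ℕ) : Prop :=
  ∀ a b : ℤ, 0 ≤ a → 0 ≤ b → a + K ≤ L → b + K ≤ L →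
    ((window K a b).filter (fun t => ¬ Good s k Q t)).card < m0

/-- the column `i` is good on the rows `[b,b+K)` -/
def GoodCol (s : ℝ) (k : ℕ) (Q : Finset ℂ) (K : ℕ) (b i : ℤ) : Prop := ∀ j, b ≤ j → j < b + K → Good s k Q (i, j)

/-- the row `j` is good on the columns `[a,a+K)` -/
def GoodRow (s : ℝ) (k : ℕ) (Q : Finset ℂ) (K : ℕ) (a j : ℤ) : Prop := ∀ i, a ≤ i → i < a + K → Good s k Q (i, j)

/-- `t` lies in a good row or column of a window -/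
def InG (s : ℝ) (k : ℕ) (Q : Finset ℂ) (L K : ℕ) (t : ℤ × ℤ) : Prop :=
  ∃ a b : ℤ, 0 ≤ a ∧ 0 ≤ b ∧ a + K ≤ L ∧ b + K ≤ L ∧ a ≤ t.1 ∧ t.1 < a + K ∧ b ≤ t.2 ∧ t.2 < b + K ∧
    (GoodCol s k Q K b t.1 ∨ GoodRow s k Q K a t.2)

/-- the number (0, 1 or 2) of axes in which the block of radius `R` around `t` leaves the grid -/
def nearc (L R : ℕ) (t : ℤ × ℤ) : ℕ :=
  (if t.1 < R ∨ (L : ℤ) ≤ t.1 + R then 1 else 0) + (if t.2 < R ∨ (L : ℤ) ≤ t.2 + R then 1 else 0)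

/-- the deterministic hypotheses, which hold with high probability -/
structure Nice (s : ℝ) (L k K R : ℕ) (Q : Finset ℂ) : Prop where
  inside : Inside s L Q
  win : ∀ a b : ℤ, 0 ≤ a → 0 ≤ b → a + K ≤ L → b + K ≤ L →
    ∑ t ∈ window (K + 6) (a - 3) (b - 3) ∩ grid L, tcost s k Q t < 4
  pos : ∀ t ∈ grid L, ∑ t' ∈ blk R t ∩ grid L, tcost s k Q t' < Real.log 28.1 / 2 ^ nearc L R t
  big : s ^ 2 * k * L ^ 2 ≤ 2 * Q.card

/-- a separated configuration living in the tiles of `U`, seen through the tiles of `J` -/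
structure Conf (s : ℝ) (k : ℕ) (U : Set (ℤ × ℤ)) (C F : Finset ℂ) (ι : ℂ → ℤ × ℤ) (J : Finset (ℤ × ℤ)) : Prop where
  ne : F.Nonempty
  disj : Disjoint C F
  sep : Sep k C F
  mem_tile : ∀ z ∈ C ∪ F, z ∈ tile s (ι z)
  mem : ∀ z ∈ C ∪ F, ι z ∈ U
  uniq : ∀ z ∈ C ∪ F, ∀ t : ℤ × ℤ, z ∈ tile s t → t = ι z
  cov : ∀ t ∈ U, (∃ c ∈ C, ∃ z ∈ tile s t, dist c z ≤ 5) → t ∈ J
  sub : ∀ t ∈ J, t ∈ U

end Pool.Agent.H97.KN
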