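import Pool.Agent.H97.KN.Defs

/-!
Definitions for the existence of the Poisson process (finite sequences, density `e^{-|S|}/N!` with respect to the
product measures).
-/

namespace Pool.Agent.H97.KN

open Finset MeasureTheory Pool.Agent.H77.KN

/-- finite sequences of points -/
abbrev Seqs := Σ N : ℕ, (Fin N → ℂ)

/-- the law of the Poisson process on finite sequences -/
noncomputable def ppm (S : Set ℂ) : Measure Seqs :=
  Measure.sum (fun N : ℕ => ENNReal.ofReal (Real.exp (-(volume S).toReal) / N.factorial) •
    (Measure.pi (fun _ : Fin N => volume.restrict S)).map (Sigma.mk N))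

/-- number of terms of the sequence in `A` -/
noncomputable def cntA (A : Set ℂ) (ω : Seqs) : ℕ := ∑ j, Set.indicator A (fun _ => 1) (ω.2 j)

/-- sequences without repetition, with all terms in `S` -/
def GoodSeq (S : Set ℂ) : Set Seqs := {ω | Function.Injective ω.2 ∧ ∀ j, ω.2 j ∈ S}

open Classical in
/-- the point set -/
noncomputable def ppP (S : Set ℂ) (ω : Seqs) : Finset ℂ := if ω ∈ GoodSeq S then Finset.univ.image ω.2 else ∅

end Pool.Agent.H97.KN
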