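import Pool.Agent.H97.KN.E0

/-!
ROW E1 (MP_72793b_PR, measure theory).  Multiplicative functionals of the Poisson measure.

`∫ F ∂(ppm S) = ∑_N e^{-|S|}/N! ∫ F ⟨N, x⟩ ∂(pi)` (`integral_sum_measure` / `hasSum_integral_measure`, `integral_smul_measure`,
`MeasureTheory.integral_map` with `Sigma.mk N` measurable (`measurable_sigmaMk` or by the definition of the Sigma σ-algebra;
it is a measurable embedding)); for `F = ∏ j, g (ω.2 j)`: `∫ = (∫_S g)^N` (`MeasureTheory.integral_fintype_prod_eq_prod` /
`integral_fintype_prod_eq_pow`); the sum is `e^{-|S|} exp (∫_S g)` (`Complex.exp` as `NormedSpace.expSeries`, `Complex.hasSum_exp`..).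
Integrability: `‖F‖ ≤ 1` and the total mass is `∑ e^{-|S|} |S|^N / N! = 1` (`isProbabilityMeasure_ppm`, computed with `lintegral`/measure of
`univ`: `(Measure.pi _) univ = (volume S)^N`).  Measurability of `F` on the Sigma type: check on each `N`
(`measurable_sigma_iff`-like; the σ-algebra of a Sigma type is `⨅ N, comap`... i.e. a set is measurable iff each preimage under
`Sigma.mk N` is, `MeasurableSpace.measurableSet_iInf`/`measurableSet_sigma`..).
-/

namespace Pool.Agent.H97.KN

open Finset MeasureTheory Pool.Agent.H77.KN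

theorem measurable_of_sigma {β : Type*} [MeasurableSpace β] {F : Seqs → β}
    (h : ∀ N, Measurable (fun x : Fin N → ℂ => F ⟨N, x⟩)) : Measurable F := by
  intro s hs
  exact MeasurableSpace.measurableSet_iInf.2 fun N => h N hs

theorem E1_mk (N : ℕ) : Measurable (fun x : Fin N → ℂ => (⟨N, x⟩ : Seqs)) := fun _ hs =>
  MeasurableSpace.measurableSet_iInf.1 hs N

theorem isProbabilityMeasure_ppm {S : Set ℂ} (hS : MeasurableSet S) (hfin : volume S ≠ ⊤) :
    IsProbabilityMeasure (ppm S) := by
  constructor
  have _ := hS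
  have hv : volume S = ENNReal.ofReal (volume S).toReal := (ENNReal.ofReal_toReal hfin).symm
  have hterm : ∀ N : ℕ, (ENNReal.ofReal (Real.exp (-(volume S).toReal) / N.factorial) •
      (Measure.pi (fun _ : Fin N => volume.restrict S)).map (Sigma.mk N)) (Set.univ : Set Seqs)
      = ENNReal.ofReal (Real.exp (-(volume S).toReal) * ((volume S).toReal ^ N / N.factorial)) := by
    intro N
    rw [Measure.smul_apply, Measure.map_apply (E1_mk N) MeasurableSet.univ, Set.preimage_univ, Measure.pi_univ,
      smul_eq_mul]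
    simp only [Measure.restrict_apply MeasurableSet.univ, Set.univ_inter, Finset.prod_const, Finset.card_univ,
      Fintype.card_fin]
    rw [hv, ENNReal.toReal_ofReal ENNReal.toReal_nonneg, ← ENNReal.ofReal_pow ENNReal.toReal_nonneg,
      ← ENNReal.ofReal_mul (by positivity)]
    congr 1
    ring
  unfold ppm
  rw [Measure.sum_apply _ MeasurableSet.univ]
  simp_rw [hterm]
  have hsum := (NormedSpace.expSeries_div_hasSum_exp ((volume S).toReal)).mul_left (Real.exp (-(volume S).toReal))
  rw [← Real.exp_eq_exp_ℝ, ← Real.exp_add, neg_add_cancel, Real.exp_zero] at hsum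
  rw [← ENNReal.ofReal_tsum_of_nonneg (fun N => by positivity) hsum.summable, hsum.tsum_eq, ENNReal.ofReal_one]

theorem integral_prod_ppm {S : Set ℂ} (hS : MeasurableSet S) (hfin : volume S ≠ ⊤) {g : ℂ → ℂ} (hg : Measurable g)
    (hg1 : ∀ z, ‖g z‖ ≤ 1) :
    ∫ ω, ∏ j, g (ω.2 j) ∂(ppm S) = Complex.exp ((∫ z in S, g z) - (volume S).toReal) := by
  have hprob := isProbabilityMeasure_ppm hS hfin
  have hFm : Measurable (fun ω : Seqs => ∏ j, g (ω.2 j)) := by
    refine measurable_of_sigma fun N => ?_
    show Measurable (fun x : Fin N → ℂ => ∏ j : Fin N, g (x j))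
    exact Finset.measurable_fun_prod Finset.univ fun j _ => hg.comp (measurable_pi_apply j)
  have hFb : ∀ ω : Seqs, ‖∏ j, g (ω.2 j)‖ ≤ 1 := by
    intro ω
    rw [norm_prod]
    exact Finset.prod_le_one (fun _ _ => norm_nonneg _) fun j _ => hg1 _
  have hint : Integrable (fun ω : Seqs => ∏ j, g (ω.2 j)) (ppm S) :=
    Integrable.of_bound hFm.aestronglyMeasurable 1 (Filter.Eventually.of_forall hFb)
  have hs := hasSum_integral_measure (f := fun ω : Seqs => ∏ j, g (ω.2 j)) hint
  have hterm : ∀ N : ℕ, ∫ ω : Seqs, ∏ j, g (ω.2 j) ∂(ENNReal.ofReal (Real.exp (-(volume S).toReal) / N.factorial) •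
      (Measure.pi (fun _ : Fin N => volume.restrict S)).map (Sigma.mk N))
      = Complex.exp (-((volume S).toReal : ℂ)) * ((∫ z in S, g z) ^ N / N.factorial) := by
    intro N
    rw [integral_smul_measure, integral_map (E1_mk N).aemeasurable hFm.aestronglyMeasurable]
    have h1 : ∫ x : Fin N → ℂ, ∏ j, g (x j) ∂(Measure.pi (fun _ : Fin N => volume.restrict S))
        = (∫ z in S, g z) ^ N := by
      rw [integral_fintype_prod_eq_pow, Fintype.card_fin]
    rw [h1, ENNReal.toReal_ofReal (by positivity), Complex.real_smul]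
    push_cast
    ring
  have hsum := (NormedSpace.expSeries_div_hasSum_exp (∫ z in S, g z)).mul_left
    (Complex.exp (-((volume S).toReal : ℂ)))
  rw [← Complex.exp_eq_exp_ℂ, ← Complex.exp_add] at hsum
  have hs2 : HasSum (fun N : ℕ => Complex.exp (-((volume S).toReal : ℂ)) * ((∫ z in S, g z) ^ N / N.factorial))
      (∫ ω, ∏ j, g (ω.2 j) ∂(ppm S)) := by
    refine HasSum.congr_fun hs ?_
    intro N
    exact (hterm N).symm
  rw [hs2.unique hsum]
  congr 1
  ring

end Pool.Agent.H97.KN
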