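import Pool.Agent.H97.KN.E0

/-!
ROW E2 (MP_72793b_PR, measure theory).  Almost every sequence is without repetition and inside `S`.

`measurableSet_goodSeq`: on each `N`: `{x | Injective x ∧ ∀ j, x j ∈ S}` is a finite intersection of measurable sets
(`{x | x i ≠ x j}` is open).  `ppm_goodSeq`: `ppm S (GoodSeq S)ᶜ = ∑_N c_N pi {x | ¬ ...}` and `{¬}` is the finite union of
`{x | x j ∉ S}` (measure `0`: `Measure.pi` with the factor `volume.restrict S Sᶜ = 0`, `Measure.pi_pi` or `Measure.ae_eval..`,
quasi measure preserving evaluation `Measure.quasiMeasurePreserving_eval`) and `{x | x i = x j}`, `i ≠ j` (measure `0`: Fubini / or: the measure is absolutely continuous w.r.t.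
`volume` on `Fin N → ℂ` (`Measure.pi` restrict: `Measure.restrict_pi_pi`), and `{x | x i = x j}` is a proper subspace of `Fin N → ℂ`:
`MeasureTheory.Measure.addHaar_submodule`).
`num_ppP`: for `ω ∈ GoodSeq S`, `num (univ.image ω.2) A = cntA A ω` (injectivity: `Finset.card_image_of_injective` after
`Finset.filter_image`; `cntA = card of the filter`).
-/

namespace Pool.Agent.H97.KN

open Finset MeasureTheory Pool.Agent.H77.KN

theorem e2_meas {s : Set Seqs} (h : ∀ N, MeasurableSet (Sigma.mk N ⁻¹' s)) : MeasurableSet s := by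
  rw [MeasurableSpace.measurableSet_iInf]
  exact h

theorem e2_mk (N : ℕ) :
    Measurable (Sigma.mk (β := fun N : ℕ => (Fin N → ℂ)) N) := by
  intro s hs
  rw [MeasurableSpace.measurableSet_iInf] at hs
  exact hs N

theorem measurableSet_goodSeq {S : Set ℂ} (hS : MeasurableSet S) : MeasurableSet (GoodSeq S) := by
  refine e2_meas fun N => ?_
  have e : Sigma.mk N ⁻¹' (GoodSeq S) =
      (⋂ i : Fin N, ⋂ j : Fin N, {x : Fin N → ℂ | x i = x j → i = j}) ∩
        ⋂ j : Fin N, {x : Fin N → ℂ | x j ∈ S} := by
    ext x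
    simp only [GoodSeq, Set.mem_preimage, Set.mem_ofPred_eq, Set.mem_inter_iff, Set.mem_iInter]
    rfl
  rw [e]
  refine MeasurableSet.inter (MeasurableSet.iInter fun i => MeasurableSet.iInter fun j => ?_)
    (MeasurableSet.iInter fun j => measurable_pi_apply j hS)
  by_cases hij : i = j
  · have : {x : Fin N → ℂ | x i = x j → i = j} = Set.univ := by
      ext x
      simp [hij]
    rw [this]
    exact MeasurableSet.univ
  · have : {x : Fin N → ℂ | x i = x j → i = j} = {x : Fin N → ℂ | x i = x j}ᶜ := by
      ext x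
      simp [hij]
    rw [this]
    exact (measurableSet_eq_fun (measurable_pi_apply i) (measurable_pi_apply j)).compl

theorem e2_diag {N : ℕ} {i j : Fin N} (hij : i ≠ j) :
    ∀ᵐ x : Fin N → ℂ, x i ≠ x j := by
  have h := Measure.addHaar_submodule (volume : Measure (Fin N → ℂ))
    (LinearMap.ker ((LinearMap.proj i : (Fin N → ℂ) →ₗ[ℝ] ℂ) - LinearMap.proj j)) (by
      intro htop
      have h1 : (Pi.single i (1 : ℂ) : Fin N → ℂ) ∈
          LinearMap.ker ((LinearMap.proj i : (Fin N → ℂ) →ₗ[ℝ] ℂ) - LinearMap.proj j) := by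
        rw [htop]
        exact Submodule.mem_top
      rw [LinearMap.mem_ker, LinearMap.sub_apply, LinearMap.proj_apply, LinearMap.proj_apply,
        Pi.single_eq_same, Pi.single_eq_of_ne hij.symm] at h1
      simp at h1)
  rw [ae_iff]
  refine measure_mono_null (fun x hx => ?_) h
  have hx' : x i = x j := not_not.1 hx
  show x ∈ LinearMap.ker _
  rw [LinearMap.mem_ker, LinearMap.sub_apply, LinearMap.proj_apply, LinearMap.proj_apply, hx',
    sub_self]

theorem ppm_goodSeq {S : Set ℂ} (hS : MeasurableSet S) (hfin : volume S ≠ ⊤) : ppm S (GoodSeq S)ᶜ = 0 := by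
  have hm := measurableSet_goodSeq hS
  unfold ppm
  rw [Measure.sum_apply _ hm.compl]
  refine ENNReal.tsum_eq_zero.2 fun N => ?_
  rw [Measure.smul_apply, Measure.map_apply (e2_mk N) hm.compl]
  have h0 : (Measure.pi (fun _ : Fin N => volume.restrict S))
      (Sigma.mk (β := fun N : ℕ => (Fin N → ℂ)) N ⁻¹' (GoodSeq S)ᶜ) = 0 := by
    have h1 : ∀ᵐ x ∂(Measure.pi (fun _ : Fin N => volume.restrict S)), ∀ j, x j ∈ S := by
      rw [ae_all_iff]
      intro j
      have h2 : ∀ᵐ z ∂(volume.restrict S), z ∈ S := ae_restrict_mem hS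
      exact (Measure.tendsto_eval_ae_ae (μ := fun _ : Fin N => volume.restrict S) (i := j)).eventually h2
    have h2 : ∀ᵐ x ∂(Measure.pi (fun _ : Fin N => volume.restrict S)),
        ∀ i j, i ≠ j → x i ≠ x j := by
      rw [ae_all_iff]
      intro i
      rw [ae_all_iff]
      intro j
      by_cases hij : i = j
      · exact Filter.Eventually.of_forall fun x h => absurd hij h
      · have h3 := e2_diag hij
        have h4 : Measure.pi (fun _ : Fin N => volume.restrict S) =
            (volume : Measure (Fin N → ℂ)).restrict (Set.univ.pi fun _ => S) := by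
          rw [volume_pi, Measure.restrict_pi_pi]
        rw [h4]
        exact (ae_restrict_of_ae h3).mono fun x hx _ => hx
    have h3 : ∀ᵐ x ∂(Measure.pi (fun _ : Fin N => volume.restrict S)),
        (⟨N, x⟩ : Seqs) ∈ GoodSeq S := by
      filter_upwards [h1, h2] with x hx1 hx2
      refine ⟨fun i j hij => ?_, hx1⟩
      by_contra hne
      exact hx2 i j hne hij
    rw [ae_iff] at h3
    exact h3
  rw [h0, smul_zero]

theorem num_ppP {S A : Set ℂ} {ω : Seqs} (hω : ω ∈ GoodSeq S) : num (ppP S ω) A = cntA A ω := by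
  classical
  unfold num ppP cntA
  rw [if_pos hω, Finset.filter_image, Finset.card_image_of_injective _ hω.1, Finset.card_filter]
  refine Finset.sum_congr rfl fun j _ => ?_
  rw [Set.indicator_apply]

theorem measurable_cntA {A : Set ℂ} (hA : MeasurableSet A) : Measurable (cntA A) := by
  intro s hs
  refine e2_meas fun N => ?_
  have h : Measurable (fun x : Fin N → ℂ => ∑ j, Set.indicator A (fun _ => 1) (x j) :
      (Fin N → ℂ) → ℕ) := by
    refine Finset.measurable_sum _ fun j _ => ?_
    exact (measurable_const.indicator hA).comp (measurable_pi_apply j)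
  exact h hs

theorem measurable_num_ppP {S A : Set ℂ} (hS : MeasurableSet S) (hA : MeasurableSet A) :
    Measurable (fun ω => num (ppP S ω) A) := by
  classical
  have e : (fun ω => num (ppP S ω) A) = fun ω => if ω ∈ GoodSeq S then cntA A ω else 0 := by
    funext ω
    split_ifs with h
    · exact num_ppP h
    · unfold num ppP
      rw [if_neg h]
      simp
  rw [e]
  exact Measurable.ite (measurableSet_goodSeq hS) (measurable_cntA hA) measurable_const

end Pool.Agent.H97.KN
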