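import Pool.Agent.H97.KN.E1
import Pool.Agent.H97.KN.E2

/-!
ROW E3 (MP_72793b_PR, probability).  Joint characteristic function of the counts of disjoint sets.

`exp (I ∑_i t_i N_{A_i}(ω)) = ∏_j g (ω.2 j)` with `g z = exp (I ∑_i t_i 1_{A_i}(z))`, `‖g‖ = 1`, measurable.  For disjoint `A_i ⊆ S`:
`g - 1 = ∑_i (e^{I t_i} - 1) 1_{A_i}` (at most one indicator is `1`), so `∫_S g - |S| = ∑_i |A_i| (e^{I t_i} - 1)`.
(`integral_prod_ppm`.)
-/

namespace Pool.Agent.H97.KN

open Finset MeasureTheory Pool.Agent.H77.KN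

/-- the multiplicative functional -/
noncomputable def E3_g {r : ℕ} (A : Fin r → Set ℂ) (t : Fin r → ℝ) (z : ℂ) : ℂ :=
  Complex.exp (((∑ i, t i * Set.indicator (A i) (fun _ => (1 : ℝ)) z : ℝ) : ℂ) * Complex.I)

theorem E3_meas {r : ℕ} {A : Fin r → Set ℂ} (hA : ∀ i, MeasurableSet (A i)) (t : Fin r → ℝ) :
    Measurable (E3_g A t) := by
  unfold E3_g
  apply Complex.measurable_exp.comp
  apply Measurable.mul_const
  apply Complex.measurable_ofReal.comp
  apply Finset.measurable_sum
  intro i _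
  exact (measurable_const.indicator (hA i)).const_mul _

theorem E3_norm {r : ℕ} (A : Fin r → Set ℂ) (t : Fin r → ℝ) (z : ℂ) : ‖E3_g A t z‖ ≤ 1 := by
  unfold E3_g
  rw [Complex.norm_exp_ofReal_mul_I]

theorem E3_prod {r : ℕ} (A : Fin r → Set ℂ) (t : Fin r → ℝ) (ω : Seqs) :
    Complex.exp (∑ i, (t i : ℂ) * (cntA (A i) ω : ℂ) * Complex.I) = ∏ j, E3_g A t (ω.2 j) := by
  unfold E3_g
  rw [← Complex.exp_sum]
  congr 1
  have h1 : ∀ i, (cntA (A i) ω : ℂ) = ∑ j, ((Set.indicator (A i) (fun _ => (1 : ℝ)) (ω.2 j) : ℝ) : ℂ) := by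
    intro i
    unfold cntA
    push_cast
    refine Finset.sum_congr rfl (fun j _ => ?_)
    by_cases h : ω.2 j ∈ A i
    · rw [Set.indicator_of_mem h, Set.indicator_of_mem h]; simp
    · rw [Set.indicator_of_notMem h, Set.indicator_of_notMem h]; simp
  simp only [h1]
  push_cast
  simp only [Finset.mul_sum, Finset.sum_mul]
  rw [Finset.sum_comm]

theorem E3_split {r : ℕ} {A : Fin r → Set ℂ} (hd : Pairwise (fun i j => Disjoint (A i) (A j)))
    (t : Fin r → ℝ) (z : ℂ) :
    E3_g A t z = 1 + ∑ i, Set.indicator (A i) (fun _ => Complex.exp (t i * Complex.I) - 1) z := by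
  unfold E3_g
  by_cases h : ∃ i, z ∈ A i
  · obtain ⟨i, hi⟩ := h
    have hne : ∀ j, j ≠ i → z ∉ A j := fun j hj hz =>
      Set.disjoint_left.mp (hd hj) hz hi
    rw [Finset.sum_eq_single i, Finset.sum_eq_single i]
    · rw [Set.indicator_of_mem hi, Set.indicator_of_mem hi]
      simp
    · intro j _ hj
      rw [Set.indicator_of_notMem (hne j hj)]
    · intro h; exact absurd (Finset.mem_univ i) h
    · intro j _ hj
      rw [Set.indicator_of_notMem (hne j hj)]; simp
    · intro h; exact absurd (Finset.mem_univ i) h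
  · have hne : ∀ j, z ∉ A j := fun j hz => h ⟨j, hz⟩
    rw [Finset.sum_eq_zero, Finset.sum_eq_zero]
    · simp
    · intro j _
      rw [Set.indicator_of_notMem (hne j)]
    · intro j _
      rw [Set.indicator_of_notMem (hne j)]; simp

theorem E3_int {S : Set ℂ} (hfin : volume S ≠ ⊤) {r : ℕ} {A : Fin r → Set ℂ}
    (hA : ∀ i, MeasurableSet (A i)) (hAS : ∀ i, A i ⊆ S) (hd : Pairwise (fun i j => Disjoint (A i) (A j)))
    (t : Fin r → ℝ) :
    (∫ z in S, E3_g A t z) - (volume S).toReal =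
      ∑ i, ((volume (A i)).toReal : ℂ) * (Complex.exp (t i * Complex.I) - 1) := by
  have hf : IsFiniteMeasure (volume.restrict S) := ⟨by
    rw [Measure.restrict_apply_univ]; exact lt_of_le_of_ne le_top hfin⟩
  have e1 : ∀ z, E3_g A t z = 1 + ∑ i, Set.indicator (A i) (fun _ => Complex.exp (t i * Complex.I) - 1) z :=
    E3_split hd t
  simp only [e1]
  have hi : ∀ i ∈ (Finset.univ : Finset (Fin r)), Integrable
      (fun z => Set.indicator (A i) (fun _ => Complex.exp (t i * Complex.I) - 1) z) (volume.restrict S) :=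
    fun i _ => (integrable_const _).indicator (hA i)
  rw [integral_add (integrable_const _) (integrable_finsetSum _ hi), integral_finsetSum _ hi]
  have h1 : ∫ _ in S, (1 : ℂ) = (volume S).toReal := by
    rw [integral_const]
    simp [Measure.real]
  rw [h1, add_sub_cancel_left]
  refine Finset.sum_congr rfl (fun i _ => ?_)
  rw [integral_indicator (hA i), Measure.restrict_restrict (hA i), Set.inter_eq_self_of_subset_left (hAS i),
    integral_const]
  simp [Measure.real]

theorem charfun_counts {S : Set ℂ} (hS : MeasurableSet S) (hfin : volume S ≠ ⊤) {r : ℕ} {A : Fin r → Set ℂ}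
    (hA : ∀ i, MeasurableSet (A i)) (hAS : ∀ i, A i ⊆ S) (hd : Pairwise (fun i j => Disjoint (A i) (A j)))
    (t : Fin r → ℝ) :
    ∫ ω, Complex.exp (∑ i, (t i : ℂ) * (cntA (A i) ω : ℂ) * Complex.I) ∂(ppm S) =
      Complex.exp (∑ i, ((volume (A i)).toReal : ℂ) * (Complex.exp (t i * Complex.I) - 1)) := by
  simp only [E3_prod]
  rw [integral_prod_ppm hS hfin (E3_meas hA t) (E3_norm A t), E3_int hfin hA hAS hd t]

end Pool.Agent.H97.KN
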