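import Pool.Agent.H97.KN.E3

/-!
ROW E4 (MP_72793b_PR, probability).  Law and independence of the counts from the characteristic function.

`law_cntA`: Let `ν = (ppm S).map (fun ω => (cntA A ω : ℝ))` and `ν' = Measure.map Nat.cast (poisson weights)`, e.g.
`ν' = Measure.sum (fun m => ofReal (e^{-l} l^m / m!) • Measure.dirac (m : ℝ))`, `l = (volume A).toReal` (or Mathlib's `poissonMeasure` mapped to `ℝ`).
Both finite; `charFun ν t = exp (l (e^{it} - 1))` by `charfun_counts` with `r = 1`; `charFun ν' t = ∑ e^{-l} l^m/m! e^{i t m}` = the same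
(exponential series).  `Measure.ext_of_charFun` gives `ν = ν'`; evaluate on `{(m : ℝ)}`.
`indep_cntA`: `iIndepFun_iff_charFun_pi` for the real functions `(cntA (A i) ω : ℝ)` (`E = fun _ => ℝ`): the joint characteristic
function is the product of the marginal ones by `charfun_counts` (used for `r` and, for the marginals, for `r = 1` with the single
set).  Then compose with the measurable map `fun x : ℝ => ⌊x⌋₊` (`iIndepFun.comp`) to come back to `ℕ`.
-/

namespace Pool.Agent.H97.KN

open Finset MeasureTheory Pool.Agent.H77.KN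

theorem E4_char {S A : Set ℂ} (hS : MeasurableSet S) (hfin : volume S ≠ ⊤) (hA : MeasurableSet A)
    (hAS : A ⊆ S) (t : ℝ) : charFun ((ppm S).map (fun ω => (cntA A ω : ℝ))) t =
      Complex.exp (((volume A).toReal : ℂ) * (Complex.exp (t * Complex.I) - 1)) := by
  have hm : Measurable (fun ω => (cntA A ω : ℝ)) :=
    measurable_from_nat.comp (measurable_cntA hA)
  have h := charfun_counts hS hfin (r := 1) (A := fun _ => A) (fun _ => hA) (fun _ => hAS)
    (fun i j hij => absurd (Subsingleton.elim i j) hij) (fun _ => t)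
  simp only [Finset.univ_unique, Finset.sum_singleton] at h
  rw [charFun_apply_real, integral_map hm.aemeasurable (by fun_prop), ← h]
  congr 1

theorem E4_map {S A : Set ℂ} (hS : MeasurableSet S) (hfin : volume S ≠ ⊤) (hA : MeasurableSet A)
    (hAS : A ⊆ S) : (ppm S).map (cntA A) =
      ProbabilityTheory.poissonMeasure (volume A).toNNReal := by
  have hprob := isProbabilityMeasure_ppm hS hfin
  have hm : Measurable (fun ω => (cntA A ω : ℝ)) :=
    measurable_from_nat.comp (measurable_cntA hA)
  apply (MeasurableEmbedding.natCast (α := ℝ)).map_injective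
  rw [Measure.map_map measurable_from_nat (measurable_cntA hA)]
  change (ppm S).map (fun ω => (cntA A ω : ℝ)) = _
  have : IsProbabilityMeasure ((ppm S).map (fun ω => (cntA A ω : ℝ))) :=
    Measure.isProbabilityMeasure_map hm.aemeasurable
  apply Measure.ext_of_charFun
  funext t
  rw [E4_char hS hfin hA hAS t, ProbabilityTheory.charFun_map_cast_poissonMeasure]
  rfl

theorem law_cntA {S A : Set ℂ} (hS : MeasurableSet S) (hfin : volume S ≠ ⊤) (hA : MeasurableSet A) (hAS : A ⊆ S)
    (m : ℕ) :
    ppm S {ω | cntA A ω = m} =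
      ENNReal.ofReal (Real.exp (-(volume A).toReal) * (volume A).toReal ^ m / m.factorial) := by
  have h1 : ppm S {ω | cntA A ω = m} = (ppm S).map (cntA A) {m} := by
    rw [Measure.map_apply (measurable_cntA hA) (measurableSet_singleton m)]
    rfl
  rw [h1, E4_map hS hfin hA hAS, ProbabilityTheory.poissonMeasure_singleton]
  rfl

theorem indep_cntA {S : Set ℂ} (hS : MeasurableSet S) (hfin : volume S ≠ ⊤) {r : ℕ} {A : Fin r → Set ℂ}
    (hA : ∀ i, MeasurableSet (A i)) (hAS : ∀ i, A i ⊆ S) (hd : Pairwise (fun i j => Disjoint (A i) (A j))) :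
    ProbabilityTheory.iIndepFun (fun i ω => cntA (A i) ω) (ppm S) := by
  have hprob := isProbabilityMeasure_ppm hS hfin
  have hm : ∀ i, Measurable (fun ω => (cntA (A i) ω : ℝ)) := fun i =>
    measurable_from_nat.comp (measurable_cntA (hA i))
  have key : ProbabilityTheory.iIndepFun (fun i ω => (cntA (A i) ω : ℝ)) (ppm S) := by
    rw [ProbabilityTheory.iIndepFun_iff_charFun_pi (fun i => (hm i).aemeasurable)]
    intro t
    have h1 : ∏ i, charFun ((ppm S).map (fun ω => (cntA (A i) ω : ℝ))) (t i) =
        Complex.exp (∑ i, ((volume (A i)).toReal : ℂ) * (Complex.exp (t i * Complex.I) - 1)) := by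
      rw [Complex.exp_sum]
      exact Finset.prod_congr rfl (fun i _ => E4_char hS hfin (hA i) (hAS i) (t i))
    have hm2 : Measurable (fun ω => WithLp.toLp 2 (fun i => (cntA (A i) ω : ℝ))) := by
      have : Measurable (fun ω => (fun i => (cntA (A i) ω : ℝ))) := measurable_pi_lambda _ hm
      fun_prop
    rw [h1, charFun_apply, integral_map hm2.aemeasurable (by fun_prop),
      ← charfun_counts hS hfin hA hAS hd (fun i => t i)]
    congr 1
    funext ω
    congr 1
    rw [PiLp.inner_apply]
    push_cast
    rw [Finset.sum_mul]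
    refine Finset.sum_congr rfl (fun i _ => ?_)
    rw [Real.inner_apply]
    push_cast
    ring
  have h2 := key.comp (fun _ x => ⌊x⌋₊) (fun _ => Nat.measurable_floor)
  have h3 : (fun (i : Fin r) => (fun x : ℝ => ⌊x⌋₊) ∘ fun ω => (cntA (A i) ω : ℝ)) =
      fun i ω => cntA (A i) ω := by
    funext i ω
    exact Nat.floor_natCast _
  rw [h3] at h2
  exact h2

end Pool.Agent.H97.KN
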