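import Pool.Agent.H97.KN.E4

/-!
E5 (assembly, PI).  The Poisson process exists.
-/

namespace Pool.Agent.H97.KN

open Finset MeasureTheory Pool.Agent.H77.KN

theorem exists_poisson {S : Set ℂ} (hS : MeasurableSet S) (hfin : volume S ≠ ⊤) :
    IsPoissonProcess (ppm S) (ppP S) S := by
  classical
  have hprob := isProbabilityMeasure_ppm hS hfin
  have hae : ∀ A : Set ℂ, (fun ω => cntA A ω) =ᵐ[ppm S] (fun ω => num (ppP S ω) A) := by
    intro A
    have h0 := ppm_goodSeq hS hfin
    rw [Filter.EventuallyEq, Filter.Eventually, mem_ae_iff]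
    refine measure_mono_null ?_ h0
    intro ω hω hg
    exact hω (num_ppP hg).symm
  refine ⟨hprob, ?_, ?_, ?_, ?_⟩
  · intro ω z hz
    unfold ppP at hz
    split_ifs at hz with h
    · rw [Finset.mem_image] at hz
      obtain ⟨j, _, rfl⟩ := hz
      exact h.2 j
    · simp at hz
  · intro A hA
    exact measurable_num_ppP hS hA
  · intro A hA hAS m
    rw [← law_cntA hS hfin hA hAS m]
    refine measure_congr ?_
    filter_upwards [hae A] with ω hω
    have : (num (ppP S ω) A = m) = (cntA A ω = m) := by rw [hω]
    exact this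
  · intro r A hA hAS hd
    exact (indep_cntA hS hfin hA hAS hd).congr (fun i => hae (A i))

end Pool.Agent.H97.KN
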