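import Mathlib
import Pool.Agent.H77.KN.CostDefs

/-!
ROW P1 (MP_72793b_PR, analysis).  Poisson weights.

`pmf_le`: `m! ≥ (m/e)^m` (Mathlib: search `Nat.factorial` and `exp`, e.g. from
`Real.pow_div_factorial_le_exp` / `(m:ℝ)^m / m! ≤ exp m`), so `e^{-l} l^m / m! ≤ exp (-l + m - m log (m/l)) = exp (-l hh (m/l))`;
`m = 0`: `hh 0 = 1`.
`tail_le` (exponential Markov inequality): `[k < m] ≤ exp (21 (m - k))`, so the sum is at most
`e^{-21 k} e^{-l} ∑ (l e^{21})^m / m! = exp (l (e^{21} - 1) - 21 k) ≤ exp (-20 k)` because `l (e^21 - 1) ≤ k 1e-18 * 1e18 = k`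
(`e^21 ≤ 2.7183^21 ≤ 1e18`; `Real.exp_one_lt_d9`).
`low_le`: `[2 m < n] ≤ exp (n/2 - m)`: sum `≤ e^{n/2} e^{-n} e^{n/e} = exp (-n (1/2 - 1/e)) ≤ exp (-n/10)`.
-/

namespace Pool.Agent.H97.KN

open Finset MeasureTheory Pool.Agent.H77.KN

theorem P1_sum {a b : ℝ} (ha : 0 ≤ a) (hb : 0 ≤ b) :
    ∑' m : ℕ, ENNReal.ofReal (b * (a ^ m / m.factorial)) = ENNReal.ofReal (b * Real.exp a) := by
  have h := (NormedSpace.expSeries_div_hasSum_exp (𝔸 := ℝ) a).mul_left b
  rw [← Real.exp_eq_exp_ℝ] at h
  rw [← ENNReal.ofReal_tsum_of_nonneg (fun m => by positivity) h.summable, h.tsum_eq]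

theorem pmf_le {l : ℝ} (hl : 0 < l) (m : ℕ) :
    Real.exp (-l) * l ^ m / m.factorial ≤ Real.exp (-(l * hh (m / l))) := by
  rcases Nat.eq_zero_or_pos m with rfl | hm
  · simp [hh]
  · have hm' : (0 : ℝ) < m := by exact_mod_cast hm
    have h1 : (m : ℝ) ^ m / m.factorial ≤ Real.exp m := Real.pow_div_factorial_le_exp _ hm'.le m
    have h2 : l ^ m = (m : ℝ) ^ m * Real.exp (-(m * Real.log (m / l))) := by
      have h3 : Real.exp (-(m * Real.log (m / l))) = (l / m) ^ m := by
        have h4 : -((m : ℝ) * Real.log (m / l)) = m * Real.log (l / m) := by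
          rw [Real.log_div hm'.ne' hl.ne', Real.log_div hl.ne' hm'.ne']; ring
        rw [h4, mul_comm, Real.exp_mul, Real.exp_log (by positivity), Real.rpow_natCast]
      rw [h3, div_pow]
      field_simp
    have h5 : -(l * hh (m / l)) = -l + m + -(m * Real.log (m / l)) := by
      unfold hh
      field_simp
      ring
    rw [h5, Real.exp_add, Real.exp_add, h2]
    have h6 : Real.exp (-l) * ((m : ℝ) ^ m * Real.exp (-(m * Real.log (m / l)))) / m.factorial =
        Real.exp (-l) * ((m : ℝ) ^ m / m.factorial) * Real.exp (-(m * Real.log (m / l))) := by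
      ring
    rw [h6]
    gcongr

theorem tail_le {l : ℝ} (hl : 0 ≤ l) {k : ℕ} (hlk : l ≤ k / 10 ^ 18) :
    ∑' m : ℕ, ENNReal.ofReal (if k < m then Real.exp (-l) * l ^ m / m.factorial else 0) ≤
      ENNReal.ofReal (Real.exp (-(20 * k))) := by
  have h21 : Real.exp 21 ≤ 10 ^ 18 := by
    have h1 : Real.exp 21 = Real.exp 1 ^ 21 := by rw [← Real.exp_nat_mul]; norm_num
    rw [h1]
    calc Real.exp 1 ^ 21 ≤ (3 : ℝ) ^ 21 := by
          gcongr
          exact (Real.exp_one_lt_d9.trans (by norm_num)).le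
      _ ≤ 10 ^ 18 := by norm_num
  calc ∑' m : ℕ, ENNReal.ofReal (if k < m then Real.exp (-l) * l ^ m / m.factorial else 0)
      ≤ ∑' m : ℕ, ENNReal.ofReal ((Real.exp (-l) * Real.exp (-(21 * k))) *
          ((l * Real.exp 21) ^ m / m.factorial)) := by
        refine ENNReal.tsum_le_tsum fun m => ENNReal.ofReal_le_ofReal ?_
        split_ifs with h
        · have hkm : (k : ℝ) ≤ m := by exact_mod_cast h.le
          have h1 : (Real.exp 21) ^ m = Real.exp (21 * m) := by
            rw [← Real.exp_nat_mul]; ring_nf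
          have h2 : 1 ≤ Real.exp (-(21 * k)) * (Real.exp 21) ^ m := by
            rw [h1, ← Real.exp_add]
            exact Real.one_le_exp (by linarith)
          have h3 : (Real.exp (-l) * Real.exp (-(21 * k))) * ((l * Real.exp 21) ^ m / m.factorial) =
              Real.exp (-l) * l ^ m / m.factorial * (Real.exp (-(21 * k)) * (Real.exp 21) ^ m) := by
            rw [mul_pow]; ring
          rw [h3]
          exact le_mul_of_one_le_right (by positivity) h2
        · positivity
    _ = ENNReal.ofReal ((Real.exp (-l) * Real.exp (-(21 * k))) * Real.exp (l * Real.exp 21)) :=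
        P1_sum (by positivity) (by positivity)
    _ ≤ ENNReal.ofReal (Real.exp (-(20 * k))) := by
        refine ENNReal.ofReal_le_ofReal ?_
        rw [← Real.exp_add, ← Real.exp_add, Real.exp_le_exp]
        have h4 : l * Real.exp 21 ≤ k := by
          calc l * Real.exp 21 ≤ (k / 10 ^ 18) * 10 ^ 18 := by gcongr
            _ = k := by field_simp
        linarith

theorem low_le {n : ℝ} (hn : 0 ≤ n) :
    ∑' m : ℕ, ENNReal.ofReal (if 2 * (m : ℝ) < n then Real.exp (-n) * n ^ m / m.factorial else 0) ≤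
      ENNReal.ofReal (Real.exp (-(n / 10))) := by
  calc ∑' m : ℕ, ENNReal.ofReal (if 2 * (m : ℝ) < n then Real.exp (-n) * n ^ m / m.factorial else 0)
      ≤ ∑' m : ℕ, ENNReal.ofReal ((Real.exp (-n) * Real.exp (n / 2)) *
          ((n * Real.exp (-1)) ^ m / m.factorial)) := by
        refine ENNReal.tsum_le_tsum fun m => ENNReal.ofReal_le_ofReal ?_
        split_ifs with h
        · have h1 : (Real.exp (-1)) ^ m = Real.exp (-(m : ℝ)) := by
            rw [← Real.exp_nat_mul]; ring_nf
          have h2 : 1 ≤ Real.exp (n / 2) * (Real.exp (-1)) ^ m := by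
            rw [h1, ← Real.exp_add]
            exact Real.one_le_exp (by linarith)
          have h3 : (Real.exp (-n) * Real.exp (n / 2)) * ((n * Real.exp (-1)) ^ m / m.factorial) =
              Real.exp (-n) * n ^ m / m.factorial * (Real.exp (n / 2) * (Real.exp (-1)) ^ m) := by
            rw [mul_pow]; ring
          rw [h3]
          exact le_mul_of_one_le_right (by positivity) h2
        · positivity
    _ = ENNReal.ofReal ((Real.exp (-n) * Real.exp (n / 2)) * Real.exp (n * Real.exp (-1))) :=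
        P1_sum (by positivity) (by positivity)
    _ ≤ ENNReal.ofReal (Real.exp (-(n / 10))) := by
        refine ENNReal.ofReal_le_ofReal ?_
        rw [← Real.exp_add, ← Real.exp_add, Real.exp_le_exp]
        have h4 : Real.exp (-1) ≤ 0.4 := by
          rw [Real.exp_neg]
          have h5 : (2.5 : ℝ) ≤ Real.exp 1 := by linarith [Real.exp_one_gt_d9]
          calc (Real.exp 1)⁻¹ ≤ (2.5 : ℝ)⁻¹ := by gcongr
            _ = 0.4 := by norm_num
        have h6 : n * Real.exp (-1) ≤ n * 0.4 := by gcongr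
        linarith

end Pool.Agent.H97.KN
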