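import Pool.Agent.H97.KN.P1

/-!
ROW P2 (MP_72793b_PR, probability).  The large deviation bound (union over count vectors).

`{T ≤ cost} ⊆ {∃ i, k < N i} ∪ ⋃_{v : Fin r → {0..k}, T ≤ cost v} {∀ i, N i = v i}`.
First part: `μ {k < N i} = ∑' m, [k < m] μ {N i = m} ≤ exp (-20 k)` (`tail_le`; `l = s² k ≤ k/10^18` since `s ≤ 1e-9`); `r` of them.
Second part: there are `(k+1)^r` vectors `v : Fin r → Fin (k+1)`; for each, independence
(`ProbabilityTheory.iIndepFun.measure_inter_preimage_eq_mul` with `univ`, sets `{v i}`) gives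
`μ {∀ i, N i = v i} = ∏ ofReal (e^{-l} l^{v i}/(v i)!) ≤ ∏ ofReal (exp (-l hh (v i / l))) = ofReal (exp (-k ∑ s² hh (v i/(s² k))))
≤ ofReal (exp (-k T))`.
-/

namespace Pool.Agent.H97.KN

open Finset MeasureTheory Pool.Agent.H77.KN

theorem ld {Ω : Type*} [MeasurableSpace Ω] {μ : Measure Ω} [IsProbabilityMeasure μ] {r : ℕ} {N : Fin r → Ω → ℕ}
    (hmeas : ∀ i, Measurable (N i)) (hind : ProbabilityTheory.iIndepFun N μ) {s : ℝ} (hs : 0 < s) (hs1 : s ≤ s0)
    {k : ℕ} (hk : 0 < k)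
    (hlaw : ∀ i m, μ {ω | N i ω = m} = ENNReal.ofReal (Real.exp (-(s ^ 2 * k)) * (s ^ 2 * k) ^ m / m.factorial))
    (T : ℝ) :
    μ {ω | T ≤ ∑ i, s ^ 2 * hh (N i ω / (s ^ 2 * k))} ≤
      ENNReal.ofReal (((k : ℝ) + 1) ^ r * Real.exp (-(k * T)) + r * Real.exp (-(20 * k))) := by
  classical
  have hkR : (0 : ℝ) < k := by exact_mod_cast hk
  set l : ℝ := s ^ 2 * k with hl
  have hl0 : 0 < l := by positivity
  have hlk : l ≤ k / 10 ^ 18 := by
    have h1 : s ^ 2 ≤ s0 ^ 2 := pow_le_pow_left₀ hs.le hs1 2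
    have h2 : s0 ^ 2 = 1 / 10 ^ 18 := by
      unfold s0
      norm_num
    rw [h2] at h1
    calc l = s ^ 2 * k := hl
      _ ≤ 1 / 10 ^ 18 * k := mul_le_mul_of_nonneg_right h1 hkR.le
      _ = k / 10 ^ 18 := by ring
  have htail : ∀ i, μ {ω | k < N i ω} ≤ ENNReal.ofReal (Real.exp (-(20 * k))) := by
    intro i
    have h1 : {ω | k < N i ω} ⊆ ⋃ m : ℕ, {ω | k < m ∧ N i ω = m} := by
      intro ω hω
      rw [Set.mem_iUnion]
      exact ⟨N i ω, hω, rfl⟩
    refine (measure_mono h1).trans ((measure_iUnion_le _).trans ?_)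
    refine le_trans (ENNReal.tsum_le_tsum fun m => ?_) (tail_le hl0.le hlk)
    by_cases hm : k < m
    · rw [if_pos hm, ← hlaw i m]
      exact measure_mono fun ω hω => hω.2
    · have h2 : {ω | k < m ∧ N i ω = m} = ∅ := by
        ext ω
        simp [hm]
      rw [h2, measure_empty]
      exact zero_le
  have hvec : ∀ v : Fin r → Fin (k + 1), T ≤ ∑ i, s ^ 2 * hh ((v i : ℕ) / l) →
      μ {ω | ∀ i, N i ω = v i} ≤ ENNReal.ofReal (Real.exp (-(k * T))) := by
    intro v hv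
    have h1 : {ω | ∀ i, N i ω = v i} = ⋂ i ∈ (Finset.univ : Finset (Fin r)), N i ⁻¹' {((v i : ℕ))} := by
      ext ω
      simp
    rw [h1, hind.measure_inter_preimage_eq_mul Finset.univ (fun i _ => measurableSet_singleton _)]
    have h2 : ∀ i ∈ (Finset.univ : Finset (Fin r)), μ (N i ⁻¹' {((v i : ℕ))}) ≤
        ENNReal.ofReal (Real.exp (-(l * hh ((v i : ℕ) / l)))) := by
      intro i _
      have h3 : N i ⁻¹' {((v i : ℕ))} = {ω | N i ω = (v i : ℕ)} := rfl
      rw [h3, hlaw i (v i)]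
      exact ENNReal.ofReal_le_ofReal (pmf_le hl0 _)
    refine (Finset.prod_le_prod' h2).trans ?_
    rw [← ENNReal.ofReal_prod_of_nonneg (fun i _ => (Real.exp_pos _).le), ← Real.exp_sum]
    refine ENNReal.ofReal_le_ofReal (Real.exp_le_exp.2 ?_)
    rw [Finset.sum_neg_distrib]
    refine neg_le_neg ?_
    calc (k : ℝ) * T ≤ k * ∑ i, s ^ 2 * hh ((v i : ℕ) / l) := mul_le_mul_of_nonneg_left hv hkR.le
      _ = ∑ i, l * hh ((v i : ℕ) / l) := by
          rw [Finset.mul_sum]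
          refine Finset.sum_congr rfl fun i _ => ?_
          rw [hl]
          ring
  have hsub : {ω | T ≤ ∑ i, s ^ 2 * hh (N i ω / l)} ⊆
      (⋃ i ∈ (Finset.univ : Finset (Fin r)), {ω | k < N i ω}) ∪
        ⋃ v ∈ (Finset.univ.filter (fun v : Fin r → Fin (k + 1) => T ≤ ∑ i, s ^ 2 * hh ((v i : ℕ) / l))),
          {ω | ∀ i, N i ω = v i} := by
    intro ω hω
    by_cases h : ∃ i, k < N i ω
    · obtain ⟨i, hi⟩ := h
      left
      simp only [Set.mem_iUnion]
      exact ⟨i, Finset.mem_univ _, hi⟩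
    · right
      push Not at h
      simp only [Set.mem_iUnion]
      refine ⟨fun i => ⟨N i ω, Nat.lt_succ_of_le (h i)⟩, ?_, fun i => rfl⟩
      rw [Finset.mem_filter]
      exact ⟨Finset.mem_univ _, hω⟩
  refine (measure_mono hsub).trans ((measure_union_le _ _).trans ?_)
  have h1 : μ (⋃ i ∈ (Finset.univ : Finset (Fin r)), {ω | k < N i ω}) ≤
      ENNReal.ofReal (r * Real.exp (-(20 * k))) := by
    refine (measure_biUnion_finset_le _ _).trans ((Finset.sum_le_sum fun i _ => htail i).trans ?_)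
    rw [Finset.sum_const, Finset.card_univ, Fintype.card_fin, nsmul_eq_mul,
      ENNReal.ofReal_mul (Nat.cast_nonneg _), ENNReal.ofReal_natCast]
  have h2 : μ (⋃ v ∈ (Finset.univ.filter (fun v : Fin r → Fin (k + 1) =>
      T ≤ ∑ i, s ^ 2 * hh ((v i : ℕ) / l))), {ω | ∀ i, N i ω = v i}) ≤
      ENNReal.ofReal (((k : ℝ) + 1) ^ r * Real.exp (-(k * T))) := by
    refine (measure_biUnion_finset_le _ _).trans
      ((Finset.sum_le_sum fun v hv => hvec v (Finset.mem_filter.1 hv).2).trans ?_)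
    rw [Finset.sum_const, nsmul_eq_mul]
    have h3 : (((Finset.univ.filter (fun v : Fin r → Fin (k + 1) =>
        T ≤ ∑ i, s ^ 2 * hh ((v i : ℕ) / l))).card : ℕ) : ENNReal) ≤ ENNReal.ofReal (((k : ℝ) + 1) ^ r) := by
      have h4 : (Finset.univ.filter (fun v : Fin r → Fin (k + 1) =>
        T ≤ ∑ i, s ^ 2 * hh ((v i : ℕ) / l))).card ≤ (k + 1) ^ r := by
        refine (Finset.card_le_univ _).trans ?_
        rw [Fintype.card_fun, Fintype.card_fin, Fintype.card_fin]
      have h5 : ENNReal.ofReal (((k : ℝ) + 1) ^ r) = (((k + 1) ^ r : ℕ) : ENNReal) := by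
        rw [← ENNReal.ofReal_natCast]
        push_cast
        rfl
      rw [h5]
      exact_mod_cast h4
    rw [ENNReal.ofReal_mul (by positivity)]
    exact mul_le_mul' h3 le_rfl
  refine (add_le_add h1 h2).trans ?_
  rw [← ENNReal.ofReal_add (by positivity) (by positivity)]
  refine ENNReal.ofReal_le_ofReal (le_of_eq ?_)
  ring

end Pool.Agent.H97.KN
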