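import Pool.Agent.H97.KN.Defs

/-!
ROW P3 (MP_72793b_PR, measure theory).  The tiles as measurable sets of the original square.

`tileSet s k t = {z | idx s ((√k)⁻¹ • z) = t}` is the half open square
`[t.1 s √k, (t.1+1) s √k) x [t.2 s √k, (t.2+1) s √k)`.  Measurable (`measurable` of `floor`, `re`, `im`, or as a product set).
Area `s² k`: use `Complex.volume_preserving_equiv_real_prod` (or `Complex.measurableEquivRealProd`), `Measure.prod_prod`,
`Real.volume_Ico`.
`num_tile`: `z ↦ (√k)⁻¹ • z` is injective.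
`linesSet_null`: the set of the `z` with `re z = m s √k` or `im z = m s √k` for some integer `m`: countable union of lines,
null sets; measurable.
-/

namespace Pool.Agent.H97.KN

open Finset MeasureTheory Pool.Agent.H77.KN

/-- the tile `t` in the original square -/
def tileSet (s : ℝ) (k : ℕ) (t : ℤ × ℤ) : Set ℂ := {z | idx s (((Real.sqrt k)⁻¹ : ℝ) • z) = t}

/-- the grid lines in the original square -/
def linesSet (s : ℝ) (k : ℕ) : Set ℂ :=
  {z | ∃ m : ℤ, (((Real.sqrt k)⁻¹ : ℝ) • z).re = m * s ∨ (((Real.sqrt k)⁻¹ : ℝ) • z).im = m * s}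

theorem P3_mem {s : ℝ} (hs : 0 < s) {k : ℕ} (hk : 0 < k) (t : ℤ × ℤ) (z : ℂ) :
    z ∈ tileSet s k t ↔ (((t.1 : ℝ) * (s * Real.sqrt k) ≤ z.re ∧ z.re < ((t.1 : ℝ) + 1) * (s * Real.sqrt k)) ∧
      ((t.2 : ℝ) * (s * Real.sqrt k) ≤ z.im ∧ z.im < ((t.2 : ℝ) + 1) * (s * Real.sqrt k))) := by
  have hk' : 0 < Real.sqrt k := Real.sqrt_pos.mpr (by exact_mod_cast hk)
  unfold tileSet idx
  simp only [Set.mem_setOf_eq, Prod.ext_iff, Int.floor_eq_iff, Complex.smul_re, Complex.smul_im, smul_eq_mul]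
  have key : ∀ x : ℝ, (Real.sqrt k)⁻¹ * x / s = x / (s * Real.sqrt k) := by
    intro x
    field_simp
  rw [key, key]
  have hp : 0 < s * Real.sqrt k := by positivity
  rw [le_div_iff₀ hp, div_lt_iff₀ hp, le_div_iff₀ hp, div_lt_iff₀ hp]

theorem P3_prod {A B : Set ℝ} (hA : MeasurableSet A) (hB : MeasurableSet B) :
    volume {z : ℂ | z.re ∈ A ∧ z.im ∈ B} = volume A * volume B := by
  have h : {z : ℂ | z.re ∈ A ∧ z.im ∈ B} = Complex.measurableEquivRealProd ⁻¹' (A ×ˢ B) := by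
    ext z
    simp [Complex.measurableEquivRealProd]
  rw [h, Complex.volume_preserving_equiv_real_prod.measure_preimage (hA.prod hB).nullMeasurableSet]
  exact Measure.prod_prod A B

theorem measurableSet_tileSet {s : ℝ} (hs : 0 < s) {k : ℕ} (hk : 0 < k) (t : ℤ × ℤ) :
    MeasurableSet (tileSet s k t) := by
  have h : tileSet s k t = Complex.re ⁻¹' (Set.Ico ((t.1 : ℝ) * (s * Real.sqrt k)) (((t.1 : ℝ) + 1) * (s * Real.sqrt k)))
      ∩ Complex.im ⁻¹' (Set.Ico ((t.2 : ℝ) * (s * Real.sqrt k)) (((t.2 : ℝ) + 1) * (s * Real.sqrt k))) := by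
    ext z
    rw [P3_mem hs hk]
    rfl
  rw [h]
  exact (Complex.measurable_re measurableSet_Ico).inter (Complex.measurable_im measurableSet_Ico)

theorem volume_tileSet {s : ℝ} (hs : 0 < s) {k : ℕ} (hk : 0 < k) (t : ℤ × ℤ) :
    (volume (tileSet s k t)).toReal = s ^ 2 * k := by
  have hk' : 0 < Real.sqrt k := Real.sqrt_pos.mpr (by exact_mod_cast hk)
  have h : tileSet s k t = {z : ℂ | z.re ∈ Set.Ico ((t.1 : ℝ) * (s * Real.sqrt k)) (((t.1 : ℝ) + 1) * (s * Real.sqrt k))
      ∧ z.im ∈ Set.Ico ((t.2 : ℝ) * (s * Real.sqrt k)) (((t.2 : ℝ) + 1) * (s * Real.sqrt k))} := by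
    ext z
    rw [P3_mem hs hk]
    rfl
  have hp : 0 < s * Real.sqrt k := by positivity
  rw [h, P3_prod measurableSet_Ico measurableSet_Ico, Real.volume_Ico, Real.volume_Ico, ENNReal.toReal_mul,
    ENNReal.toReal_ofReal (by nlinarith), ENNReal.toReal_ofReal (by nlinarith)]
  have h2 : Real.sqrt k * Real.sqrt k = k := Real.mul_self_sqrt (by positivity)
  calc (((t.1 : ℝ) + 1) * (s * Real.sqrt k) - (t.1 : ℝ) * (s * Real.sqrt k))
        * (((t.2 : ℝ) + 1) * (s * Real.sqrt k) - (t.2 : ℝ) * (s * Real.sqrt k))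
      = s ^ 2 * (Real.sqrt k * Real.sqrt k) := by ring
    _ = s ^ 2 * k := by rw [h2]

theorem tileSet_subset {s a : ℝ} (hs : 0 < s) {k L : ℕ} (hk : 0 < k) (hL : (L : ℝ) * s * Real.sqrt k = a)
    {t : ℤ × ℤ} (ht : t ∈ grid L) : tileSet s k t ⊆ square a := by
  have hk' : 0 < Real.sqrt k := Real.sqrt_pos.mpr (by exact_mod_cast hk)
  have hp : 0 < s * Real.sqrt k := by positivity
  intro z hz
  rw [P3_mem hs hk] at hz
  obtain ⟨⟨h1, h2⟩, h3, h4⟩ := hz
  unfold grid at ht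
  rw [Finset.mem_product, Finset.mem_Ico, Finset.mem_Ico] at ht
  obtain ⟨⟨a1, a2⟩, a3, a4⟩ := ht
  have b1 : (0 : ℝ) ≤ (t.1 : ℝ) := by exact_mod_cast a1
  have b3 : (0 : ℝ) ≤ (t.2 : ℝ) := by exact_mod_cast a3
  have b2 : (t.1 : ℝ) + 1 ≤ (L : ℝ) := by exact_mod_cast a2
  have b4 : (t.2 : ℝ) + 1 ≤ (L : ℝ) := by exact_mod_cast a4
  have hL' : (L : ℝ) * (s * Real.sqrt k) = a := by rw [← hL]; ring
  refine ⟨?_, ?_, ?_, ?_⟩
  · exact le_trans (by positivity) h1
  · refine le_trans h2.le ?_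
    rw [← hL']
    exact mul_le_mul_of_nonneg_right b2 hp.le
  · exact le_trans (by positivity) h3
  · refine le_trans h4.le ?_
    rw [← hL']
    exact mul_le_mul_of_nonneg_right b4 hp.le

theorem tileSet_disjoint {s : ℝ} {k : ℕ} {t t' : ℤ × ℤ} (h : t ≠ t') :
    Disjoint (tileSet s k t) (tileSet s k t') := by
  rw [Set.disjoint_left]
  intro z h1 h2
  exact h (h1.symm.trans h2)

theorem cnt_scale {s : ℝ} {k : ℕ} (hk : 0 < k) (P : Finset ℂ) (t : ℤ × ℤ) :
    cnt s (scale k P) t = num P (tileSet s k t) := by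
  classical
  have hk' : 0 < Real.sqrt k := Real.sqrt_pos.mpr (by exact_mod_cast hk)
  have hinj : Function.Injective (fun z : ℂ => ((Real.sqrt k)⁻¹ : ℝ) • z) := by
    intro x y hxy
    exact smul_right_injective ℂ (inv_ne_zero hk'.ne') hxy
  unfold cnt scale num
  rw [Finset.filter_image, Finset.card_image_of_injective _ hinj]
  congr 1
  ext z
  simp only [Finset.mem_filter]
  rfl

theorem measurableSet_linesSet {s : ℝ} (hs : 0 < s) {k : ℕ} (hk : 0 < k) : MeasurableSet (linesSet s k) := by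
  have h : linesSet s k = ⋃ m : ℤ, ((fun z : ℂ => (((Real.sqrt k)⁻¹ : ℝ) • z).re) ⁻¹' {(m : ℝ) * s}
      ∪ (fun z : ℂ => (((Real.sqrt k)⁻¹ : ℝ) • z).im) ⁻¹' {(m : ℝ) * s}) := by
    ext z
    simp only [linesSet, Set.mem_setOf_eq, Set.mem_iUnion, Set.mem_union, Set.mem_preimage, Set.mem_singleton_iff]
  rw [h]
  have h1 : Measurable (fun z : ℂ => (((Real.sqrt k)⁻¹ : ℝ) • z).re) :=
    Complex.measurable_re.comp (measurable_const_smul _)
  have h2 : Measurable (fun z : ℂ => (((Real.sqrt k)⁻¹ : ℝ) • z).im) :=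
    Complex.measurable_im.comp (measurable_const_smul _)
  exact MeasurableSet.iUnion (fun m => (h1 (measurableSet_singleton _)).union (h2 (measurableSet_singleton _)))

theorem volume_linesSet {s : ℝ} (hs : 0 < s) {k : ℕ} (hk : 0 < k) : volume (linesSet s k) = 0 := by
  have hk' : 0 < Real.sqrt k := Real.sqrt_pos.mpr (by exact_mod_cast hk)
  have h : linesSet s k ⊆ ⋃ m : ℤ, ({z : ℂ | z.re ∈ ({(m : ℝ) * s * Real.sqrt k} : Set ℝ) ∧ z.im ∈ (Set.univ : Set ℝ)}
      ∪ {z : ℂ | z.re ∈ (Set.univ : Set ℝ) ∧ z.im ∈ ({(m : ℝ) * s * Real.sqrt k} : Set ℝ)}) := by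
    rintro z ⟨m, hm⟩
    rw [Set.mem_iUnion]
    refine ⟨m, ?_⟩
    simp only [Complex.smul_re, Complex.smul_im, smul_eq_mul] at hm
    rcases hm with hm | hm
    · left
      refine ⟨?_, trivial⟩
      rw [Set.mem_singleton_iff, ← hm]
      field_simp
    · right
      refine ⟨trivial, ?_⟩
      rw [Set.mem_singleton_iff, ← hm]
      field_simp
  refine measure_mono_null h ?_
  rw [measure_iUnion_null_iff]
  intro m
  rw [measure_union_null_iff]
  constructor
  · rw [P3_prod (measurableSet_singleton _) MeasurableSet.univ, Real.volume_singleton, zero_mul]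
  · rw [P3_prod MeasurableSet.univ (measurableSet_singleton _), Real.volume_singleton, mul_zero]

theorem P3_square (a : ℝ) : square a = {z : ℂ | z.re ∈ Set.Icc 0 a ∧ z.im ∈ Set.Icc 0 a} := by
  ext z
  simp only [square, Set.mem_setOf_eq, Set.mem_Icc]
  tauto

theorem measurableSet_square (a : ℝ) : MeasurableSet (square a) := by
  rw [P3_square]
  exact (Complex.measurable_re measurableSet_Icc).inter (Complex.measurable_im measurableSet_Icc)

theorem volume_square {a : ℝ} (ha : 0 ≤ a) : (volume (square a)).toReal = a ^ 2 := by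
  rw [P3_square, P3_prod measurableSet_Icc measurableSet_Icc, Real.volume_Icc, ENNReal.toReal_mul, sub_zero,
    ENNReal.toReal_ofReal ha]
  ring

end Pool.Agent.H97.KN
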