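import Pool.Agent.H97.KN.P2
import Pool.Agent.H97.KN.P3

/-!
ROW P4 (MP_72793b_PR, probability).  Large deviations for the tiles; points on grid lines; total number of points.

`ld_tiles`: enumerate `J` by `J.equivFin.symm : Fin J.card ≃ J`, `A i = tileSet s k (J.equivFin.symm i)`; `hP.indep`, `hP.law`,
`hP.meas`, `P3`; apply `ld` with `N i ω = num (P ω) (A i)`; `∑ t ∈ J, tcost = ∑ i, s² hh (N i ω/(s² k))` (`cnt_scale`,
`Finset.sum_coe_sort`, `Equiv.sum_comp`).
`inside_ae`: if `¬ Inside s L (scale k (P ω))` then `num (P ω) (linesSet s k ∩ square (√n)) ≠ 0`: a point `z ∈ P ω` is in `square √n`,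
so `0 ≤ re ≤ √n = L s √k`; if it is on no grid line then `re` is not `0` (`m = 0`) and not `L s √k` (`m = L`).  The set has measure `0`, so
by `hP.law` with `m = 0`: `μ {num = 0} = ofReal (exp 0 * 0^0/0!) = 1`, so the complement is a null set
(`prob_compl_eq_zero_iff`, measurability from `hP.meas`).
`card_low`: `num (P ω) (square √n) = (P ω).card` (`hP.sub`); `μ {2 card < n} ≤ ∑' m, [2 m < n] μ {num = m}` and `low_le`.
-/

namespace Pool.Agent.H97.KN

open Finset MeasureTheory Pool.Agent.H77.KN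

theorem ld_tiles {Ω : Type*} [MeasurableSpace Ω] {μ : Measure Ω} {P : Ω → Finset ℂ} {a : ℝ}
    (hP : IsPoissonProcess μ P (square a)) {s : ℝ} (hs : 0 < s) (hs1 : s ≤ s0) {k L : ℕ} (hk : 0 < k)
    (hL : (L : ℝ) * s * Real.sqrt k = a) {J : Finset (ℤ × ℤ)} (hJ : J ⊆ grid L) (T : ℝ) :
    μ {ω | T ≤ ∑ t ∈ J, tcost s k (scale k (P ω)) t} ≤
      ENNReal.ofReal (((k : ℝ) + 1) ^ J.card * Real.exp (-(k * T)) + J.card * Real.exp (-(20 * k))) := by
  have hprob := hP.prob
  let e : Fin J.card ≃ J := J.equivFin.symm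
  have hsub : ∀ i, tileSet s k (e i).1 ⊆ square a := fun i =>
    tileSet_subset hs hk hL (hJ (e i).2)
  have h := ld (μ := μ) (N := fun (i : Fin J.card) ω => num (P ω) (tileSet s k (e i).1))
    (fun i => hP.meas _ (measurableSet_tileSet hs hk _))
    (hP.indep J.card (fun i => tileSet s k (e i).1) (fun i => measurableSet_tileSet hs hk _) hsub
      (fun i j hij => tileSet_disjoint fun h => hij (e.injective (Subtype.ext h)))) hs hs1 hk
    (fun i m => by
      rw [hP.law _ (measurableSet_tileSet hs hk _) (hsub i) m, volume_tileSet hs hk]) T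
  refine le_trans (le_of_eq ?_) h
  congr 1
  ext ω
  simp only [Set.mem_setOf_eq]
  have h1 : ∑ t ∈ J, tcost s k (scale k (P ω)) t =
      ∑ i, s ^ 2 * hh ((num (P ω) (tileSet s k (e i).1) : ℝ) / (s ^ 2 * k)) := by
    rw [← Finset.sum_coe_sort J, ← Equiv.sum_comp e]
    refine Finset.sum_congr rfl fun i _ => ?_
    rw [tcost, cnt_scale hk]
  rw [h1]

theorem P4_num_ne {P : Finset ℂ} {A : Set ℂ} {z : ℂ} (hz : z ∈ P) (hA : z ∈ A) : num P A ≠ 0 := by
  classical
  unfold num
  rw [Ne, Finset.card_eq_zero]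
  intro h
  have h5 : z ∈ (∅ : Finset ℂ) := by
    rw [← h]
    exact Finset.mem_filter.2 ⟨hz, hA⟩
  simp at h5

theorem inside_ae {Ω : Type*} [MeasurableSpace Ω] {μ : Measure Ω} {P : Ω → Finset ℂ} {a : ℝ}
    (hP : IsPoissonProcess μ P (square a)) {s : ℝ} (hs : 0 < s) {k L : ℕ} (hk : 0 < k)
    (hL : (L : ℝ) * s * Real.sqrt k = a) : μ {ω | ¬ Inside s L (scale k (P ω))} = 0 := by
  have hprob := hP.prob
  have hk' : (0 : ℝ) < Real.sqrt k := Real.sqrt_pos.2 (by exact_mod_cast hk)
  have hmeas : MeasurableSet (linesSet s k ∩ square a) :=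
    (measurableSet_linesSet hs hk).inter (measurableSet_square a)
  have hvol : volume (linesSet s k ∩ square a) = 0 :=
    measure_mono_null Set.inter_subset_left (volume_linesSet hs hk)
  have hlaw := hP.law _ hmeas Set.inter_subset_right 0
  rw [hvol] at hlaw
  simp only [ENNReal.toReal_zero, neg_zero, Real.exp_zero, pow_zero, mul_one,
    Nat.factorial_zero, Nat.cast_one, div_one, ENNReal.ofReal_one] at hlaw
  have hms : MeasurableSet {ω | num (P ω) (linesSet s k ∩ square a) = 0} :=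
    hP.meas _ hmeas (measurableSet_singleton 0)
  have hnull : μ {ω | num (P ω) (linesSet s k ∩ square a) = 0}ᶜ = 0 :=
    (prob_compl_eq_zero_iff hms).2 hlaw
  refine measure_mono_null ?_ hnull
  intro ω hω
  simp only [Set.mem_compl_iff, Set.mem_setOf_eq] at hω ⊢
  intro h0
  apply hω
  intro z' hz'
  classical
  rw [scale, Finset.mem_image] at hz'
  obtain ⟨z, hz, rfl⟩ := hz'
  have hsq := hP.sub ω z hz
  have hnl : z ∉ linesSet s k := by
    intro h
    exact P4_num_ne hz (show z ∈ linesSet s k ∩ square a from ⟨h, hsq⟩) h0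
  have hne : ∀ m : ℤ, (((Real.sqrt k)⁻¹ : ℝ) • z).re ≠ m * s ∧
      (((Real.sqrt k)⁻¹ : ℝ) • z).im ≠ m * s := by
    intro m
    constructor
    · intro h
      exact hnl ⟨m, Or.inl h⟩
    · intro h
      exact hnl ⟨m, Or.inr h⟩
  have hre : (((Real.sqrt k)⁻¹ : ℝ) • z).re = (Real.sqrt k)⁻¹ * z.re := by
    rw [Complex.real_smul, Complex.re_ofReal_mul]
  have him : (((Real.sqrt k)⁻¹ : ℝ) • z).im = (Real.sqrt k)⁻¹ * z.im := by
    rw [Complex.real_smul, Complex.im_ofReal_mul]
  have hLs : (Real.sqrt k)⁻¹ * a = L * s := by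
    rw [← hL]
    field_simp
  have hinv : 0 < (Real.sqrt k)⁻¹ := inv_pos.2 hk'
  obtain ⟨h1, h2, h3, h4⟩ := hsq
  have hz0 := hne 0
  have hzL := hne L
  refine ⟨hne, ?_, ?_, ?_, ?_⟩
  · refine lt_of_le_of_ne ?_ (fun h => hz0.1 (by rw [← h]; simp))
    rw [hre]; positivity
  · refine lt_of_le_of_ne ?_ (fun h => hzL.1 (by rw [h]; simp))
    rw [hre, ← hLs]
    exact mul_le_mul_of_nonneg_left h2 hinv.le
  · refine lt_of_le_of_ne ?_ (fun h => hz0.2 (by rw [← h]; simp))
    rw [him]; positivity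
  · refine lt_of_le_of_ne ?_ (fun h => hzL.2 (by rw [h]; simp))
    rw [him, ← hLs]
    exact mul_le_mul_of_nonneg_left h4 hinv.le

theorem card_low {Ω : Type*} [MeasurableSpace Ω] {μ : Measure Ω} {P : Ω → Finset ℂ} {n : ℝ} (hn : 0 ≤ n)
    (hP : IsPoissonProcess μ P (square (Real.sqrt n))) :
    μ {ω | 2 * ((P ω).card : ℝ) < n} ≤ ENNReal.ofReal (Real.exp (-(n / 10))) := by
  classical
  have hnum : ∀ ω, num (P ω) (square (Real.sqrt n)) = (P ω).card := fun ω => by
    rw [num, Finset.filter_true_of_mem fun z hz => hP.sub ω z hz]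
  have hlaw : ∀ m : ℕ, μ {ω | (P ω).card = m} =
      ENNReal.ofReal (Real.exp (-n) * n ^ m / m.factorial) := by
    intro m
    have h := hP.law _ (measurableSet_square _) subset_rfl m
    rw [volume_square (Real.sqrt_nonneg n), Real.sq_sqrt hn] at h
    simpa only [hnum] using h
  refine le_trans ?_ (low_le hn)
  calc μ {ω | 2 * ((P ω).card : ℝ) < n}
      ≤ μ (⋃ m : ℕ, (if 2 * (m : ℝ) < n then {ω | (P ω).card = m} else ∅ : Set Ω)) := by
        refine measure_mono fun ω hω => ?_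
        rw [Set.mem_iUnion]
        refine ⟨(P ω).card, ?_⟩
        rw [Set.mem_setOf_eq] at hω
        rw [if_pos hω]
        rfl
    _ ≤ ∑' m : ℕ, μ (if 2 * (m : ℝ) < n then {ω | (P ω).card = m} else ∅ : Set Ω) :=
        measure_iUnion_le _
    _ ≤ _ := by
        refine ENNReal.tsum_le_tsum fun m => ?_
        split_ifs with h
        · rw [hlaw m]
        · simp

end Pool.Agent.H97.KN
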