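import Mathlib

/-!
ROW P5 (MP_72793b_PR, analysis).  The error terms tend to `0`, uniformly for `a0 log n ≤ k ≤ C log n + 1`.

`term`: `n ≥ 1`, `k ≥ a0 log n ≥ 0`: `exp (-k T) ≤ exp (-a0 T log n) = n^{-a0 T}`, `exp (-20 k) ≤ exp (-k T)` (`T ≤ 20`), so
`c (√n)^j ((k+1)^r exp (-k T) + r exp (-20 k)) ≤ c n^{j/2} ((C log n + 2)^r + r) n^{-a0 T}` and
`n^{-δ} ((C log n + 2)^r + r) → 0` for `δ = a0 T - j/2 > 0` (`isLittleO_log_rpow_atTop`, `isLittleO_pow_log_id_atTop`, or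
`log n ≤ n^{η}/η`).
`log_num`: `Real.log 28.1 > 10/3`, i.e. `28.1^3 > e^10`: `28.1^3 = 22188.04 > 22026.47`; `Real.exp_one_lt_d9` (e < 2.7182818286,
`e^10 < 2.7182818286^10 = 22026.4658...`).  And `Real.log 28.1 ≤ 20`.
-/

namespace Pool.Agent.H97.KN

open Finset

theorem P5_tendsto (r : ℕ) {δ : ℝ} (hδ : 0 < δ) :
    Filter.Tendsto (fun n : ℝ => Real.log n ^ r * n ^ (-δ)) Filter.atTop (nhds 0) := by
  have h := (isLittleO_log_rpow_rpow_atTop (r : ℝ) hδ).tendsto_div_nhds_zero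
  refine h.congr' ?_
  filter_upwards [Filter.eventually_ge_atTop (1 : ℝ)] with n hn
  rw [Real.rpow_natCast, Real.rpow_neg (by linarith), div_eq_mul_inv]

theorem term {a0 T : ℝ} (ha0 : 0 < a0) (hT : 0 < T) (hT20 : T ≤ 20) {j : ℕ} (hj : (j : ℝ) / 2 < a0 * T) (r : ℕ)
    {c C : ℝ} (hc : 0 ≤ c) (hC : 0 ≤ C) {ε : ℝ} (hε : 0 < ε) :
    ∃ n0 : ℝ, 1 ≤ n0 ∧ ∀ n : ℝ, n0 ≤ n → ∀ k : ℕ, a0 * Real.log n ≤ k → (k : ℝ) ≤ C * Real.log n + 1 →
      c * Real.sqrt n ^ j * (((k : ℝ) + 1) ^ r * Real.exp (-(k * T)) + r * Real.exp (-(20 * k))) ≤ ε := by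
  set δ : ℝ := a0 * T - j / 2 with hδd
  have hδ : 0 < δ := by rw [hδd]; linarith
  have ht : Filter.Tendsto (fun n : ℝ => c * ((C + 2) ^ r * (Real.log n ^ r * n ^ (-δ)) +
      r * (Real.log n ^ 0 * n ^ (-δ)))) Filter.atTop (nhds (c * ((C + 2) ^ r * 0 + r * 0))) :=
    (((P5_tendsto r hδ).const_mul _).add ((P5_tendsto 0 hδ).const_mul _)).const_mul _
  have hev := ht.eventually (gt_mem_nhds (show c * ((C + 2) ^ r * 0 + r * 0) < ε by simpa using hε))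
  obtain ⟨n1, hn1⟩ := Filter.eventually_atTop.mp hev
  refine ⟨max n1 (Real.exp 1), le_max_of_le_right (Real.one_le_exp (by norm_num)), ?_⟩
  intro n hn k hk1 hk2
  have hne : Real.exp 1 ≤ n := le_trans (le_max_right _ _) hn
  have hn0 : 0 < n := lt_of_lt_of_le (Real.exp_pos 1) hne
  have hlog : 1 ≤ Real.log n := by
    rw [← Real.log_exp 1]
    exact Real.log_le_log (Real.exp_pos 1) hne
  have hmain := hn1 n (le_trans (le_max_left _ _) hn)
  refine le_trans ?_ hmain.le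
  have e1 : Real.sqrt n ^ j = n ^ ((j : ℝ) / 2) := by
    rw [Real.sqrt_eq_rpow, ← Real.rpow_natCast, ← Real.rpow_mul hn0.le]
    congr 1
    ring
  have e2 : Real.exp (-(k * T)) ≤ n ^ (-(a0 * T)) := by
    rw [Real.rpow_def_of_pos hn0, Real.exp_le_exp]
    have := mul_le_mul_of_nonneg_right hk1 hT.le
    nlinarith
  have e3 : Real.exp (-(20 * k)) ≤ Real.exp (-(k * T)) := by
    rw [Real.exp_le_exp]
    have hk0 : (0 : ℝ) ≤ k := Nat.cast_nonneg k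
    nlinarith
  have e4 : ((k : ℝ) + 1) ^ r ≤ (C + 2) ^ r * Real.log n ^ r := by
    rw [← mul_pow]
    gcongr
    nlinarith
  have e5 : n ^ ((j : ℝ) / 2) * n ^ (-(a0 * T)) = n ^ (-δ) := by
    rw [← Real.rpow_add hn0, hδd]
    congr 1
    ring
  have hp : 0 ≤ n ^ (-(a0 * T)) := Real.rpow_nonneg hn0.le _
  calc c * Real.sqrt n ^ j * (((k : ℝ) + 1) ^ r * Real.exp (-(k * T)) + r * Real.exp (-(20 * k)))
      ≤ c * Real.sqrt n ^ j * (((C + 2) ^ r * Real.log n ^ r) * n ^ (-(a0 * T)) +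
          r * n ^ (-(a0 * T))) := by
        gcongr
        exact e3.trans e2
    _ = c * ((C + 2) ^ r * (Real.log n ^ r * (n ^ ((j : ℝ) / 2) * n ^ (-(a0 * T)))) +
        r * (Real.log n ^ 0 * (n ^ ((j : ℝ) / 2) * n ^ (-(a0 * T))))) := by
        rw [e1, pow_zero]; ring
    _ = _ := by rw [e5]

theorem log_num : 10 / 3 < Real.log 28.1 := by
  rw [Real.lt_log_iff_exp_lt (by norm_num)]
  have h1 : Real.exp (10 / 3) ^ 3 = Real.exp 1 ^ 10 := by
    rw [← Real.exp_nat_mul, ← Real.exp_nat_mul]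
    norm_num
  have h2 : Real.exp 1 ^ 10 < (2.7182818286 : ℝ) ^ 10 := by
    gcongr
    exact Real.exp_one_lt_d9
  have h3 : (2.7182818286 : ℝ) ^ 10 < 28.1 ^ 3 := by norm_num
  have h4 : Real.exp (10 / 3) ^ 3 < (28.1 : ℝ) ^ 3 := by rw [h1]; exact h2.trans h3
  exact lt_of_pow_lt_pow_left₀ 3 (by norm_num) h4

theorem log_num' : Real.log 28.1 ≤ 20 := by
  have := Real.log_le_sub_one_of_pos (show (0 : ℝ) < 28.1 by norm_num)
  rw [Real.log_le_iff_le_exp (by norm_num)]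
  have h1 : (20 : ℝ) / 1 + 1 ≤ Real.exp 20 := by
    have := Real.add_one_le_exp (20 : ℝ)
    linarith
  have h2 : Real.exp 20 = Real.exp 10 * Real.exp 10 := by rw [← Real.exp_add]; norm_num
  have h3 := Real.add_one_le_exp (10 : ℝ)
  nlinarith

end Pool.Agent.H97.KN
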