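import Pool.Agent.H97.KN.Defs

/-!
ROW P6a (MP_72793b_PR, counting and elementary analysis).

`card_near1`: `nearc = 1` (or `≥ 1`) forces `t.1 < R` or `L - R ≤ t.1` or `t.2 < R` or `L - R ≤ t.2`: four strips of at most
`R L` tiles each.  `card_near2`: `nearc = 2`: both coordinates are in `[0,R) ∪ [L-R,L)`: at most `(2R)^2` tiles.
`grid_params`: `x = √(n/k)/s0`, `L = ⌈x⌉₊`, `s = √(n/k)/L`; if `x ≥ 1` then `x ≤ L ≤ 2 x`, so `s0/2 ≤ s ≤ s0`, and
`L s √k = √n`; `L ≥ x ≥ √(n/(C log n + 1))/s0 → ∞` (`log n / n → 0`).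
-/

namespace Pool.Agent.H97.KN

open Finset MeasureTheory Pool.Agent.H77.KN

theorem card_grid (L : ℕ) : (grid L).card = L ^ 2 := by
  unfold grid
  rw [Finset.card_product, Int.card_Ico]
  simp [pow_two]

theorem card_near1 (L R : ℕ) : ((grid L).filter (fun t => nearc L R t = 1)).card ≤ 4 * R * L := by
  have hsub : (grid L).filter (fun t => nearc L R t = 1) ⊆
      ((Finset.Ico 0 (R : ℤ) ×ˢ Finset.Ico 0 (L : ℤ)) ∪ (Finset.Ico ((L : ℤ) - R) L ×ˢ Finset.Ico 0 (L : ℤ))) ∪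
      ((Finset.Ico 0 (L : ℤ) ×ˢ Finset.Ico 0 (R : ℤ)) ∪ (Finset.Ico 0 (L : ℤ) ×ˢ Finset.Ico ((L : ℤ) - R) L)) := by
    rintro ⟨a, b⟩ h
    rw [Finset.mem_filter] at h
    simp only [grid, Finset.mem_product, Finset.mem_Ico, nearc, Finset.mem_union] at h ⊢
    obtain ⟨⟨⟨h1, h2⟩, h3, h4⟩, h5⟩ := h
    by_cases hA : a < (R : ℤ) ∨ (L : ℤ) ≤ a + R
    · left
      rcases hA with hA | hA
      · left; exact ⟨⟨h1, hA⟩, h3, h4⟩
      · right; exact ⟨⟨by linarith, h2⟩, h3, h4⟩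
    · by_cases hB : b < (R : ℤ) ∨ (L : ℤ) ≤ b + R
      · right
        rcases hB with hB | hB
        · left; exact ⟨⟨h1, h2⟩, h3, hB⟩
        · right; exact ⟨⟨h1, h2⟩, by linarith, h4⟩
      · rw [if_neg hA, if_neg hB] at h5
        simp at h5
  refine (Finset.card_le_card hsub).trans ?_
  refine (Finset.card_union_le _ _).trans ?_
  refine (Nat.add_le_add (Finset.card_union_le _ _) (Finset.card_union_le _ _)).trans ?_
  simp only [Finset.card_product, Int.card_Ico]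
  have e1 : ((R : ℤ) - 0).toNat = R := by simp
  have e2 : ((L : ℤ) - 0).toNat = L := by simp
  have e3 : ((L : ℤ) - ((L : ℤ) - R)).toNat = R := by
    rw [sub_sub_cancel]; simp
  rw [e1, e2, e3]
  apply le_of_eq
  ring

theorem card_near2 (L R : ℕ) : ((grid L).filter (fun t => nearc L R t = 2)).card ≤ 4 * R ^ 2 := by
  have hsub : (grid L).filter (fun t => nearc L R t = 2) ⊆
      (Finset.Ico 0 (R : ℤ) ∪ Finset.Ico ((L : ℤ) - R) L) ×ˢ (Finset.Ico 0 (R : ℤ) ∪ Finset.Ico ((L : ℤ) - R) L) := by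
    rintro ⟨a, b⟩ h
    rw [Finset.mem_filter] at h
    simp only [grid, Finset.mem_product, Finset.mem_Ico, nearc, Finset.mem_union] at h ⊢
    obtain ⟨⟨⟨h1, h2⟩, h3, h4⟩, h5⟩ := h
    by_cases hA : a < (R : ℤ) ∨ (L : ℤ) ≤ a + R
    · by_cases hB : b < (R : ℤ) ∨ (L : ℤ) ≤ b + R
      · constructor
        · rcases hA with hA | hA
          · left; exact ⟨h1, hA⟩
          · right; exact ⟨by linarith, h2⟩
        · rcases hB with hB | hB
          · left; exact ⟨h3, hB⟩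
          · right; exact ⟨by linarith, h4⟩
      · rw [if_pos hA, if_neg hB] at h5
        simp at h5
    · rw [if_neg hA] at h5
      split_ifs at h5 <;> simp at h5
  refine (Finset.card_le_card hsub).trans ?_
  rw [Finset.card_product]
  have h2 : (Finset.Ico 0 (R : ℤ) ∪ Finset.Ico ((L : ℤ) - R) L).card ≤ 2 * R := by
    refine (Finset.card_union_le _ _).trans ?_
    simp only [Int.card_Ico]
    have e1 : ((R : ℤ) - 0).toNat = R := by simp
    have e3 : ((L : ℤ) - ((L : ℤ) - R)).toNat = R := by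
      rw [sub_sub_cancel]; simp
    rw [e1, e3]
    omega
  calc _ ≤ (2 * R) * (2 * R) := Nat.mul_le_mul h2 h2
    _ = 4 * R ^ 2 := by ring

theorem card_blk_le (R L : ℕ) (t : ℤ × ℤ) : (blk R t ∩ grid L).card ≤ (2 * R + 1) ^ 2 := by
  refine (Finset.card_le_card Finset.inter_subset_left).trans ?_
  unfold blk
  rw [Finset.card_product, Int.card_Icc, Int.card_Icc]
  have e1 : ∀ c : ℤ, (c + R + 1 - (c - R)).toNat = 2 * R + 1 := by
    intro c
    omega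
  rw [e1, e1]
  apply le_of_eq
  ring

theorem card_window_le (K L : ℕ) (a b : ℤ) : (window K a b ∩ grid L).card ≤ K ^ 2 := by
  refine (Finset.card_le_card Finset.inter_subset_left).trans ?_
  unfold window
  rw [Finset.card_product, Int.card_Ico, Int.card_Ico]
  have e1 : ∀ c : ℤ, (c + K - c).toNat = K := by
    intro c
    omega
  rw [e1, e1]
  apply le_of_eq
  ring

theorem nearc_le (L R : ℕ) (t : ℤ × ℤ) : nearc L R t ≤ 2 := by
  unfold nearc
  split_ifs <;> omega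

theorem grid_params {C : ℝ} (hC : 0 ≤ C) (M : ℕ) :
    ∃ n0 : ℝ, 1 ≤ n0 ∧ ∀ n : ℝ, n0 ≤ n → ∀ k : ℕ, 0 < k → (k : ℝ) ≤ C * Real.log n + 1 →
      ∃ (s : ℝ) (L : ℕ), s0 / 2 ≤ s ∧ s ≤ s0 ∧ (L : ℝ) * s * Real.sqrt k = Real.sqrt n ∧ M ≤ L := by
  have hM : (0 : ℝ) ≤ M := Nat.cast_nonneg M
  have hM1 : (1 : ℝ) ≤ ((M : ℝ) + 1) ^ 2 := by nlinarith
  have hB1 : 1 ≤ (2 * C + 1) * ((M : ℝ) + 1) ^ 2 := by nlinarith
  refine ⟨((2 * C + 1) * ((M : ℝ) + 1) ^ 2) ^ 2, one_le_pow₀ hB1, ?_⟩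
  intro n hn k hk hkn
  have hn1 : 1 ≤ n := (one_le_pow₀ hB1).trans hn
  have hq2 : Real.sqrt n * Real.sqrt n = n := Real.mul_self_sqrt (by linarith)
  have hqB : (2 * C + 1) * ((M : ℝ) + 1) ^ 2 ≤ Real.sqrt n := by
    apply Real.le_sqrt_of_sq_le
    exact hn
  have hq1 : 1 ≤ Real.sqrt n := hB1.trans hqB
  have hlog : Real.log n ≤ 2 * Real.sqrt n := by
    have h1 : Real.log (Real.sqrt n) ≤ Real.sqrt n - 1 := Real.log_le_sub_one_of_pos (by linarith)
    rw [Real.log_sqrt (by linarith)] at h1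
    linarith
  have hk1 : (k : ℝ) ≤ (2 * C + 1) * Real.sqrt n := by
    have h1 : C * Real.log n ≤ C * (2 * Real.sqrt n) := mul_le_mul_of_nonneg_left hlog hC
    linarith
  have hkpos : (0 : ℝ) < k := by exact_mod_cast hk
  have hsk : 0 < Real.sqrt k := Real.sqrt_pos.2 hkpos
  have hkM : Real.sqrt k * ((M : ℝ) + 1) ≤ Real.sqrt n := by
    apply Real.le_sqrt_of_sq_le
    rw [mul_pow, Real.sq_sqrt hkpos.le]
    calc (k : ℝ) * ((M : ℝ) + 1) ^ 2 ≤ ((2 * C + 1) * Real.sqrt n) * ((M : ℝ) + 1) ^ 2 :=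
          mul_le_mul_of_nonneg_right hk1 (by positivity)
      _ = ((2 * C + 1) * ((M : ℝ) + 1) ^ 2) * Real.sqrt n := by ring
      _ ≤ Real.sqrt n * Real.sqrt n := mul_le_mul_of_nonneg_right hqB (by linarith)
      _ = n := hq2
  have hs0 : (0 : ℝ) < s0 := by unfold s0; norm_num
  have hs1 : s0 ≤ 1 := by unfold s0; norm_num
  set x : ℝ := Real.sqrt n / (Real.sqrt k * s0) with hx
  have hxM : (M : ℝ) + 1 ≤ x := by
    rw [hx, le_div_iff₀ (by positivity)]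
    have h1 : ((M : ℝ) + 1) * (Real.sqrt k * s0) ≤ (Real.sqrt k * ((M : ℝ) + 1)) * 1 := by
      have : ((M : ℝ) + 1) * (Real.sqrt k * s0) = (Real.sqrt k * ((M : ℝ) + 1)) * s0 := by ring
      rw [this]
      exact mul_le_mul_of_nonneg_left hs1 (by positivity)
    linarith
  have hx1 : 1 ≤ x := by linarith
  have hLx : x ≤ (⌈x⌉₊ : ℝ) := Nat.le_ceil x
  have hLx2 : (⌈x⌉₊ : ℝ) < x + 1 := Nat.ceil_lt_add_one (by linarith)
  have hL : (0 : ℝ) < (⌈x⌉₊ : ℝ) := by linarith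
  have hxs : x * s0 * Real.sqrt k = Real.sqrt n := by
    rw [hx]; field_simp
  refine ⟨x * s0 / ⌈x⌉₊, ⌈x⌉₊, ?_, ?_, ?_, ?_⟩
  · rw [le_div_iff₀ hL]
    have : (⌈x⌉₊ : ℝ) ≤ 2 * x := by linarith
    nlinarith
  · rw [div_le_iff₀ hL]
    nlinarith
  · rw [mul_div_cancel₀ _ hL.ne']
    exact hxs
  · have : (M : ℝ) ≤ (⌈x⌉₊ : ℝ) := by linarith
    exact_mod_cast this

end Pool.Agent.H97.KN
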