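import Pool.Agent.H97.KN.P4
import Pool.Agent.H97.KN.P5
import Pool.Agent.H97.KN.P6a

/-!
ROW P6 (MP_72793b_PR, probability).  `Nice` holds with high probability.

`{¬ Nice} ⊆ {¬ Inside} ∪ ⋃_{(a,b) ∈ grid L} {4 ≤ ∑_{window (K+6) (a-3) (b-3) ∩ grid L} tcost}
  ∪ ⋃_{t ∈ grid L} {log 28.1 / 2^nearc ≤ ∑_{blk R t ∩ grid L} tcost} ∪ {2 card < n}`.
(valid windows have `0 ≤ a`, `a + K ≤ L`, `0 < K`, so `(a,b) ∈ grid L`; `big`: `s² k L² = (L s √k)² = n`, card of `scale` = card.)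
`L = √n/(s √k) ≤ c1 √n`, `c1 = 2/s0` (`k ≥ 1`, `s ≥ s0/2`).  By `ld_tiles` and `card_*`:
windows: `≤ L² ((k+1)^r e^{-4k} + r e^{-20 k})`, `r = (K+6)²`: `term` with `a0 = 0.3`, `T = 4`, `j = 2`, `c = c1²`.
`nearc = 0`: `≤ L² (...)` with `T = log 28.1`, `r = (2R+1)²`, `j = 2` (`0.3 log 28.1 > 1`, `log_num`).
`nearc = 1`: `≤ 4 R L (...)`, `T = (log 28.1)/2`, `j = 1`, `c = 4 R c1`.  `nearc = 2`: `≤ 4 R² (...)`, `T = (log 28.1)/4`, `j = 0`.
`{2 card < n}`: `card_low`, `exp (-n/10) ≤ ε/5` for large `n`.  Each of the five terms `≤ ε/5` for `n ≥ n0` = maximum.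
(`measure_union_le`, `measure_biUnion_finset_le`, `Finset.sum_le_card_nsmul`; take `n0 > 1` so large that `0.3 log n0 > 0`, so `k ≥ 1`.)
-/

namespace Pool.Agent.H97.KN

open Finset MeasureTheory Pool.Agent.H77.KN

universe u

theorem P6_tile {Ω : Type*} [MeasurableSpace Ω] {μ : Measure Ω} {P : Ω → Finset ℂ} {a : ℝ}
    (hP : IsPoissonProcess μ P (square a)) {s : ℝ} (hs : 0 < s) (hs1 : s ≤ s0) {k L : ℕ} (hk : 0 < k)
    (hL : (L : ℝ) * s * Real.sqrt k = a) {J : Finset (ℤ × ℤ)} (hJ : J ⊆ grid L) (T : ℝ) {r : ℕ}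
    (hr : J.card ≤ r) :
    μ {ω | T ≤ ∑ t ∈ J, tcost s k (scale k (P ω)) t} ≤
      ENNReal.ofReal (((k : ℝ) + 1) ^ r * Real.exp (-(k * T)) + r * Real.exp (-(20 * k))) := by
  refine (ld_tiles hP hs hs1 hk hL hJ T).trans (ENNReal.ofReal_le_ofReal ?_)
  have h1 : (1 : ℝ) ≤ (k : ℝ) + 1 := by
    have : (0 : ℝ) ≤ (k : ℝ) := Nat.cast_nonneg k
    linarith
  have h2 : ((k : ℝ) + 1) ^ J.card ≤ ((k : ℝ) + 1) ^ r := pow_le_pow_right₀ h1 hr
  have h3 : (J.card : ℝ) ≤ (r : ℝ) := by exact_mod_cast hr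
  have h4 := (Real.exp_pos (-(k * T))).le
  have h5 := (Real.exp_pos (-(20 * (k : ℝ)))).le
  exact add_le_add (mul_le_mul_of_nonneg_right h2 h4) (mul_le_mul_of_nonneg_right h3 h5)

theorem P6_union {Ω : Type*} [MeasurableSpace Ω] {μ : Measure Ω} {P : Ω → Finset ℂ} {a : ℝ}
    (hP : IsPoissonProcess μ P (square a)) {s : ℝ} (hs : 0 < s) (hs1 : s ≤ s0) {k L : ℕ} (hk : 0 < k)
    (hL : (L : ℝ) * s * Real.sqrt k = a) (S : Finset (ℤ × ℤ)) (J : ℤ × ℤ → Finset (ℤ × ℤ))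
    (hJ : ∀ t ∈ S, J t ⊆ grid L) (T : ℝ) {r : ℕ} (hr : ∀ t ∈ S, (J t).card ≤ r) {m : ℝ}
    (hm : (S.card : ℝ) ≤ m) {ε : ℝ}
    (hε : m * (((k : ℝ) + 1) ^ r * Real.exp (-(k * T)) + r * Real.exp (-(20 * k))) ≤ ε) :
    μ (⋃ t ∈ S, {ω | T ≤ ∑ t' ∈ J t, tcost s k (scale k (P ω)) t'}) ≤ ENNReal.ofReal ε := by
  refine (measure_biUnion_finset_le S _).trans ?_
  refine (Finset.sum_le_card_nsmul S _ _
    (fun t ht => P6_tile hP hs hs1 hk hL (hJ t ht) T (hr t ht))).trans ?_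
  rw [nsmul_eq_mul, ← ENNReal.ofReal_natCast, ← ENNReal.ofReal_mul (by positivity)]
  apply ENNReal.ofReal_le_ofReal
  refine le_trans ?_ hε
  exact mul_le_mul_of_nonneg_right hm (by positivity)

theorem P6_five {Ω : Type*} [MeasurableSpace Ω] {μ : Measure Ω} {A A1 A2 A3 A4 A5 A6 : Set Ω} {ε : ℝ} (hε : 0 < ε)
    (h : A ⊆ A1 ∪ (A2 ∪ (A3 ∪ (A4 ∪ (A5 ∪ A6))))) (h1 : μ A1 = 0) (h2 : μ A2 ≤ ENNReal.ofReal (ε / 5))
    (h3 : μ A3 ≤ ENNReal.ofReal (ε / 5)) (h4 : μ A4 ≤ ENNReal.ofReal (ε / 5))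
    (h5 : μ A5 ≤ ENNReal.ofReal (ε / 5)) (h6 : μ A6 ≤ ENNReal.ofReal (ε / 5)) :
    μ A ≤ ENNReal.ofReal ε := by
  have e : (0 : ℝ) ≤ ε / 5 := by positivity
  calc μ A ≤ μ (A1 ∪ (A2 ∪ (A3 ∪ (A4 ∪ (A5 ∪ A6))))) := measure_mono h
    _ ≤ μ A1 + (μ A2 + (μ A3 + (μ A4 + (μ A5 + μ A6)))) := by
        refine (measure_union_le _ _).trans (add_le_add le_rfl ?_)
        refine (measure_union_le _ _).trans (add_le_add le_rfl ?_)
        refine (measure_union_le _ _).trans (add_le_add le_rfl ?_)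
        refine (measure_union_le _ _).trans (add_le_add le_rfl ?_)
        exact measure_union_le _ _
    _ ≤ 0 + (ENNReal.ofReal (ε / 5) + (ENNReal.ofReal (ε / 5) + (ENNReal.ofReal (ε / 5) +
          (ENNReal.ofReal (ε / 5) + ENNReal.ofReal (ε / 5))))) := by
        refine add_le_add h1.le (add_le_add h2 (add_le_add h3 (add_le_add h4 (add_le_add h5 h6))))
    _ = ENNReal.ofReal ε := by
        rw [zero_add, ← ENNReal.ofReal_add e e, ← ENNReal.ofReal_add e (by positivity),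
          ← ENNReal.ofReal_add e (by positivity), ← ENNReal.ofReal_add e (by positivity)]
        congr 1
        ring

theorem P6_card {k : ℕ} {Q : Finset ℂ} (hk : 0 < k) : (scale k Q).card = Q.card := by
  unfold scale
  apply Finset.card_image_of_injective
  have h1 : (0 : ℝ) < Real.sqrt k := Real.sqrt_pos.mpr (by exact_mod_cast hk)
  exact smul_right_injective ℂ (inv_ne_zero h1.ne')

theorem prob_nice {K : ℕ} (hK : 0 < K) (R : ℕ) {C : ℝ} (hC : 0 ≤ C) {ε : ℝ} (hε : 0 < ε) :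
    ∃ n0 : ℝ, 1 < n0 ∧ ∀ n : ℝ, n0 ≤ n → ∀ k : ℕ, 0.3 * Real.log n ≤ k → (k : ℝ) ≤ C * Real.log n + 1 →
      ∀ (Ω : Type u) [MeasurableSpace Ω] (μ : Measure Ω) (P : Ω → Finset ℂ),
      IsPoissonProcess μ P (square (Real.sqrt n)) → ∀ (s : ℝ) (L : ℕ), s0 / 2 ≤ s → s ≤ s0 →
      (L : ℝ) * s * Real.sqrt k = Real.sqrt n →
      μ {ω | ¬ Nice s L k K R (scale k (P ω))} ≤ ENNReal.ofReal ε := by
  have hs0 : (0 : ℝ) < s0 := by unfold s0; norm_num
  have hD := log_num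
  have hD' := log_num'
  set D : ℝ := Real.log 28.1 with hDdef
  have hε5 : 0 < ε / 5 := by positivity
  set c1 : ℝ := 2 / s0 with hc1
  have hc1p : 0 < c1 := by positivity
  obtain ⟨n1, hn1, H1⟩ := term (a0 := 0.3) (T := 4) (by norm_num) (by norm_num) (by norm_num) (j := 2)
    (by norm_num) ((K + 6) ^ 2) (c := c1 ^ 2) (C := C) (by positivity) hC hε5
  obtain ⟨n2, hn2, H2⟩ := term (a0 := 0.3) (T := D) (by norm_num) (by linarith) (by linarith) (j := 2)
    (by norm_num; linarith) ((2 * R + 1) ^ 2) (c := c1 ^ 2) (C := C) (by positivity) hC hε5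
  obtain ⟨n3, hn3, H3⟩ := term (a0 := 0.3) (T := D / 2) (by norm_num) (by linarith) (by linarith) (j := 1)
    (by norm_num; linarith) ((2 * R + 1) ^ 2) (c := 4 * R * c1) (C := C) (by positivity) hC hε5
  obtain ⟨n4, hn4, H4⟩ := term (a0 := 0.3) (T := D / 4) (by norm_num) (by linarith) (by linarith) (j := 0)
    (by norm_num; linarith) ((2 * R + 1) ^ 2) (c := 4 * R ^ 2) (C := C) (by positivity) hC hε5
  refine ⟨2 + n1 + n2 + n3 + n4 + 50 / ε, ?_, ?_⟩
  · have : 0 < 50 / ε := by positivity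
    linarith
  intro n hn k hk1 hk2 Ω _ μ P hP s L hs1 hs2 hL
  have h50 : 0 < 50 / ε := by positivity
  have hn1' : n1 ≤ n := by linarith
  have hn2' : n2 ≤ n := by linarith
  have hn3' : n3 ≤ n := by linarith
  have hn4' : n4 ≤ n := by linarith
  have hn5' : 50 / ε ≤ n := by linarith
  have hn0 : 1 < n := by linarith
  have hnpos : 0 < n := by linarith
  have hlog : 0 < Real.log n := Real.log_pos hn0
  have hkpos : 0 < k := by
    have h1 : (0 : ℝ) < (k : ℝ) := by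
      have : (0 : ℝ) < 0.3 * Real.log n := by positivity
      linarith
    exact_mod_cast h1
  have hspos : 0 < s := by linarith
  have hsk : 1 ≤ Real.sqrt k := by
    rw [Real.one_le_sqrt]
    exact_mod_cast hkpos
  have hL1 : (L : ℝ) ≤ c1 * Real.sqrt n := by
    have h1 : (L : ℝ) * (s0 / 2) ≤ Real.sqrt n := by
      rw [← hL]
      have h2 : (L : ℝ) * (s0 / 2) ≤ (L : ℝ) * s := by gcongr
      have h3 : (L : ℝ) * s ≤ (L : ℝ) * s * Real.sqrt k := by
        have : 0 ≤ (L : ℝ) * s := by positivity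
        nlinarith
      linarith
    have h4 : (L : ℝ) = c1 * ((L : ℝ) * (s0 / 2)) := by
      rw [hc1]
      field_simp
    rw [h4]
    gcongr
  have hL0 : (0 : ℝ) ≤ (L : ℝ) := Nat.cast_nonneg L
  have hgrid : ((grid L).card : ℝ) ≤ c1 ^ 2 * Real.sqrt n ^ 2 := by
    rw [card_grid, Nat.cast_pow, ← mul_pow]
    gcongr
  -- the six events
  have B1 := inside_ae hP hspos hkpos hL
  have B2 := P6_union hP hspos hs2 hkpos hL (grid L)
    (fun t => window (K + 6) (t.1 - 3) (t.2 - 3) ∩ grid L) (fun t _ => Finset.inter_subset_right) 4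
    (r := (K + 6) ^ 2) (fun t _ => card_window_le _ _ _ _) hgrid (by
      have := H1 n hn1' k hk1 hk2
      exact_mod_cast this)
  have B3 := P6_union hP hspos hs2 hkpos hL ((grid L).filter (fun t => nearc L R t = 0))
    (fun t => blk R t ∩ grid L) (fun t _ => Finset.inter_subset_right) D
    (r := (2 * R + 1) ^ 2) (fun t _ => card_blk_le _ _ _)
    (m := c1 ^ 2 * Real.sqrt n ^ 2) ((Nat.cast_le.mpr (Finset.card_filter_le _ _)).trans hgrid) (by
      have := H2 n hn2' k hk1 hk2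
      exact_mod_cast this)
  have B4 := P6_union hP hspos hs2 hkpos hL ((grid L).filter (fun t => nearc L R t = 1))
    (fun t => blk R t ∩ grid L) (fun t _ => Finset.inter_subset_right) (D / 2)
    (r := (2 * R + 1) ^ 2) (fun t _ => card_blk_le _ _ _)
    (m := 4 * R * c1 * Real.sqrt n ^ 1) (by
      have h1 : (((grid L).filter (fun t => nearc L R t = 1)).card : ℝ) ≤ ((4 * R * L : ℕ) : ℝ) :=
        Nat.cast_le.mpr (card_near1 L R)
      refine h1.trans ?_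
      push_cast
      rw [pow_one, mul_assoc (4 * (R : ℝ)) c1]
      gcongr) (by
      have := H3 n hn3' k hk1 hk2
      exact_mod_cast this)
  have B5 := P6_union hP hspos hs2 hkpos hL ((grid L).filter (fun t => nearc L R t = 2))
    (fun t => blk R t ∩ grid L) (fun t _ => Finset.inter_subset_right) (D / 4)
    (r := (2 * R + 1) ^ 2) (fun t _ => card_blk_le _ _ _)
    (m := 4 * R ^ 2 * Real.sqrt n ^ 0) (by
      have h1 : (((grid L).filter (fun t => nearc L R t = 2)).card : ℝ) ≤ ((4 * R ^ 2 : ℕ) : ℝ) :=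
        Nat.cast_le.mpr (card_near2 L R)
      refine h1.trans ?_
      push_cast
      rw [pow_zero, mul_one]) (by
      have := H4 n hn4' k hk1 hk2
      exact_mod_cast this)
  have B6 : μ {ω | 2 * ((P ω).card : ℝ) < n} ≤ ENNReal.ofReal (ε / 5) := by
    refine (card_low hnpos.le hP).trans (ENNReal.ofReal_le_ofReal ?_)
    rw [Real.exp_neg]
    have h1 : n / 10 ≤ Real.exp (n / 10) := by
      have := Real.add_one_le_exp (n / 10)
      linarith
    have h2 : 5 / ε ≤ Real.exp (n / 10) := by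
      have h3 : 50 / ε / 10 ≤ n / 10 := by gcongr
      have h4 : 50 / ε / 10 = 5 / ε := by ring
      linarith
    have h5 : (Real.exp (n / 10))⁻¹ ≤ (5 / ε)⁻¹ := inv_anti₀ (by positivity) h2
    rwa [inv_div] at h5
  refine P6_five hε ?_ B1 B2 B3 B4 B5 B6
  intro ω hω
  by_contra hcon
  simp only [Set.mem_union, not_or] at hcon
  obtain ⟨c0, c2, c3, c4, c5, c6⟩ := hcon
  apply hω
  refine ⟨?_, ?_, ?_, ?_⟩
  · by_contra h
    exact c0 h
  · intro a b ha hb haL hbL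
    by_contra h
    apply c2
    refine Set.mem_iUnion₂.mpr ⟨(a, b), ?_, not_lt.mp h⟩
    unfold grid
    rw [Finset.mem_product, Finset.mem_Ico, Finset.mem_Ico]
    have : (0 : ℤ) < (K : ℤ) := by exact_mod_cast hK
    refine ⟨⟨ha, ?_⟩, ⟨hb, ?_⟩⟩
    · show a < (L : ℤ)
      linarith
    · show b < (L : ℤ)
      linarith
  · intro t ht
    by_contra h
    have hle := nearc_le L R t
    have h' := not_lt.mp h
    have hcase : nearc L R t = 0 ∨ nearc L R t = 1 ∨ nearc L R t = 2 := by omega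
    rcases hcase with hc | hc | hc
    · apply c3
      refine Set.mem_iUnion₂.mpr ⟨t, Finset.mem_filter.mpr ⟨ht, hc⟩, ?_⟩
      rw [hc, pow_zero, div_one] at h'
      exact h'
    · apply c4
      refine Set.mem_iUnion₂.mpr ⟨t, Finset.mem_filter.mpr ⟨ht, hc⟩, ?_⟩
      rw [hc, pow_one] at h'
      exact h'
    · apply c5
      refine Set.mem_iUnion₂.mpr ⟨t, Finset.mem_filter.mpr ⟨ht, hc⟩, ?_⟩
      rw [hc] at h'
      norm_num at h'
      show D / 4 ≤ _
      rw [hDdef]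
      norm_num
      exact h'
  · rw [P6_card hkpos]
    have h1 : n ≤ 2 * ((P ω).card : ℝ) := not_lt.mp c6
    have h2 : s ^ 2 * k * L ^ 2 = n := by
      have h3 : ((L : ℝ) * s * Real.sqrt k) ^ 2 = Real.sqrt n ^ 2 := by rw [hL]
      rw [Real.sq_sqrt hnpos.le, mul_pow, mul_pow, Real.sq_sqrt (Nat.cast_nonneg k)] at h3
      linarith
    rw [h2]
    exact h1

end Pool.Agent.H97.KN
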