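import Pool.Agent.H97.KN.Defs

/-!
ROW W1 (MP_72793b_PR, deterministic).  Costs of bad tiles.

`hh_nonneg`: `x log x - x + 1 ≥ 0` for `x ≥ 0` (`Real.log_le_sub_one_of_pos` for `1/x`, or
`Real.one_sub_inv_le_log_of_pos`; `x = 0` separately).  `tcost_nonneg` follows.
`hh_mono`: for `1 ≤ x ≤ y`, `hh x ≤ hh y`: `y log y - x log x ≥ (y - x)`: `y log y = x log y + (y-x) log y`,
`log y ≥ log x + (1 - x/y)`..., e.g. `x (log y - log x) ≥ x (1 - x / y)` and `(y-x) log y ≥ (y-x) (1 - 1/y)`; simplest: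
derivative `log ≥ 0` (`monotoneOn_of_deriv_nonneg`).
`cnt_le_of_tcost`: if `cnt ≥ k + 1 > k` then `x = cnt/(s² k) ≥ 1/s² ≥ 1e18`, `hh x ≥ hh (1/s²)`, so
`tcost ≥ s² hh (1/s²) = log (1/s²) - 1 + s² ≥ log (1e18) - 1 ≥ 4` (`log 1e18 = 18 log 10 ≥ 36`, e.g. `exp 5 ≤ 1e18`).
`bad_cost`: `¬ Good` means `cnt t = 0` or `∑_{blk 3 t} cnt ≥ k`.  First case: `tcost t = s² hh 0 = s²` and `t ∈ blk 3 t ∩ grid`, the
other terms are `≥ 0`.  Second case: `cnt t' = 0` outside `grid L` (`Inside`), so `∑_{blk 3 t ∩ grid} cnt ≥ k`, at most `49`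
tiles, so one tile `t'` has `49 cnt ≥ k`: `x = cnt/(s² k) ≥ 1/(49 s²) ≥ 1e16`, `s² hh x ≥ s²` as `hh x ≥ x (log x - 1) ≥ 1`.
-/

namespace Pool.Agent.H97.KN

open Finset MeasureTheory Pool.Agent.H77.KN

theorem hh_nonneg {x : ℝ} (hx : 0 ≤ x) : 0 ≤ hh x := by
  unfold hh
  rcases hx.eq_or_lt with h | h
  · rw [← h]
    norm_num
  · have h1 := Real.one_sub_inv_le_log_of_pos h
    have h2 := mul_le_mul_of_nonneg_left h1 hx
    have h3 : x * (1 - x⁻¹) = x - 1 := by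
      field_simp
    linarith

theorem tcost_nonneg {s : ℝ} {k : ℕ} {Q : Finset ℂ} {t : ℤ × ℤ} : 0 ≤ tcost s k Q t := by
  unfold tcost
  exact mul_nonneg (sq_nonneg s) (hh_nonneg (by positivity))

theorem hh_mono {x y : ℝ} (hx : 1 ≤ x) (hxy : x ≤ y) : hh x ≤ hh y := by
  have hx0 : 0 < x := by linarith
  have hy0 : 0 < y := by linarith
  have h1 := Real.one_sub_inv_le_log_of_pos (div_pos hy0 hx0)
  rw [Real.log_div hy0.ne' hx0.ne', inv_div] at h1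
  have h2 := Real.one_sub_inv_le_log_of_pos hy0
  have h3 := mul_le_mul_of_nonneg_left h1 hx0.le
  have h4 := mul_le_mul_of_nonneg_left h2 (by linarith : 0 ≤ y - x)
  have h5 : x * (1 - x / y) + (y - x) * (1 - y⁻¹) - (y - x) = (y - x) * (x - 1) / y := by
    field_simp
    ring
  have h6 : 0 ≤ (y - x) * (x - 1) / y :=
    div_nonneg (mul_nonneg (by linarith) (by linarith)) hy0.le
  unfold hh
  linarith

theorem W1_hh {x : ℝ} (hx : 243 ≤ x) : 4 * x ≤ hh x := by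
  have hx0 : 0 < x := by linarith
  have h1 : Real.exp 5 ≤ x := by
    have h2 : Real.exp 5 = Real.exp 1 ^ 5 := by
      rw [← Real.exp_nat_mul]
      norm_num
    have h3 : Real.exp 1 ≤ 3 := by
      have := Real.exp_one_lt_d9
      linarith
    have h4 : Real.exp 1 ^ 5 ≤ 3 ^ 5 := pow_le_pow_left₀ (Real.exp_pos 1).le h3 5
    rw [h2]
    norm_num at h4
    linarith
  have h5 : 5 ≤ Real.log x := (Real.le_log_iff_exp_le hx0).2 h1
  have h6 := mul_le_mul_of_nonneg_left h5 hx0.le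
  unfold hh
  linarith

theorem W1_x {s : ℝ} (hs : 0 < s) (hs1 : s ≤ s0) {k c : ℕ} (hk : 0 < k) (hc : k ≤ 49 * c) :
    243 ≤ (c : ℝ) / (s ^ 2 * k) ∧ s ^ 2 * ((c : ℝ) / (s ^ 2 * k)) = c / k := by
  have hk' : (0 : ℝ) < k := by exact_mod_cast hk
  have hs2 : 0 < s ^ 2 := by positivity
  have hc' : (k : ℝ) ≤ 49 * c := by exact_mod_cast hc
  have h1 : s ^ 2 ≤ 1 / 10 ^ 18 := by
    have h2 : s ^ 2 ≤ (1 / 10 ^ 9) ^ 2 := by
      refine pow_le_pow_left₀ hs.le ?_ 2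
      exact hs1
    have h3 : ((1 : ℝ) / 10 ^ 9) ^ 2 = 1 / 10 ^ 18 := by norm_num
    rw [h3] at h2
    exact h2
  constructor
  · rw [le_div_iff₀ (by positivity)]
    have h4 : s ^ 2 * k ≤ 1 / 10 ^ 18 * k := mul_le_mul_of_nonneg_right h1 hk'.le
    have h5 : (0 : ℝ) < 1 / 10 ^ 18 := by norm_num
    have h6 : 243 * (1 / 10 ^ 18 * (k : ℝ)) ≤ k / 49 := by
      have : (243 : ℝ) * (1 / 10 ^ 18) ≤ 1 / 49 := by norm_num
      have := mul_le_mul_of_nonneg_right this hk'.le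
      linarith
    linarith
  · field_simp

theorem cnt_le_of_tcost {s : ℝ} (hs : 0 < s) (hs1 : s ≤ s0) {k : ℕ} (hk : 0 < k) {Q : Finset ℂ} {t : ℤ × ℤ}
    (h : tcost s k Q t < 4) : cnt s Q t ≤ k := by
  by_contra hcon
  have hlt : k < cnt s Q t := not_le.1 hcon
  obtain ⟨h1, h2⟩ := W1_x hs hs1 hk (c := cnt s Q t) (by omega)
  have hk' : (0 : ℝ) < k := by exact_mod_cast hk
  have h3 : (1 : ℝ) ≤ (cnt s Q t : ℝ) / k := by
    rw [le_div_iff₀ hk', one_mul]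
    exact_mod_cast hlt.le
  have h4 := mul_le_mul_of_nonneg_left (W1_hh h1) (sq_nonneg s)
  unfold tcost at h
  have h5 : s ^ 2 * (4 * ((cnt s Q t : ℝ) / (s ^ 2 * k))) = 4 * ((cnt s Q t : ℝ) / k) := by
    rw [← h2]
    ring
  rw [h5] at h4
  linarith

theorem cnt_eq_zero {s : ℝ} (hs : 0 < s) {L : ℕ} {Q : Finset ℂ} (hin : Inside s L Q) {t : ℤ × ℤ}
    (ht : t ∉ grid L) : cnt s Q t = 0 := by
  unfold cnt
  rw [Finset.card_eq_zero, Finset.filter_eq_empty_iff]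
  intro z hz hzt
  apply ht
  obtain ⟨-, h1, h2, h3, h4⟩ := hin z hz
  rw [← hzt]
  unfold grid idx
  have key : ∀ x : ℝ, 0 < x → x < L * s → ⌊x / s⌋ ∈ Finset.Ico 0 (L : ℤ) := by
    intro x hx0 hx1
    rw [Finset.mem_Ico]
    constructor
    · exact Int.floor_nonneg.2 (div_pos hx0 hs).le
    · rw [Int.floor_lt, div_lt_iff₀ hs]
      exact_mod_cast hx1
  exact Finset.mem_product.2 ⟨key _ h1 h2, key _ h3 h4⟩

theorem W1_card (t : ℤ × ℤ) : (blk 3 t).card = 49 := by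
  unfold blk
  rw [Finset.card_product, Int.card_Icc, Int.card_Icc]
  have e : ∀ a : ℤ, (a + ((3 : ℕ) : ℤ) + 1 - (a - ((3 : ℕ) : ℤ))).toNat = 7 := by
    intro a
    have : a + ((3 : ℕ) : ℤ) + 1 - (a - ((3 : ℕ) : ℤ)) = 7 := by
      push_cast
      ring
    rw [this]
    rfl
  rw [e, e]

theorem W1_mem (t : ℤ × ℤ) : t ∈ blk 3 t := by
  unfold blk
  rw [Finset.mem_product, Finset.mem_Icc, Finset.mem_Icc]
  refine ⟨⟨?_, ?_⟩, ?_, ?_⟩ <;> push_cast <;> omega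

theorem bad_cost {s : ℝ} (hs : 0 < s) (hs1 : s ≤ s0) {L k : ℕ} (hk : 0 < k) {Q : Finset ℂ} (hin : Inside s L Q)
    {t : ℤ × ℤ} (ht : t ∈ grid L) (hbad : ¬ Good s k Q t) :
    s ^ 2 ≤ ∑ t' ∈ blk 3 t ∩ grid L, tcost s k Q t' := by
  have key : ∃ t' ∈ blk 3 t ∩ grid L, s ^ 2 ≤ tcost s k Q t' := by
    by_cases h0 : cnt s Q t = 0
    · refine ⟨t, Finset.mem_inter.2 ⟨W1_mem t, ht⟩, ?_⟩
      unfold tcost
      rw [h0]
      unfold hh
      simp
    · have h1 : k ≤ ∑ t' ∈ blk 3 t, cnt s Q t' := by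
        by_contra hcon
        exact hbad ⟨Nat.one_le_iff_ne_zero.2 h0, not_le.1 hcon⟩
      have h2 : ∑ _t' ∈ blk 3 t, k ≤ ∑ t' ∈ blk 3 t, 49 * cnt s Q t' := by
        rw [Finset.sum_const, W1_card, smul_eq_mul, ← Finset.mul_sum]
        exact Nat.mul_le_mul_left 49 h1
      obtain ⟨t', ht', h3⟩ := Finset.exists_le_of_sum_le ⟨t, W1_mem t⟩ h2
      have h4 : t' ∈ grid L := by
        by_contra hcon
        rw [cnt_eq_zero hs hin hcon] at h3
        omega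
      refine ⟨t', Finset.mem_inter.2 ⟨ht', h4⟩, ?_⟩
      obtain ⟨h5, -⟩ := W1_x hs hs1 hk h3
      have h6 := W1_hh h5
      have h7 : 1 ≤ hh ((cnt s Q t' : ℝ) / (s ^ 2 * k)) := by linarith
      unfold tcost
      have h8 := mul_le_mul_of_nonneg_left h7 (sq_nonneg s)
      linarith
  obtain ⟨t', ht', h1⟩ := key
  exact h1.trans (Finset.single_le_sum (f := fun t' => tcost s k Q t')
    (fun _ _ => tcost_nonneg) ht')

end Pool.Agent.H97.KN
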