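import Pool.Agent.H97.KN.P4
import Pool.Agent.H97.KN.P5
import Pool.Agent.H97.KN.P6a
import Pool.Agent.H97.KN.W1

/-!
ROW P7 (MP_72793b_PR, probability).  For `k = C log n` with `C = 8/s0²` all tiles are good.

`{¬ (Inside ∧ all good)} ⊆ {¬ Inside} ∪ ⋃_{t ∈ grid L} {s² ≤ ∑_{blk 3 t ∩ grid L} tcost}` (`bad_cost`), so the measure is at
most `L² ((k+1)^49 e^{-k s²} + 49 e^{-20 k})` with `L ≤ (2/s0) √n` and `e^{-k s²} ≤ e^{-k s0²/4}`: `term` with
`a0 = 8/s0²`, `T = s0²/4` (`a0 T = 2 > 1`), `j = 2`, `r = 49`, `c = (2/s0)²`.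
-/

namespace Pool.Agent.H97.KN

open Finset MeasureTheory Pool.Agent.H77.KN

universe u

theorem prob_allGood {ε : ℝ} (hε : 0 < ε) :
    ∃ n0 : ℝ, 1 < n0 ∧ ∀ n : ℝ, n0 ≤ n → ∀ k : ℕ, 8 / s0 ^ 2 * Real.log n ≤ k →
      (k : ℝ) ≤ 8 / s0 ^ 2 * Real.log n + 1 →
      ∀ (Ω : Type u) [MeasurableSpace Ω] (μ : Measure Ω) (P : Ω → Finset ℂ),
      IsPoissonProcess μ P (square (Real.sqrt n)) → ∀ (s : ℝ) (L : ℕ), s0 / 2 ≤ s → s ≤ s0 →
      (L : ℝ) * s * Real.sqrt k = Real.sqrt n →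
      μ {ω | ¬ (Inside s L (scale k (P ω)) ∧ ∀ t ∈ grid L, Good s k (scale k (P ω)) t)} ≤ ENNReal.ofReal ε := by
  have hs0 : (0 : ℝ) < s0 := by unfold s0; norm_num
  have hs01 : s0 ≤ 1 := by unfold s0; norm_num
  have hs0sq : 0 < s0 ^ 2 := by positivity
  have haT : 8 / s0 ^ 2 * (s0 ^ 2 / 4) = 2 := by field_simp; norm_num
  obtain ⟨n0, hn0, hterm⟩ := term (a0 := 8 / s0 ^ 2) (T := s0 ^ 2 / 4) (by positivity) (by positivity)
    (by nlinarith) (j := 2) (by rw [haT]; norm_num) 49 (c := (2 / s0) ^ 2) (C := 8 / s0 ^ 2)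
    (by positivity) (by positivity) hε
  refine ⟨max n0 2, lt_of_lt_of_le (by norm_num) (le_max_right _ _), ?_⟩
  intro n hn k hk hk' Ω _ μ P hP s L hs1 hs2 hL
  have hn1 : n0 ≤ n := (le_max_left _ _).trans hn
  have hn2 : (2 : ℝ) ≤ n := (le_max_right _ _).trans hn
  have hlog : 0 < Real.log n := Real.log_pos (by linarith)
  have hkpos : (0 : ℝ) < k := lt_of_lt_of_le (by positivity) hk
  have hk0 : 0 < k := by exact_mod_cast hkpos
  have hk1 : (1 : ℝ) ≤ k := by exact_mod_cast hk0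
  have hs : 0 < s := by linarith
  have hsq1 : 1 ≤ Real.sqrt k := Real.one_le_sqrt.2 hk1
  have hLn : (L : ℝ) ≤ 2 / s0 * Real.sqrt n := by
    have h1 : (L : ℝ) * (s0 / 2) ≤ L * s * Real.sqrt k := by
      have hL0 : (0 : ℝ) ≤ L := Nat.cast_nonneg L
      calc (L : ℝ) * (s0 / 2) ≤ L * s := mul_le_mul_of_nonneg_left hs1 hL0
        _ = L * s * 1 := by ring
        _ ≤ L * s * Real.sqrt k := mul_le_mul_of_nonneg_left hsq1 (by positivity)
    rw [hL] at h1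
    have h2 : (L : ℝ) = 2 / s0 * ((L : ℝ) * (s0 / 2)) := by field_simp
    rw [h2]
    exact mul_le_mul_of_nonneg_left h1 (by positivity)
  set E : ℝ := ((k : ℝ) + 1) ^ 49 * Real.exp (-(k * (s0 ^ 2 / 4))) + (49 : ℕ) * Real.exp (-(20 * k)) with hE
  have hE0 : 0 ≤ E := by positivity
  have hsub : {ω | ¬ (Inside s L (scale k (P ω)) ∧ ∀ t ∈ grid L, Good s k (scale k (P ω)) t)} ⊆
      {ω | ¬ Inside s L (scale k (P ω))} ∪
        ⋃ t ∈ grid L, {ω | s ^ 2 ≤ ∑ t' ∈ blk 3 t ∩ grid L, tcost s k (scale k (P ω)) t'} := by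
    intro ω hω
    simp only [Set.mem_setOf_eq] at hω
    by_cases hin : Inside s L (scale k (P ω))
    · right
      have h3 : ∃ t ∈ grid L, ¬ Good s k (scale k (P ω)) t := by
        by_contra hcon
        push Not at hcon
        exact hω ⟨hin, hcon⟩
      obtain ⟨t, ht, hbad⟩ := h3
      simp only [Set.mem_iUnion, Set.mem_setOf_eq, exists_prop]
      exact ⟨t, ht, bad_cost hs hs2 hk0 hin ht hbad⟩
    · left
      exact hin
  have hone : ∀ t ∈ grid L, μ {ω | s ^ 2 ≤ ∑ t' ∈ blk 3 t ∩ grid L, tcost s k (scale k (P ω)) t'} ≤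
      ENNReal.ofReal E := by
    intro t _
    refine (ld_tiles hP hs hs2 hk0 hL (J := blk 3 t ∩ grid L) Finset.inter_subset_right (s ^ 2)).trans ?_
    apply ENNReal.ofReal_le_ofReal
    have hcard : (blk 3 t ∩ grid L).card ≤ 49 := by
      have := card_blk_le 3 L t
      norm_num at this
      exact this
    have hcard' : ((blk 3 t ∩ grid L).card : ℝ) ≤ (49 : ℕ) := by exact_mod_cast hcard
    have h4 : ((k : ℝ) + 1) ^ (blk 3 t ∩ grid L).card ≤ ((k : ℝ) + 1) ^ 49 :=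
      pow_le_pow_right₀ (by linarith) hcard
    have h5 : Real.exp (-(k * s ^ 2)) ≤ Real.exp (-(k * (s0 ^ 2 / 4))) := by
      apply Real.exp_le_exp.2
      have h6 : s0 ^ 2 / 4 ≤ s ^ 2 := by nlinarith
      have h7 := mul_le_mul_of_nonneg_left h6 hkpos.le
      linarith
    have h8 : 0 ≤ Real.exp (-(20 * (k : ℝ))) := (Real.exp_pos _).le
    rw [hE]
    apply add_le_add
    · exact mul_le_mul h4 h5 (Real.exp_pos _).le (by positivity)
    · exact mul_le_mul_of_nonneg_right hcard' h8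
  have hsum : ∑ t ∈ grid L, μ {ω | s ^ 2 ≤ ∑ t' ∈ blk 3 t ∩ grid L, tcost s k (scale k (P ω)) t'} ≤
      ENNReal.ofReal ((L : ℝ) ^ 2 * E) := by
    refine (Finset.sum_le_card_nsmul _ _ _ hone).trans ?_
    rw [card_grid, nsmul_eq_mul, ENNReal.ofReal_mul (by positivity)]
    gcongr
    rw [ENNReal.ofReal_pow (Nat.cast_nonneg L), ENNReal.ofReal_natCast]
    push_cast
    exact le_rfl
  have hfin : (L : ℝ) ^ 2 * E ≤ ε := by
    refine le_trans ?_ (hterm n hn1 k hk hk')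
    rw [hE]
    apply mul_le_mul_of_nonneg_right _ hE0
    have hL0 : (0 : ℝ) ≤ L := Nat.cast_nonneg L
    rw [← mul_pow]
    exact pow_le_pow_left₀ hL0 hLn 2
  calc μ {ω | ¬ (Inside s L (scale k (P ω)) ∧ ∀ t ∈ grid L, Good s k (scale k (P ω)) t)}
      ≤ μ ({ω | ¬ Inside s L (scale k (P ω))} ∪
        ⋃ t ∈ grid L, {ω | s ^ 2 ≤ ∑ t' ∈ blk 3 t ∩ grid L, tcost s k (scale k (P ω)) t'}) := measure_mono hsub
    _ ≤ μ {ω | ¬ Inside s L (scale k (P ω))} +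
        μ (⋃ t ∈ grid L, {ω | s ^ 2 ≤ ∑ t' ∈ blk 3 t ∩ grid L, tcost s k (scale k (P ω)) t'}) :=
        measure_union_le _ _
    _ ≤ 0 + ∑ t ∈ grid L, μ {ω | s ^ 2 ≤ ∑ t' ∈ blk 3 t ∩ grid L, tcost s k (scale k (P ω)) t'} := by
        apply add_le_add
        · exact (inside_ae hP hs hk0 hL).le
        · exact measure_biUnion_finset_le _ _
    _ ≤ ENNReal.ofReal ((L : ℝ) ^ 2 * E) := by rw [zero_add]; exact hsum
    _ ≤ ENNReal.ofReal ε := ENNReal.ofReal_le_ofReal hfin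

end Pool.Agent.H97.KN
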