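import Pool.Agent.H97.KN.D8
import Pool.Agent.H97.KN.D9
import Pool.Agent.H97.KN.P6
import Pool.Agent.H97.KN.P7

/-!
P8 (assembly, PI): the theorem from `CostStatement` and `HullStatement`.
-/

namespace Pool.Agent.H97.KN

open Finset MeasureTheory Pool.Agent.H77.KN

universe u

theorem s0_pos : 0 < s0 := by unfold s0; positivity

theorem main_of (hcost : CostStatement) (hhull : HullStatement) {ε : ℝ} (hε : 0 < ε) :
    ∃ n0 : ℝ, ∀ n : ℝ, n0 ≤ n → ∀ k : ℕ, 0.3 * Real.log n ≤ k →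
      ∀ (Ω : Type u) [MeasurableSpace Ω] (μ : Measure Ω) (P : Ω → Finset ℂ),
      IsPoissonProcess μ P (square (Real.sqrt n)) →
      μ {ω | ¬ Concl ε k (P ω)} ≤ ENNReal.ofReal ε := by
  have hs0 := s0_pos
  obtain ⟨m0, hm0⟩ := exists_nat_ge (196 * 4 / s0 ^ 2)
  obtain ⟨K1, hK1⟩ := exists_nat_ge (8 * (m0 : ℝ) ^ 2 * 4 / (ε * s0 ^ 2))
  obtain ⟨R1, hR1⟩ := exists_nat_ge (10 / s0)
  set K : ℕ := 2 * m0 + 2 + K1 with hKdef
  set R : ℕ := m0 + R1 + 2 with hRdef
  set C : ℝ := 8 / s0 ^ 2 with hC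
  have hCpos : 0 < C := by positivity
  have hKpos : 0 < K := by omega
  obtain ⟨n1, hn1, H1⟩ := prob_nice.{u} hKpos R hCpos.le hε
  obtain ⟨n2, hn2, H2⟩ := prob_allGood.{u} hε
  obtain ⟨n3, hn3, H3⟩ := grid_params (C := C) hCpos.le (K + 2 * R + 1)
  refine ⟨max n1 (max n2 n3), fun n hn k hk Ω _ μ P hP => ?_⟩
  have hn1' : n1 ≤ n := le_trans (le_max_left _ _) hn
  have hn2' : n2 ≤ n := le_trans (le_trans (le_max_left _ _) (le_max_right _ _)) hn
  have hn3' : n3 ≤ n := le_trans (le_trans (le_max_right _ _) (le_max_right _ _)) hn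
  have hngt : 1 < n := lt_of_lt_of_le hn1 hn1'
  have hlog : 0 < Real.log n := Real.log_pos hngt
  by_cases hkC : (k : ℝ) ≤ C * Real.log n + 1
  · have hkpos : 0 < k := by
      have : (0 : ℝ) < k := lt_of_lt_of_le (by positivity) hk
      exact_mod_cast this
    obtain ⟨s, L, hsl, hsu, hL, hML⟩ := H3 n hn3' k hkpos hkC
    have hs : 0 < s := lt_of_lt_of_le (by positivity) hsl
    have hss : s0 ^ 2 / 4 ≤ s ^ 2 := by nlinarith
    refine le_trans (measure_mono ?_) (H1 n hn1' k hk hkC Ω μ P hP s L hsl hsu hL)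
    intro ω hω hN
    apply hω
    apply concl_scale hkpos
    refine det (m0 := m0) hcost hhull hs hsu hkpos ?_ (by omega) (by omega) ?_ (by omega) ?_ hN
    · rw [div_le_iff₀ (by positivity)] at hm0
      have : (m0 : ℝ) * (s0 ^ 2 / 4) ≤ m0 * s ^ 2 := mul_le_mul_of_nonneg_left hss (Nat.cast_nonneg _)
      linarith
    · have : 5 / s ≤ 10 / s0 := by
        rw [div_le_div_iff₀ hs hs0]; nlinarith
      have h2 : (R : ℝ) = m0 + R1 + 2 := by rw [hRdef]; push_cast; ring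
      rw [h2]; linarith
    · rw [div_le_iff₀ (by positivity)] at hK1
      have hKK : (K1 : ℝ) ≤ (K : ℝ) ^ 2 := by
        have h1 : (K1 : ℝ) ≤ K := by rw [hKdef]; push_cast; nlinarith [Nat.cast_nonneg (α := ℝ) m0]
        have h2 : (1 : ℝ) ≤ K := by exact_mod_cast hKpos
        nlinarith
      calc 8 * (m0 : ℝ) ^ 2 ≤ (K1 : ℝ) * (ε * s0 ^ 2) / 4 := by linarith
        _ ≤ (K : ℝ) ^ 2 * (ε * s0 ^ 2) / 4 := by
          have : 0 ≤ ε * s0 ^ 2 := by positivity
          nlinarith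
        _ = ε * (s0 ^ 2 / 4) * K ^ 2 := by ring
        _ ≤ ε * s ^ 2 * K ^ 2 := by
          apply mul_le_mul_of_nonneg_right _ (by positivity)
          exact mul_le_mul_of_nonneg_left hss hε.le
  · push Not at hkC
    set k' : ℕ := ⌈C * Real.log n⌉₊ with hk'def
    have hk'1 : C * Real.log n ≤ k' := Nat.le_ceil _
    have hk'2 : (k' : ℝ) ≤ C * Real.log n + 1 := (Nat.ceil_lt_add_one (by positivity)).le
    have hk'pos : 0 < k' := by
      have : (0 : ℝ) < k' := lt_of_lt_of_le (by positivity) hk'1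
      exact_mod_cast this
    have hkk : k' ≤ k := by
      have : (k' : ℝ) ≤ k := le_trans hk'2 hkC.le
      exact_mod_cast this
    obtain ⟨s, L, hsl, hsu, hL, hML⟩ := H3 n hn3' k' hk'pos hk'2
    have hs : 0 < s := lt_of_lt_of_le (by positivity) hsl
    refine le_trans (measure_mono ?_) (H2 n hn2' k' hk'1 hk'2 Ω μ P hP s L hsl hsu hL)
    intro ω hω hN
    apply hω
    exact concl_scale hk'pos (concl_of_allGood hs (by omega) hkk hN.1 hN.2 hε.le)

end Pool.Agent.H97.KN
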