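import Pool.Agent.H97.KN.Defs

/-!
ROW T1 (MP_72793b_PR, measure theory).  The volume of the almost-ties tends to `0`.

The sets decrease in `m`, are measurable (closed conditions: continuity of `dist`, `square a` closed), contained in
`square a ×ˢ square a ×ˢ square a` of finite volume; the intersection is contained in
`{p | dist p.1 p.2.1 = dist p.1 p.2.2}`, which is a null set by Fubini (`measure_prod_null`, twice): for fixed `x, y` the set of `z` is a
sphere (`MeasureTheory.Measure.addHaar_sphere`; the radius may be `0`: then it is a point).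
`MeasureTheory.tendsto_measure_iInter_atTop` (or `tendsto_measure_iInter`) .
-/

namespace Pool.Agent.H97.KN

open Finset MeasureTheory Pool.Agent.H77.KN

theorem T1_null : ((volume : Measure ℂ).prod ((volume : Measure ℂ).prod (volume : Measure ℂ)))
    {p : ℂ × ℂ × ℂ | dist p.1 p.2.1 = dist p.1 p.2.2} = 0 := by
  have hm : MeasurableSet {p : ℂ × ℂ × ℂ | dist p.1 p.2.1 = dist p.1 p.2.2} :=
    (isClosed_eq (by fun_prop) (by fun_prop)).measurableSet
  rw [Measure.measure_prod_null hm]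
  refine Filter.Eventually.of_forall fun x => ?_
  have hm2 : MeasurableSet (Prod.mk x ⁻¹' {p : ℂ × ℂ × ℂ | dist p.1 p.2.1 = dist p.1 p.2.2}) :=
    measurable_prodMk_left hm
  show ((volume : Measure ℂ).prod (volume : Measure ℂ))
    (Prod.mk x ⁻¹' {p : ℂ × ℂ × ℂ | dist p.1 p.2.1 = dist p.1 p.2.2}) = 0
  rw [Measure.measure_prod_null hm2]
  refine Filter.Eventually.of_forall fun y => ?_
  refine measure_mono_null (t := Metric.sphere x (dist x y)) ?_ (Measure.addHaar_sphere volume x _)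
  intro z hz
  have hz' : dist x y = dist x z := hz
  rw [Metric.mem_sphere, dist_comm z x]
  exact hz'.symm

theorem T1_compact (a : ℝ) : IsCompact (square a) := by
  have h : square a = Set.Icc 0 a ×ℂ Set.Icc 0 a := by
    ext z
    simp only [square, Set.mem_ofPred_eq, Complex.mem_reProdIm, Set.mem_Icc]
    tauto
  rw [h]
  exact isCompact_Icc.reProdIm isCompact_Icc

theorem tie_volume (a : ℝ) :
    Filter.Tendsto (fun m : ℕ => ((volume : Measure ℂ).prod ((volume : Measure ℂ).prod (volume : Measure ℂ)))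
      {p : ℂ × ℂ × ℂ | p.1 ∈ square a ∧ p.2.1 ∈ square a ∧ p.2.2 ∈ square a ∧
        |dist p.1 p.2.1 - dist p.1 p.2.2| ≤ 6 / 2 ^ m}) Filter.atTop (nhds 0) := by
  set μ := (volume : Measure ℂ).prod ((volume : Measure ℂ).prod (volume : Measure ℂ)) with hμ
  set S : ℕ → Set (ℂ × ℂ × ℂ) := fun m => {p : ℂ × ℂ × ℂ | p.1 ∈ square a ∧ p.2.1 ∈ square a ∧
    p.2.2 ∈ square a ∧ |dist p.1 p.2.1 - dist p.1 p.2.2| ≤ 6 / 2 ^ m} with hS
  have hc := T1_compact a
  have hcl := hc.isClosed
  have hmeas : ∀ m, MeasurableSet (S m) := by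
    intro m
    have h1 : IsClosed {p : ℂ × ℂ × ℂ | p.1 ∈ square a} := hcl.preimage (by fun_prop)
    have h2 : IsClosed {p : ℂ × ℂ × ℂ | p.2.1 ∈ square a} := hcl.preimage (by fun_prop)
    have h3 : IsClosed {p : ℂ × ℂ × ℂ | p.2.2 ∈ square a} := hcl.preimage (by fun_prop)
    have h4 : IsClosed {p : ℂ × ℂ × ℂ | |dist p.1 p.2.1 - dist p.1 p.2.2| ≤ 6 / 2 ^ m} :=
      isClosed_le (by fun_prop) continuous_const
    exact (h1.inter (h2.inter (h3.inter h4))).measurableSet
  have hanti : Antitone S := by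
    intro m m' hmm p hp
    obtain ⟨h1, h2, h3, h4⟩ := hp
    refine ⟨h1, h2, h3, h4.trans ?_⟩
    have : (2 : ℝ) ^ m ≤ 2 ^ m' := pow_le_pow_right₀ (by norm_num) hmm
    gcongr
  have hfin : μ (S 0) ≠ ⊤ := by
    have h1 : S 0 ⊆ square a ×ˢ (square a ×ˢ square a) := fun p hp => ⟨hp.1, hp.2.1, hp.2.2.1⟩
    have h2 : μ (square a ×ˢ (square a ×ˢ square a)) < ⊤ := by
      rw [hμ, Measure.prod_prod, Measure.prod_prod]
      have h3 : (volume : Measure ℂ) (square a) < ⊤ := hc.measure_lt_top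
      exact ENNReal.mul_lt_top h3 (ENNReal.mul_lt_top h3 h3)
    exact ((measure_mono h1).trans_lt h2).ne
  have hlim := tendsto_measure_iInter_atTop (μ := μ) (fun m => (hmeas m).nullMeasurableSet) hanti ⟨0, hfin⟩
  have hnull : μ (⋂ m, S m) = 0 := by
    refine measure_mono_null ?_ T1_null
    intro p hp
    rw [Set.mem_iInter] at hp
    have h1 : ∀ m : ℕ, |dist p.1 p.2.1 - dist p.1 p.2.2| ≤ 6 / 2 ^ m := fun m => (hp m).2.2.2
    have h2 : Filter.Tendsto (fun m : ℕ => (6 : ℝ) / 2 ^ m) Filter.atTop (nhds 0) :=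
      tendsto_const_nhds.div_atTop (tendsto_pow_atTop_atTop_of_one_lt (by norm_num))
    have h3 : |dist p.1 p.2.1 - dist p.1 p.2.2| ≤ 0 := ge_of_tendsto' h2 h1
    have h4 := abs_nonpos_iff.mp h3
    exact sub_eq_zero.mp h4
  rw [hnull] at hlim
  exact hlim

end Pool.Agent.H97.KN
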