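import Pool.Agent.H97.KN.P3

/-!
ROW T2 (MP_72793b_PR, probability).  Two points in one cell, three points in three cells.

`cell a δ t = {z ∈ square a | idx δ z = t}`, disjoint measurable subsets of the square; only the finitely many `t ∈ cells a δ` are
nonempty; diameter `≤ √2 δ`, area `≤ δ²`; the areas sum to `a²`.
`two_in_cell`: `P(N ≥ 2) = 1 - e^{-v} - v e^{-v} ≤ v²` (`e^{-v} ≥ 1 - v`, so `1 - (1+v) e^{-v} ≤ 1 - (1+v)(1-v) = v²`), `∑ v_t² ≤ δ² ∑ v_t = δ² a²`.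
(`μ {2 ≤ N} = 1 - μ {N = 0} - μ {N = 1}`, or `∑'_{m ≥ 2}`.)
`three_cells`: if `x, y, z ∈ P ω` have three distinct indices `t1, t2, t3` and `dist x y = dist x z`, then the three cells are
occupied (`num ≥ 1`), and every `(x',y',z') ∈ cell t1 × cell t2 × cell t3` has `|dist x' y' - dist x' z'| ≤ 4 √2 δ ≤ 6 δ`.
Union bound over such triples `(t1,t2,t3)` (compatible triples), independence (`hP.indep 3`), `P(N ≥ 1) = 1 - e^{-v} ≤ v`:
`≤ ∑_{compatible} v1 v2 v3 = ∑ vol³ (cell × cell × cell) = vol³ (disjoint union) ≤ vol³ {...}`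
(`measure_biUnion_finset`, `Measure.prod_prod`).
-/

namespace Pool.Agent.H97.KN

open Finset MeasureTheory Pool.Agent.H77.KN

/-- the cell of side `δ` in the square -/
def cell (a δ : ℝ) (t : ℤ × ℤ) : Set ℂ := {z | z ∈ square a ∧ idx δ z = t}

theorem T2_box {δ : ℝ} (hδ : 0 < δ) (t : ℤ × ℤ) (z : ℂ) :
    idx δ z = t ↔ (((t.1 : ℝ) * δ ≤ z.re ∧ z.re < ((t.1 : ℝ) + 1) * δ) ∧
      ((t.2 : ℝ) * δ ≤ z.im ∧ z.im < ((t.2 : ℝ) + 1) * δ)) := by
  unfold idx
  simp only [Prod.ext_iff, Int.floor_eq_iff]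
  rw [le_div_iff₀ hδ, div_lt_iff₀ hδ, le_div_iff₀ hδ, div_lt_iff₀ hδ]

theorem T2_meas {a δ : ℝ} (hδ : 0 < δ) (t : ℤ × ℤ) : MeasurableSet (cell a δ t) := by
  have h : cell a δ t = square a ∩ (Complex.re ⁻¹' (Set.Ico ((t.1 : ℝ) * δ) (((t.1 : ℝ) + 1) * δ))
      ∩ Complex.im ⁻¹' (Set.Ico ((t.2 : ℝ) * δ) (((t.2 : ℝ) + 1) * δ))) := by
    ext z
    constructor
    · rintro ⟨h1, h2⟩
      exact ⟨h1, (T2_box hδ t z).mp h2⟩
    · rintro ⟨h1, h2⟩
      exact ⟨h1, (T2_box hδ t z).mpr h2⟩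
  rw [h]
  exact (measurableSet_square a).inter
    ((Complex.measurable_re measurableSet_Ico).inter (Complex.measurable_im measurableSet_Ico))

theorem T2_vol {a δ : ℝ} (hδ : 0 < δ) (t : ℤ × ℤ) : volume (cell a δ t) ≤ ENNReal.ofReal (δ ^ 2) := by
  have h : cell a δ t ⊆ {z : ℂ | z.re ∈ Set.Ico ((t.1 : ℝ) * δ) (((t.1 : ℝ) + 1) * δ)
      ∧ z.im ∈ Set.Ico ((t.2 : ℝ) * δ) (((t.2 : ℝ) + 1) * δ)} := by
    rintro z ⟨h1, h2⟩
    exact (T2_box hδ t z).mp h2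
  refine le_trans (measure_mono h) ?_
  rw [P3_prod measurableSet_Ico measurableSet_Ico, Real.volume_Ico, Real.volume_Ico, ← ENNReal.ofReal_mul (by nlinarith)]
  apply ENNReal.ofReal_le_ofReal
  apply le_of_eq
  ring

theorem T2_dist {δ : ℝ} (hδ : 0 < δ) {z z' : ℂ} (h : idx δ z = idx δ z') : dist z z' ≤ 3 / 2 * δ := by
  have h1 := (T2_box hδ (idx δ z') z).mp h
  have h2 := (T2_box hδ (idx δ z') z').mp rfl
  obtain ⟨⟨a1, a2⟩, a3, a4⟩ := h1
  obtain ⟨⟨b1, b2⟩, b3, b4⟩ := h2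
  have c1 : |z.re - z'.re| ≤ δ := by
    rw [abs_le]
    constructor <;> linarith
  have c2 : |z.im - z'.im| ≤ δ := by
    rw [abs_le]
    constructor <;> linarith
  have c3 : (z.re - z'.re) ^ 2 ≤ δ ^ 2 := sq_le_sq' (by linarith [(abs_le.mp c1).1]) (abs_le.mp c1).2
  have c4 : (z.im - z'.im) ^ 2 ≤ δ ^ 2 := sq_le_sq' (by linarith [(abs_le.mp c2).1]) (abs_le.mp c2).2
  have c5 : ‖z - z'‖ ^ 2 = (z.re - z'.re) ^ 2 + (z.im - z'.im) ^ 2 := by
    rw [Complex.sq_norm, Complex.normSq_apply, Complex.sub_re, Complex.sub_im]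
    ring
  rw [dist_eq_norm]
  by_contra hc
  push Not at hc
  have : (3 / 2 * δ) ^ 2 < ‖z - z'‖ ^ 2 := by
    apply pow_lt_pow_left₀ hc (by positivity) (by norm_num)
  nlinarith

/-- the cells which can meet the square -/
noncomputable def T2_cs (a δ : ℝ) : Finset (ℤ × ℤ) := Finset.Icc 0 ⌊a / δ⌋ ×ˢ Finset.Icc 0 ⌊a / δ⌋

theorem T2_mem {a δ : ℝ} (hδ : 0 < δ) {z : ℂ} (hz : z ∈ square a) : idx δ z ∈ T2_cs a δ := by
  obtain ⟨h1, h2, h3, h4⟩ := hz
  unfold T2_cs idx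
  rw [Finset.mem_product, Finset.mem_Icc, Finset.mem_Icc]
  refine ⟨⟨?_, ?_⟩, ?_, ?_⟩
  · exact Int.floor_nonneg.mpr (div_nonneg h1 hδ.le)
  · exact Int.floor_le_floor (div_le_div_of_nonneg_right h2 hδ.le)
  · exact Int.floor_nonneg.mpr (div_nonneg h3 hδ.le)
  · exact Int.floor_le_floor (div_le_div_of_nonneg_right h4 hδ.le)

theorem T2_disj {a δ : ℝ} {t t' : ℤ × ℤ} (h : t ≠ t') : Disjoint (cell a δ t) (cell a δ t') := by
  rw [Set.disjoint_left]
  rintro z ⟨_, h1⟩ ⟨_, h2⟩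
  exact h (h1.symm.trans h2)

theorem T2_vsq {a : ℝ} (ha : 0 ≤ a) : volume (square a) = ENNReal.ofReal (a ^ 2) := by
  rw [P3_square, P3_prod measurableSet_Icc measurableSet_Icc, Real.volume_Icc, sub_zero, ← ENNReal.ofReal_mul ha]
  congr 1
  ring

theorem T2_sum {a δ : ℝ} (ha : 0 ≤ a) (hδ : 0 < δ) :
    ∑ t ∈ T2_cs a δ, volume (cell a δ t) ≤ ENNReal.ofReal (a ^ 2) := by
  rw [← T2_vsq ha, ← measure_biUnion_finset (fun t _ t' _ h => T2_disj h) (fun t _ => T2_meas hδ t)]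
  apply measure_mono
  intro z hz
  rw [Set.mem_iUnion₂] at hz
  obtain ⟨t, _, hz⟩ := hz
  exact hz.1

theorem T2_pos {P : Finset ℂ} {A : Set ℂ} {z : ℂ} (hz : z ∈ P) (hA : z ∈ A) : 1 ≤ num P A := by
  classical
  unfold num
  apply Finset.card_pos.mpr
  exact ⟨z, Finset.mem_filter.mpr ⟨hz, hA⟩⟩

theorem T2_mset {Ω : Type*} [MeasurableSpace Ω] {μ : Measure Ω} {P : Ω → Finset ℂ} {S : Set ℂ}
    (hP : IsPoissonProcess μ P S) {A : Set ℂ} (hA : MeasurableSet A) (D : Set ℕ) :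
    MeasurableSet {ω | num (P ω) A ∈ D} := by
  exact hP.meas A hA (MeasurableSet.of_discrete (s := D))

theorem T2_two {Ω : Type*} [MeasurableSpace Ω] {μ : Measure Ω} {P : Ω → Finset ℂ} {S : Set ℂ}
    (hP : IsPoissonProcess μ P S) {A : Set ℂ} (hA : MeasurableSet A) (hS : A ⊆ S) (hf : volume A ≠ ⊤) :
    μ {ω | 2 ≤ num (P ω) A} ≤ volume A * volume A := by
  have hprob := hP.prob
  set v : ℝ := (volume A).toReal with hv
  have hv0 : 0 ≤ v := ENNReal.toReal_nonneg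
  have e0 := hP.law A hA hS 0
  have e1 := hP.law A hA hS 1
  rw [← hv] at e0 e1
  simp only [pow_zero, mul_one, Nat.factorial, Nat.cast_one, div_one, pow_one, mul_one] at e0 e1
  have hu : (1 : ENNReal) = μ Set.univ := measure_univ.symm
  have hcov : (Set.univ : Set Ω) ⊆ {ω | 2 ≤ num (P ω) A} ∪ ({ω | num (P ω) A = 0} ∪ {ω | num (P ω) A = 1}) := by
    intro ω _
    by_cases h0 : num (P ω) A = 0
    · right
      left
      exact h0
    · by_cases h1 : num (P ω) A = 1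
      · right
        right
        exact h1
      · left
        show 2 ≤ num (P ω) A
        omega
  have hm2 : MeasurableSet {ω | 2 ≤ num (P ω) A} := T2_mset hP hA {n | 2 ≤ n}
  have hm0 : MeasurableSet {ω | num (P ω) A = 0} := T2_mset hP hA {n | n = 0}
  have hm1 : MeasurableSet {ω | num (P ω) A = 1} := T2_mset hP hA {n | n = 1}
  have hd1 : Disjoint {ω | num (P ω) A = 0} {ω | num (P ω) A = 1} := by
    rw [Set.disjoint_left]
    intro ω h1 h2
    have h1' : num (P ω) A = 0 := h1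
    have h2' : num (P ω) A = 1 := h2
    omega
  have hd2 : Disjoint {ω | 2 ≤ num (P ω) A} ({ω | num (P ω) A = 0} ∪ {ω | num (P ω) A = 1}) := by
    rw [Set.disjoint_left]
    intro ω h1 h2
    have h1' : 2 ≤ num (P ω) A := h1
    rcases h2 with h2 | h2
    · have h2' : num (P ω) A = 0 := h2
      omega
    · have h2' : num (P ω) A = 1 := h2
      omega
  have htot : μ {ω | 2 ≤ num (P ω) A} + (μ {ω | num (P ω) A = 0} + μ {ω | num (P ω) A = 1}) = 1 := by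
    rw [← measure_union hd1 hm1, ← measure_union hd2 (hm0.union hm1), hu]
    congr 1
    exact Set.eq_univ_of_univ_subset hcov
  have hpr : μ {ω | 2 ≤ num (P ω) A} ≠ ⊤ := measure_ne_top μ _
  set x : ℝ := (μ {ω | 2 ≤ num (P ω) A}).toReal with hx
  have hx1 : μ {ω | 2 ≤ num (P ω) A} = ENNReal.ofReal x := (ENNReal.ofReal_toReal hpr).symm
  have hx0 : 0 ≤ x := ENNReal.toReal_nonneg
  have hvol : volume A = ENNReal.ofReal v := (ENNReal.ofReal_toReal hf).symm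
  have hE : 0 < Real.exp (-v) := Real.exp_pos _
  rw [hx1, e0, e1, ← ENNReal.ofReal_add hE.le (by positivity), ← ENNReal.ofReal_add hx0 (by positivity)] at htot
  have htot' : x + (Real.exp (-v) + Real.exp (-v) * v) = 1 := by
    have h := congrArg ENNReal.toReal htot
    rw [ENNReal.toReal_ofReal (by positivity)] at h
    simpa using h
  rw [hx1, hvol, ← ENNReal.ofReal_mul hv0]
  apply ENNReal.ofReal_le_ofReal
  have hexp : -v + 1 ≤ Real.exp (-v) := Real.add_one_le_exp _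
  nlinarith [mul_le_mul_of_nonneg_right hexp (by linarith : (0 : ℝ) ≤ 1 + v)]

theorem T2_one {Ω : Type*} [MeasurableSpace Ω] {μ : Measure Ω} {P : Ω → Finset ℂ} {S : Set ℂ}
    (hP : IsPoissonProcess μ P S) {A : Set ℂ} (hA : MeasurableSet A) (hS : A ⊆ S) (hf : volume A ≠ ⊤) :
    μ {ω | 1 ≤ num (P ω) A} ≤ volume A := by
  have hprob := hP.prob
  set v : ℝ := (volume A).toReal with hv
  have hv0 : 0 ≤ v := ENNReal.toReal_nonneg
  have e0 := hP.law A hA hS 0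
  rw [← hv] at e0
  simp only [pow_zero, mul_one, Nat.factorial, Nat.cast_one, div_one] at e0
  have hu : (1 : ENNReal) = μ Set.univ := measure_univ.symm
  have hm0 : MeasurableSet {ω | num (P ω) A = 0} := T2_mset hP hA {n | n = 0}
  have hd2 : Disjoint {ω | 1 ≤ num (P ω) A} {ω | num (P ω) A = 0} := by
    rw [Set.disjoint_left]
    intro ω h1 h2
    have h1' : 1 ≤ num (P ω) A := h1
    have h2' : num (P ω) A = 0 := h2
    omega
  have htot : μ {ω | 1 ≤ num (P ω) A} + μ {ω | num (P ω) A = 0} = 1 := by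
    rw [← measure_union hd2 hm0, hu]
    congr 1
    apply Set.eq_univ_of_univ_subset
    intro ω _
    by_cases h0 : num (P ω) A = 0
    · right
      exact h0
    · left
      show 1 ≤ num (P ω) A
      omega
  have hpr : μ {ω | 1 ≤ num (P ω) A} ≠ ⊤ := measure_ne_top μ _
  set x : ℝ := (μ {ω | 1 ≤ num (P ω) A}).toReal with hx
  have hx1 : μ {ω | 1 ≤ num (P ω) A} = ENNReal.ofReal x := (ENNReal.ofReal_toReal hpr).symm
  have hx0 : 0 ≤ x := ENNReal.toReal_nonneg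
  have hvol : volume A = ENNReal.ofReal v := (ENNReal.ofReal_toReal hf).symm
  have hE : 0 < Real.exp (-v) := Real.exp_pos _
  rw [hx1, e0, ← ENNReal.ofReal_add hx0 hE.le] at htot
  have htot' : x + Real.exp (-v) = 1 := by
    have h := congrArg ENNReal.toReal htot
    rw [ENNReal.toReal_ofReal (by positivity)] at h
    simpa using h
  rw [hx1, hvol]
  apply ENNReal.ofReal_le_ofReal
  have hexp : -v + 1 ≤ Real.exp (-v) := Real.add_one_le_exp _
  linarith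

theorem T2_fin {a δ : ℝ} (hδ : 0 < δ) (t : ℤ × ℤ) : volume (cell a δ t) ≠ ⊤ :=
  ne_top_of_le_ne_top ENNReal.ofReal_ne_top (T2_vol hδ t)

theorem two_in_cell {Ω : Type*} [MeasurableSpace Ω] {μ : Measure Ω} {P : Ω → Finset ℂ} {a : ℝ} (ha : 0 ≤ a)
    (hP : IsPoissonProcess μ P (square a)) {δ : ℝ} (hδ : 0 < δ) :
    μ {ω | ∃ t : ℤ × ℤ, 2 ≤ num (P ω) (cell a δ t)} ≤ ENNReal.ofReal (δ ^ 2 * a ^ 2) := by
  have hsub : {ω | ∃ t : ℤ × ℤ, 2 ≤ num (P ω) (cell a δ t)} ⊆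
      ⋃ t ∈ T2_cs a δ, {ω | 2 ≤ num (P ω) (cell a δ t)} := by
    rintro ω ⟨t, ht⟩
    rw [Set.mem_iUnion₂]
    refine ⟨t, ?_, ht⟩
    classical
    have h1 : 0 < num (P ω) (cell a δ t) := by omega
    unfold num at h1
    obtain ⟨z, hz⟩ := Finset.card_pos.mp h1
    rw [Finset.mem_filter] at hz
    have h2 := T2_mem hδ hz.2.1
    rw [hz.2.2] at h2
    exact h2
  refine le_trans (measure_mono hsub) (le_trans (measure_biUnion_finset_le _ _) ?_)
  calc ∑ t ∈ T2_cs a δ, μ {ω | 2 ≤ num (P ω) (cell a δ t)}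
      ≤ ∑ t ∈ T2_cs a δ, ENNReal.ofReal (δ ^ 2) * volume (cell a δ t) := by
        apply Finset.sum_le_sum
        intro t _
        refine le_trans (T2_two hP (T2_meas hδ t) (fun z hz => hz.1) (T2_fin hδ t)) ?_
        exact mul_le_mul_left (T2_vol hδ t) _
    _ = ENNReal.ofReal (δ ^ 2) * ∑ t ∈ T2_cs a δ, volume (cell a δ t) := by rw [Finset.mul_sum]
    _ ≤ ENNReal.ofReal (δ ^ 2) * ENNReal.ofReal (a ^ 2) := mul_le_mul_right (T2_sum ha hδ) _
    _ = ENNReal.ofReal (δ ^ 2 * a ^ 2) := (ENNReal.ofReal_mul (by positivity)).symm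

theorem T2_three {Ω : Type*} [MeasurableSpace Ω] {μ : Measure Ω} {P : Ω → Finset ℂ} {a : ℝ}
    (hP : IsPoissonProcess μ P (square a)) {δ : ℝ} (hδ : 0 < δ) {t1 t2 t3 : ℤ × ℤ}
    (h12 : t1 ≠ t2) (h23 : t2 ≠ t3) (h13 : t1 ≠ t3) :
    μ {ω | 1 ≤ num (P ω) (cell a δ t1) ∧ 1 ≤ num (P ω) (cell a δ t2) ∧ 1 ≤ num (P ω) (cell a δ t3)} ≤
      volume (cell a δ t1) * (volume (cell a δ t2) * volume (cell a δ t3)) := by
  set A : Fin 3 → Set ℂ := ![cell a δ t1, cell a δ t2, cell a δ t3] with hA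
  have hAm : ∀ i, MeasurableSet (A i) := by
    intro i
    fin_cases i
    · exact T2_meas hδ t1
    · exact T2_meas hδ t2
    · exact T2_meas hδ t3
  have hAs : ∀ i, A i ⊆ square a := by
    intro i
    fin_cases i
    · exact fun z hz => hz.1
    · exact fun z hz => hz.1
    · exact fun z hz => hz.1
  have hAd : Pairwise (fun i j => Disjoint (A i) (A j)) := by
    intro i j hij
    fin_cases i <;> fin_cases j
    · exact absurd rfl hij
    · exact T2_disj h12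
    · exact T2_disj h13
    · exact T2_disj h12.symm
    · exact absurd rfl hij
    · exact T2_disj h23
    · exact T2_disj h13.symm
    · exact T2_disj h23.symm
    · exact absurd rfl hij
  have hind := hP.indep 3 A hAm hAs hAd
  have key := hind.measure_inter_preimage_eq_mul Finset.univ (sets := fun _ => {n : ℕ | 1 ≤ n})
    (fun i _ => MeasurableSet.of_discrete)
  have hset : {ω | 1 ≤ num (P ω) (cell a δ t1) ∧ 1 ≤ num (P ω) (cell a δ t2) ∧ 1 ≤ num (P ω) (cell a δ t3)}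
      = ⋂ i ∈ (Finset.univ : Finset (Fin 3)), (fun ω => num (P ω) (A i)) ⁻¹' {n : ℕ | 1 ≤ n} := by
    ext ω
    simp only [Finset.mem_univ, Set.iInter_true, Set.mem_iInter, Set.mem_preimage]
    constructor
    · rintro ⟨q1, q2, q3⟩ i
      fin_cases i
      · exact q1
      · exact q2
      · exact q3
    · intro h
      exact ⟨h 0, h 1, h 2⟩
  rw [hset, key, Fin.prod_univ_three, mul_assoc]
  refine mul_le_mul' ?_ (mul_le_mul' ?_ ?_)
  · exact T2_one hP (T2_meas hδ t1) (fun z hz => hz.1) (T2_fin hδ t1)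
  · exact T2_one hP (T2_meas hδ t2) (fun z hz => hz.1) (T2_fin hδ t2)
  · exact T2_one hP (T2_meas hδ t3) (fun z hz => hz.1) (T2_fin hδ t3)

/-- the three cells are distinct and contain an isosceles triangle -/
def T2_comp (a δ : ℝ) (q : (ℤ × ℤ) × (ℤ × ℤ) × (ℤ × ℤ)) : Prop :=
  q.1 ≠ q.2.1 ∧ q.2.1 ≠ q.2.2 ∧ q.1 ≠ q.2.2 ∧
    ∃ x ∈ cell a δ q.1, ∃ y ∈ cell a δ q.2.1, ∃ z ∈ cell a δ q.2.2, dist x y = dist x z

theorem three_cells {Ω : Type*} [MeasurableSpace Ω] {μ : Measure Ω} {P : Ω → Finset ℂ} {a : ℝ} (ha : 0 ≤ a)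
    (hP : IsPoissonProcess μ P (square a)) {δ : ℝ} (hδ : 0 < δ) :
    μ {ω | ∃ x ∈ P ω, ∃ y ∈ P ω, ∃ z ∈ P ω, idx δ x ≠ idx δ y ∧ idx δ y ≠ idx δ z ∧ idx δ x ≠ idx δ z ∧
        dist x y = dist x z} ≤
      ((volume : Measure ℂ).prod ((volume : Measure ℂ).prod (volume : Measure ℂ)))
        {p : ℂ × ℂ × ℂ | p.1 ∈ square a ∧ p.2.1 ∈ square a ∧ p.2.2 ∈ square a ∧
          |dist p.1 p.2.1 - dist p.1 p.2.2| ≤ 6 * δ} := by
  classical
  set T : Finset ((ℤ × ℤ) × (ℤ × ℤ) × (ℤ × ℤ)) :=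
    (T2_cs a δ ×ˢ (T2_cs a δ ×ˢ T2_cs a δ)).filter (fun q => T2_comp a δ q) with hT
  have hsub : {ω | ∃ x ∈ P ω, ∃ y ∈ P ω, ∃ z ∈ P ω, idx δ x ≠ idx δ y ∧ idx δ y ≠ idx δ z ∧ idx δ x ≠ idx δ z ∧
        dist x y = dist x z} ⊆
      ⋃ q ∈ T, {ω | 1 ≤ num (P ω) (cell a δ q.1) ∧ 1 ≤ num (P ω) (cell a δ q.2.1)
        ∧ 1 ≤ num (P ω) (cell a δ q.2.2)} := by
    rintro ω ⟨x, hx, y, hy, z, hz, h12, h23, h13, hd⟩
    have sx := hP.sub ω x hx
    have sy := hP.sub ω y hy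
    have sz := hP.sub ω z hz
    have cx : x ∈ cell a δ (idx δ x) := ⟨sx, rfl⟩
    have cy : y ∈ cell a δ (idx δ y) := ⟨sy, rfl⟩
    have cz : z ∈ cell a δ (idx δ z) := ⟨sz, rfl⟩
    rw [Set.mem_iUnion₂]
    refine ⟨(idx δ x, idx δ y, idx δ z), ?_, T2_pos hx cx, T2_pos hy cy, T2_pos hz cz⟩
    rw [hT, Finset.mem_filter, Finset.mem_product, Finset.mem_product]
    exact ⟨⟨T2_mem hδ sx, T2_mem hδ sy, T2_mem hδ sz⟩, h12, h23, h13, x, cx, y, cy, z, cz, hd⟩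
  refine le_trans (measure_mono hsub) (le_trans (measure_biUnion_finset_le _ _) ?_)
  have hstep : ∑ q ∈ T, μ {ω | 1 ≤ num (P ω) (cell a δ q.1) ∧ 1 ≤ num (P ω) (cell a δ q.2.1)
        ∧ 1 ≤ num (P ω) (cell a δ q.2.2)}
      ≤ ∑ q ∈ T, ((volume : Measure ℂ).prod ((volume : Measure ℂ).prod (volume : Measure ℂ)))
          (cell a δ q.1 ×ˢ (cell a δ q.2.1 ×ˢ cell a δ q.2.2)) := by
    apply Finset.sum_le_sum
    intro q hq
    rw [hT, Finset.mem_filter] at hq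
    obtain ⟨_, h12, h23, h13, _⟩ := hq
    rw [Measure.prod_prod, Measure.prod_prod]
    exact T2_three hP hδ h12 h23 h13
  refine le_trans hstep ?_
  rw [← measure_biUnion_finset]
  · apply measure_mono
    rintro ⟨p1, p2, p3⟩ hp
    rw [Set.mem_iUnion₂] at hp
    obtain ⟨q, hq, hp⟩ := hp
    rw [hT, Finset.mem_filter] at hq
    obtain ⟨_, _, _, _, x, hx, y, hy, z, hz, hd⟩ := hq
    rw [Set.mem_prod, Set.mem_prod] at hp
    obtain ⟨m1, m2, m3⟩ := hp
    simp only at m1 m2 m3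
    refine ⟨m1.1, m2.1, m3.1, ?_⟩
    simp only
    have d1 : dist p1 x ≤ 3 / 2 * δ := T2_dist hδ (m1.2.trans hx.2.symm)
    have d2 : dist p2 y ≤ 3 / 2 * δ := T2_dist hδ (m2.2.trans hy.2.symm)
    have d3 : dist p3 z ≤ 3 / 2 * δ := T2_dist hδ (m3.2.trans hz.2.symm)
    have e1 : dist p1 p2 ≤ dist p1 x + dist x y + dist y p2 := dist_triangle4 _ _ _ _
    have e2 : dist x z ≤ dist x p1 + dist p1 p3 + dist p3 z := dist_triangle4 _ _ _ _
    have e3 : dist p1 p3 ≤ dist p1 x + dist x z + dist z p3 := dist_triangle4 _ _ _ _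
    have e4 : dist x y ≤ dist x p1 + dist p1 p2 + dist p2 y := dist_triangle4 _ _ _ _
    have f1 : dist x p1 = dist p1 x := dist_comm _ _
    have f2 : dist y p2 = dist p2 y := dist_comm _ _
    have f3 : dist z p3 = dist p3 z := dist_comm _ _
    rw [abs_le]
    constructor <;> linarith
  · intro q _ q' _ hne
    rw [Function.onFun, Set.disjoint_left]
    rintro ⟨p1, p2, p3⟩ h1 h2
    rw [Set.mem_prod, Set.mem_prod] at h1 h2
    apply hne
    have g1 : q.1 = q'.1 := h1.1.2.symm.trans h2.1.2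
    have g2 : q.2.1 = q'.2.1 := h1.2.1.2.symm.trans h2.2.1.2
    have g3 : q.2.2 = q'.2.2 := h1.2.2.2.symm.trans h2.2.2.2
    exact Prod.ext g1 (Prod.ext g2 g3)
  · intro q _
    exact (T2_meas hδ q.1).prod ((T2_meas hδ q.2.1).prod (T2_meas hδ q.2.2))

end Pool.Agent.H97.KN
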