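import Pool.Agent.H97.KN.T1
import Pool.Agent.H97.KN.T2

/-!
T3 (assembly, PI).  Almost surely there are no ties.
-/

namespace Pool.Agent.H97.KN

open Finset MeasureTheory Pool.Agent.H77.KN

theorem two_of_same {P : Finset ℂ} {a δ : ℝ} {x y : ℂ} (hx : x ∈ P) (hy : y ∈ P) (hxy : x ≠ y)
    (hxs : x ∈ square a) (hys : y ∈ square a) (h : idx δ x = idx δ y) : 2 ≤ num P (cell a δ (idx δ x)) := by
  classical
  unfold num
  have h1 : ({x, y} : Finset ℂ).card = 2 := Finset.card_pair hxy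
  rw [← h1]
  apply Finset.card_le_card
  intro z hz
  rw [Finset.mem_insert, Finset.mem_singleton] at hz
  rw [Finset.mem_filter]
  rcases hz with rfl | rfl
  · exact ⟨hx, hxs, rfl⟩
  · exact ⟨hy, hys, h.symm⟩

theorem no_ties {Ω : Type*} [MeasurableSpace Ω] {μ : Measure Ω} {P : Ω → Finset ℂ} {a : ℝ} (ha : 0 ≤ a)
    (hP : IsPoissonProcess μ P (square a)) :
    μ {ω | ∃ x ∈ P ω, ∃ y ∈ P ω, ∃ z ∈ P ω, x ≠ y ∧ y ≠ z ∧ x ≠ z ∧ dist x y = dist x z} = 0 := by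
  have key : ∀ m : ℕ, μ {ω | ∃ x ∈ P ω, ∃ y ∈ P ω, ∃ z ∈ P ω, x ≠ y ∧ y ≠ z ∧ x ≠ z ∧ dist x y = dist x z} ≤
      ENNReal.ofReal ((1 / 2 ^ m) ^ 2 * a ^ 2) +
      ((volume : Measure ℂ).prod ((volume : Measure ℂ).prod (volume : Measure ℂ)))
      {p : ℂ × ℂ × ℂ | p.1 ∈ square a ∧ p.2.1 ∈ square a ∧ p.2.2 ∈ square a ∧
        |dist p.1 p.2.1 - dist p.1 p.2.2| ≤ 6 / 2 ^ m} := by
    intro m
    have hδ : (0 : ℝ) < 1 / 2 ^ m := by positivity
    have h1 := two_in_cell ha hP hδ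
    have h2 := three_cells ha hP hδ
    have e : (6 : ℝ) * (1 / 2 ^ m) = 6 / 2 ^ m := by ring
    rw [e] at h2
    refine le_trans (le_trans (measure_mono ?_) (measure_union_le _ _)) (add_le_add h1 h2)
    rintro ω ⟨x, hx, y, hy, z, hz, hxy, hyz, hxz, hd⟩
    have hxs := hP.sub ω x hx
    have hys := hP.sub ω y hy
    have hzs := hP.sub ω z hz
    by_cases h : idx (1 / 2 ^ m) x ≠ idx (1 / 2 ^ m) y ∧ idx (1 / 2 ^ m) y ≠ idx (1 / 2 ^ m) z ∧
        idx (1 / 2 ^ m) x ≠ idx (1 / 2 ^ m) z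
    · right
      exact ⟨x, hx, y, hy, z, hz, h.1, h.2.1, h.2.2, hd⟩
    · left
      by_cases h1 : idx (1 / 2 ^ m) x = idx (1 / 2 ^ m) y
      · exact ⟨_, two_of_same hx hy hxy hxs hys h1⟩
      by_cases h2 : idx (1 / 2 ^ m) y = idx (1 / 2 ^ m) z
      · exact ⟨_, two_of_same hy hz hyz hys hzs h2⟩
      by_cases h3 : idx (1 / 2 ^ m) x = idx (1 / 2 ^ m) z
      · exact ⟨_, two_of_same hx hz hxz hxs hzs h3⟩
      exact absurd ⟨h1, h2, h3⟩ h
  have hlim : Filter.Tendsto (fun m : ℕ => ENNReal.ofReal ((1 / 2 ^ m) ^ 2 * a ^ 2) +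
      ((volume : Measure ℂ).prod ((volume : Measure ℂ).prod (volume : Measure ℂ)))
      {p : ℂ × ℂ × ℂ | p.1 ∈ square a ∧ p.2.1 ∈ square a ∧ p.2.2 ∈ square a ∧
        |dist p.1 p.2.1 - dist p.1 p.2.2| ≤ 6 / 2 ^ m}) Filter.atTop (nhds 0) := by
    have t1 : Filter.Tendsto (fun m : ℕ => ENNReal.ofReal ((1 / 2 ^ m) ^ 2 * a ^ 2)) Filter.atTop (nhds 0) := by
      have : Filter.Tendsto (fun m : ℕ => ((1 / 2 ^ m : ℝ) ^ 2 * a ^ 2)) Filter.atTop (nhds 0) := by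
        have h := tendsto_pow_atTop_nhds_zero_of_lt_one (r := (1 / 2 : ℝ)) (by norm_num) (by norm_num)
        have h2 : Filter.Tendsto (fun m : ℕ => (((1 / 2 : ℝ) ^ m) ^ 2 * a ^ 2)) Filter.atTop (nhds (0 ^ 2 * a ^ 2)) :=
          (h.pow 2).mul_const _
        simp only [one_div, inv_pow] at h2 ⊢
        simpa using h2
      have h := ENNReal.tendsto_ofReal this
      simpa using h
    simpa using t1.add (tie_volume a)
  exact le_antisymm (ge_of_tendsto' hlim key) zero_le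

end Pool.Agent.H97.KN
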